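import Mathlib

set_option autoImplicit false

namespace Pool.Agent.H497.TT

open MeasureTheory

/-- The eigenvectors of a unitary matrix span the space. -/
theorem eig_span {n : ℕ} (U : Matrix (Fin n) (Fin n) ℂ) (h1 : U.conjTranspose * U = 1)
    (h2 : U * U.conjTranspose = 1) :
    ⊤ ≤ Submodule.span ℂ {v : Fin n → ℂ | ∃ μ : ℂ, Matrix.mulVec U v = μ • v} := by
  classical
  have hA : (U + U.conjTranspose).IsHermitian := by
    unfold Matrix.IsHermitian
    rw [Matrix.conjTranspose_add, Matrix.conjTranspose_conjTranspose, add_comm]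
  have hB : (Complex.I • (U - U.conjTranspose)).IsHermitian := by
    unfold Matrix.IsHermitian
    rw [Matrix.conjTranspose_smul, Matrix.conjTranspose_sub, Matrix.conjTranspose_conjTranspose]
    rw [Complex.star_def, Complex.conj_I, neg_smul, ← smul_neg, neg_sub]
  have hA' := Matrix.isSymmetric_toEuclideanLin_iff.2 hA
  have hB' := Matrix.isSymmetric_toEuclideanLin_iff.2 hB
  have hcomm : (U + U.conjTranspose) * (Complex.I • (U - U.conjTranspose)) =
      (Complex.I • (U - U.conjTranspose)) * (U + U.conjTranspose) := by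
    rw [Matrix.mul_smul, Matrix.smul_mul]
    congr 1
    rw [add_mul, mul_sub, mul_sub, sub_mul, mul_add, mul_add, h1, h2]
    abel
  have hAB : Commute (Matrix.toEuclideanLin (U + U.conjTranspose))
      (Matrix.toEuclideanLin (Complex.I • (U - U.conjTranspose))) := by
    refine LinearMap.ext fun v => ?_
    show WithLp.toLp 2 (Matrix.mulVec (U + U.conjTranspose)
      (Matrix.mulVec (Complex.I • (U - U.conjTranspose)) v.ofLp)) =
      WithLp.toLp 2 (Matrix.mulVec (Complex.I • (U - U.conjTranspose))
      (Matrix.mulVec (U + U.conjTranspose) v.ofLp))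
    rw [Matrix.mulVec_mulVec, Matrix.mulVec_mulVec, hcomm]
  have htop := hA'.iSup_iSup_eigenspace_inf_eigenspace_eq_top_of_commute hB' hAB
  have hle : (⨆ α, ⨆ γ, Module.End.eigenspace (Matrix.toEuclideanLin (U + U.conjTranspose)) α ⊓
      Module.End.eigenspace (Matrix.toEuclideanLin (Complex.I • (U - U.conjTranspose))) γ) ≤
      (Submodule.span ℂ {v : Fin n → ℂ | ∃ μ : ℂ, Matrix.mulVec U v = μ • v}).comap
        (WithLp.linearEquiv 2 ℂ (Fin n → ℂ)).toLinearMap := by
    refine iSup_le fun a => iSup_le fun g => fun v hv => ?_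
    refine Submodule.subset_span ⟨(a - Complex.I * g) / 2, ?_⟩
    have e1 := Module.End.mem_eigenspace_iff.1 hv.1
    have e2 := Module.End.mem_eigenspace_iff.1 hv.2
    have e1' : Matrix.mulVec (U + U.conjTranspose) v.ofLp = a • v.ofLp :=
      congrArg WithLp.ofLp e1
    have e2' : Matrix.mulVec (Complex.I • (U - U.conjTranspose)) v.ofLp = g • v.ofLp :=
      congrArg WithLp.ofLp e2
    show Matrix.mulVec U v.ofLp = ((a - Complex.I * g) / 2) • v.ofLp
    have e3 : U = (1 / 2 : ℂ) • ((U + U.conjTranspose) -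
        Complex.I • (Complex.I • (U - U.conjTranspose))) := by
      rw [smul_smul, Complex.I_mul_I, neg_one_smul]
      ext i j
      simp
      ring
    have e4 : Matrix.mulVec U v.ofLp = (1 / 2 : ℂ) • (Matrix.mulVec (U + U.conjTranspose) v.ofLp -
        Complex.I • Matrix.mulVec (Complex.I • (U - U.conjTranspose)) v.ofLp) := by
      conv_lhs => rw [e3]
      rw [Matrix.smul_mulVec, Matrix.sub_mulVec, Matrix.smul_mulVec]
    rw [e4, e1', e2', smul_smul, ← sub_smul, smul_smul]
    congr 1
    ring
  rw [htop] at hle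
  intro v _
  exact hle (Submodule.mem_top (x := (WithLp.linearEquiv 2 ℂ (Fin n → ℂ)).symm v))

open scoped ComplexOrder in
theorem eig_ne {n : ℕ} {v : Fin n → ℂ} (h : v ≠ 0) : dotProduct (star v) v ≠ 0 := by
  rw [Ne, dotProduct_star_self_eq_zero]
  exact h

/-- A unitary matrix is normal, so unitarily diagonalisable; or: the characteristic polynomial splits over `ℂ`, with roots
`α_i` (as a multiset of cardinality `n`); `tr(U^e)` is the sum of the `e`-th powers of the roots (for instance
`Matrix.trace_pow_eq_sum_roots_charpoly` or by triangularisation, or the spectral theorem), `det(1 - zU) = ∏ (1 - α_i z)`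
(`Matrix.charpoly` and reverse; for `z ≠ 0`: `det(1 - zU) = z^n det(z⁻¹ - U)`), and `|α_i| = 1` as eigenvalues of a unitary
matrix. -/
theorem unitary_eig {n : ℕ} (U : Matrix.unitaryGroup (Fin n) ℂ) : ∃ α : Fin n → ℂ, (∀ i, ‖α i‖ = 1) ∧
    (∀ e : ℕ, ((U : Matrix (Fin n) (Fin n) ℂ) ^ e).trace = ∑ i, α i ^ e) ∧
    ∀ z : ℂ, (1 - z • (U : Matrix (Fin n) (Fin n) ℂ)).det = ∏ i, (1 - α i * z) := by
  classical
  obtain ⟨U, hU⟩ := U
  have h1 : U.conjTranspose * U = 1 := Matrix.mem_unitaryGroup_iff'.1 hU
  have h2 : U * U.conjTranspose = 1 := Matrix.mem_unitaryGroup_iff.1 hU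
  have hs := eig_span U h1 h2
  let b0 := Module.Basis.ofSpan hs
  have := FiniteDimensional.fintypeBasisIndex b0
  have hcard : Fintype.card ((linearIndepOn_empty ℂ id).extend
      (Set.empty_subset {v : Fin n → ℂ | ∃ μ : ℂ, Matrix.mulVec U v = μ • v})) = n := by
    rw [← Module.finrank_eq_card_basis b0]
    simp
  let b : Module.Basis (Fin n) ℂ (Fin n → ℂ) := b0.reindex (Fintype.equivFinOfCardEq hcard)
  have hb : ∀ i, ∃ μ : ℂ, Matrix.mulVec U (b i) = μ • b i := by
    intro i
    refine Module.Basis.ofSpan_subset hs ⟨(Fintype.equivFinOfCardEq hcard).symm i, ?_⟩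
    exact (Module.Basis.reindex_apply _ _ _).symm
  choose α hα using hb
  set P : Matrix (Fin n) (Fin n) ℂ := (Pi.basisFun ℂ (Fin n)).toMatrix b with hP
  set P' : Matrix (Fin n) (Fin n) ℂ := b.toMatrix (Pi.basisFun ℂ (Fin n)) with hP'
  have hPP' : P * P' = 1 := Module.Basis.toMatrix_mul_toMatrix_flip _ _
  have hP'P : P' * P = 1 := Module.Basis.toMatrix_mul_toMatrix_flip _ _
  have hPa : ∀ i j, P i j = b j i := fun i j => by
    rw [hP, Module.Basis.toMatrix_apply, Pi.basisFun_repr]
  have hUP : U * P = P * Matrix.diagonal α := by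
    ext i j
    rw [Matrix.mul_diagonal, Matrix.mul_apply, hPa]
    have h3 := congrFun (hα j) i
    rw [Matrix.mulVec, dotProduct, Pi.smul_apply, smul_eq_mul] at h3
    rw [mul_comm (b j i), ← h3]
    exact Finset.sum_congr rfl fun k _ => by rw [hPa]
  have hUD : U = P * Matrix.diagonal α * P' := by
    rw [← hUP, mul_assoc, hPP', mul_one]
  refine ⟨α, ?_, ?_, ?_⟩
  · intro i
    have h3 : dotProduct (star (Matrix.mulVec U (b i))) (Matrix.mulVec U (b i)) =
        dotProduct (star (b i)) (b i) := by
      rw [Matrix.star_mulVec, Matrix.dotProduct_mulVec, Matrix.vecMul_vecMul, h1,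
        Matrix.vecMul_one]
    rw [hα i, star_smul, smul_dotProduct, dotProduct_smul, smul_eq_mul, smul_eq_mul,
      ← mul_assoc] at h3
    have h4 : dotProduct (star (b i)) (b i) ≠ 0 := eig_ne (b.ne_zero i)
    have h5 : star (α i) * α i = 1 := by
      have h6 : (star (α i) * α i - 1) * dotProduct (star (b i)) (b i) = 0 := by
        rw [sub_mul, h3, one_mul, sub_self]
      rcases mul_eq_zero.1 h6 with h7 | h7
      · exact sub_eq_zero.1 h7
      · exact absurd h7 h4
    have h6 : ‖α i‖ * ‖α i‖ = 1 := by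
      have h7 := congrArg norm h5
      rwa [norm_mul, norm_star, norm_one] at h7
    nlinarith [norm_nonneg (α i)]
  · intro e
    have h3 : U ^ e = P * Matrix.diagonal α ^ e * P' := by
      induction e with
      | zero => rw [pow_zero, pow_zero, mul_one, hPP']
      | succ e ih =>
        rw [pow_succ, ih]
        conv_lhs => rw [hUD]
        rw [pow_succ]
        calc P * Matrix.diagonal α ^ e * P' * (P * Matrix.diagonal α * P') =
            P * Matrix.diagonal α ^ e * (P' * P) * Matrix.diagonal α * P' := by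
              simp only [mul_assoc]
          _ = _ := by rw [hP'P, mul_one]; simp only [mul_assoc]
    show (U ^ e).trace = _
    rw [h3, Matrix.trace_mul_comm, ← mul_assoc, hP'P, one_mul, Matrix.diagonal_pow,
      Matrix.trace_diagonal]
    rfl
  · intro z
    have h3 : 1 - z • U = P * Matrix.diagonal (fun i => 1 - α i * z) * P' := by
      have h4 : Matrix.diagonal (fun i => 1 - α i * z) = 1 - z • Matrix.diagonal α := by
        ext i j
        by_cases hij : i = j
        · subst hij
          simp [mul_comm]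
        · simp [hij]
      rw [h4, mul_sub, sub_mul, mul_one, hPP', Matrix.mul_smul, Matrix.smul_mul, ← hUD]
    show (1 - z • U).det = _
    rw [h3, Matrix.det_mul, Matrix.det_mul, Matrix.det_diagonal, mul_right_comm,
      ← Matrix.det_mul, hPP', Matrix.det_one, one_mul]

end Pool.Agent.H497.TT
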