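import Pool.Agent.H497.TT.Defs
import Pool.Agent.H497.FF.C7

set_option autoImplicit false



namespace Pool.Agent.H497.TT

open Pool.Agent.H497.FF (exp_eq)

open MeasureTheory


theorem geoT_le (q : ℕ) (hq : 2 ≤ q) (k : ℕ) : ∑ d ∈ Finset.range (k + 1), (q : ℝ) ^ d ≤ 2 * (q : ℝ) ^ k := by
  have hq' : (2 : ℝ) ≤ q := by exact_mod_cast hq
  induction k with
  | zero => simp
  | succ k ih =>
    rw [Finset.sum_range_succ]
    have : (0 : ℝ) < (q : ℝ) ^ k := by positivity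
    rw [pow_succ]
    nlinarith

theorem divT_le (q : ℕ) (hq : 2 ≤ q) (k : ℕ) : ∑ d ∈ k.divisors, (q : ℝ) ^ d ≤ 2 * (q : ℝ) ^ k := by
  refine le_trans (Finset.sum_le_sum_of_subset_of_nonneg (t := Finset.range (k + 1)) ?_ ?_) (geoT_le q hq k)
  · intro d hd
    rw [Finset.mem_range]
    exact Nat.lt_succ_of_le (Nat.divisor_le hd)
  · intros; positivity

theorem prT_le {𝓟 𝓧 : Type} (S : TSys 𝓟 𝓧) {d : ℕ} (hd : d ≠ 0) :
    (d : ℝ) * (S.Pr d).card ≤ (1 + S.A) * (S.q : ℝ) ^ d := by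
  have h := (abs_le.1 (S.Pr_card d hd)).2
  have hq : (1 : ℝ) ≤ S.q := by
    have := S.hq
    exact_mod_cast (by omega : 1 ≤ S.q)
  have h1 : √(S.q : ℝ) ≤ S.q := by
    rw [Real.sqrt_le_left (by linarith)]
    nlinarith
  have h2 : √(S.q : ℝ) ^ d ≤ (S.q : ℝ) ^ d := pow_le_pow_left₀ (Real.sqrt_nonneg _) h1 d
  have h3 : (S.A : ℝ) * √(S.q : ℝ) ^ d ≤ S.A * (S.q : ℝ) ^ d :=
    mul_le_mul_of_nonneg_left h2 (Nat.cast_nonneg _)
  linarith

theorem cardT_le {𝓟 𝓧 : Type} (S : TSys 𝓟 𝓧) {d : ℕ} (hd : d ≠ 0) :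
    ((S.Pr d).card : ℝ) ≤ (1 + S.A) * (S.q : ℝ) ^ d := by
  refine le_trans ?_ (prT_le S hd)
  have h1 : (1 : ℝ) ≤ d := by exact_mod_cast Nat.pos_of_ne_zero hd
  have h2 : (0 : ℝ) ≤ ((S.Pr d).card : ℝ) := Nat.cast_nonneg _
  nlinarith

theorem fibT_hasSum {𝓟 𝓧 : Type} (S : TSys 𝓟 𝓧) {M : Type} [AddCommMonoid M] [TopologicalSpace M]
    (h : 𝓟 → ℕ → M) {k : ℕ} (hk : k ≠ 0) :
    HasSum (fun c : {x : 𝓟 × ℕ | S.deg x.1 * (x.2 + 1) = k} =>
      h c.1.1 (c.1.2 + 1)) (∑ d ∈ k.divisors, ∑ P ∈ S.Pr d, h P (k / d)) := by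
  classical
  let e : {y : Σ _ : ℕ, 𝓟 // y ∈ k.divisors.sigma S.Pr} ≃
      {x : 𝓟 × ℕ | S.deg x.1 * (x.2 + 1) = k} :=
    { toFun := fun y => ⟨(y.1.2, k / y.1.1 - 1), by
          obtain ⟨⟨d, P⟩, hy⟩ := y
          rw [Finset.mem_sigma] at hy
          have h1 := (S.mem_Pr d P).1 hy.2
          have h2 := Nat.dvd_of_mem_divisors hy.1
          have h3 := Nat.pos_of_mem_divisors hy.1
          simp only at h1 h2 h3
          simp only [Set.mem_ofPred_eq, h1]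
          have h4 : 1 ≤ k / d := (Nat.one_le_div_iff h3).2 (Nat.le_of_dvd (Nat.pos_of_ne_zero hk) h2)
          rw [Nat.sub_add_cancel h4, Nat.mul_div_cancel' h2]⟩
      invFun := fun x => ⟨⟨S.deg x.1.1, x.1.1⟩, by
          obtain ⟨⟨P, e⟩, hx⟩ := x
          rw [Finset.mem_sigma]
          simp only [Set.mem_ofPred_eq] at hx
          exact ⟨Nat.mem_divisors.2 ⟨⟨e + 1, hx.symm⟩, hk⟩, (S.mem_Pr _ _).2 rfl⟩⟩
      left_inv := by
        rintro ⟨⟨d, P⟩, hy⟩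
        have hy' := hy
        rw [Finset.mem_sigma] at hy'
        have h1 : S.deg P = d := (S.mem_Pr d P).1 hy'.2
        subst h1
        rfl
      right_inv := by
        rintro ⟨⟨P, e⟩, hx⟩
        simp only [Set.mem_ofPred_eq] at hx
        apply Subtype.ext
        simp only [Prod.mk.injEq, true_and]
        have h1 : 0 < S.deg P := S.deg_pos P
        rw [← hx, Nat.mul_div_cancel_left _ h1]
        omega }
  rw [← e.hasSum_iff]
  have h1 := Finset.hasSum (k.divisors.sigma S.Pr) (fun y : Σ _ : ℕ, 𝓟 => h y.2 (k / y.1))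
  rw [Finset.sum_sigma] at h1
  refine Eq.mp (congrArg (fun F => HasSum F _) ?_) h1
  symm
  funext y
  obtain ⟨⟨d, P⟩, hy⟩ := y
  rw [Finset.mem_sigma] at hy
  have h2 := Nat.dvd_of_mem_divisors hy.1
  have h3 := Nat.pos_of_mem_divisors hy.1
  simp only at h2 h3
  have h4 : 1 ≤ k / d := (Nat.one_le_div_iff h3).2 (Nat.le_of_dvd (Nat.pos_of_ne_zero hk) h2)
  simp only [e, Function.comp, Equiv.coe_fn_mk]
  rw [Nat.sub_add_cancel h4]

/-- Euler products with general local parameters. -/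
theorem euler_gen {𝓟 𝓧 : Type} (S : TSys 𝓟 𝓧) {ι : Type} [Fintype ι] (γ : 𝓟 → ι → ℂ)
    (hγ : ∀ P i, ‖γ P i‖ ≤ 1) (a T : ℕ → ℂ) (N : ℕ) (ha0 : a 0 = 1) (haN : ∀ j, N < j → a j = 0)
    (hT : ∀ k : ℕ, k ≠ 0 → T k =
      ∑ d ∈ k.divisors, (d : ℂ) * ∑ P ∈ S.Pr d, ∑ i, γ P i ^ (k / d))
    (hrec : ∀ k : ℕ, (k : ℂ) * a k = ∑ j ∈ Finset.range k, T (j + 1) * a (k - 1 - j)) (u : ℂ)
    (hu : ‖u‖ < 1 / S.q) :
    HasProd (fun P : 𝓟 => ∏ i, (1 - γ P i * u ^ S.deg P)⁻¹)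
      (∑ j ∈ Finset.range (N + 1), a j * u ^ j) := by
  classical
  set n : ℕ := Fintype.card ι with hn
  have hq0 : (0 : ℝ) < S.q := by
    have := S.hq
    exact_mod_cast (by omega : 0 < S.q)
  have hq1 : (1 : ℝ) ≤ S.q := by
    have := S.hq
    exact_mod_cast (by omega : 1 ≤ S.q)
  have hA0 : (0 : ℝ) ≤ 1 + S.A := by positivity
  have hr1 : S.q * ‖u‖ < 1 := by
    rw [lt_div_iff₀ hq0] at hu
    linarith
  have hu1 : ‖u‖ < 1 := by
    refine lt_of_le_of_lt ?_ hr1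
    nlinarith [norm_nonneg u]
  set r : ℝ := ‖u‖ with hr
  have hr0 : 0 ≤ r := norm_nonneg u
  -- the bound for the local terms
  have hev : ∀ (P : 𝓟) (i : ι) (e : ℕ), ‖γ P i ^ e‖ ≤ 1 := by
    intro P i e
    rw [norm_pow]
    exact pow_le_one₀ (norm_nonneg _) (hγ P i)
  have hpow : ∀ (P : 𝓟) (e : ℕ), ‖∑ i, γ P i ^ e‖ ≤ n := by
    intro P e
    refine le_trans (norm_sum_le _ _) ?_
    refine le_trans (Finset.sum_le_sum fun i _ => hev P i e) ?_
    simp [hn]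
  have hTb : ∀ k : ℕ, ‖T (k + 1)‖ ≤ (2 * n * (1 + S.A)) * (S.q : ℝ) ^ (k + 1) := by
    intro k
    rw [hT (k + 1) (Nat.succ_ne_zero k)]
    refine le_trans (norm_sum_le _ _) ?_
    have h1 : ∀ d ∈ (k + 1).divisors, ‖(d : ℂ) * ∑ P ∈ S.Pr d, ∑ i, γ P i ^ ((k + 1) / d)‖ ≤
        (n * (1 + S.A)) * (S.q : ℝ) ^ d := by
      intro d hd
      rw [norm_mul, Complex.norm_natCast]
      have h2 : ‖∑ P ∈ S.Pr d, ∑ i, γ P i ^ ((k + 1) / d)‖ ≤ (S.Pr d).card * (n : ℝ) := by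
        refine le_trans (norm_sum_le _ _) ?_
        rw [← nsmul_eq_mul]
        exact Finset.sum_le_card_nsmul _ _ _ fun P _ => hpow P _
      have h3 := prT_le S (Nat.pos_of_mem_divisors hd).ne'
      calc _ ≤ (d : ℝ) * ((S.Pr d).card * (n : ℝ)) := by gcongr
        _ = ((d : ℝ) * (S.Pr d).card) * n := by ring
        _ ≤ ((1 + S.A) * (S.q : ℝ) ^ d) * n := by gcongr
        _ = (n * (1 + S.A)) * (S.q : ℝ) ^ d := by ring
    refine le_trans (Finset.sum_le_sum h1) ?_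
    rw [← Finset.mul_sum]
    have := divT_le S.q S.hq (k + 1)
    have hn : (0 : ℝ) ≤ n * (1 + S.A) := by positivity
    nlinarith
  have hexp := exp_eq (S.q : ℝ) hq0 (2 * n * (1 + S.A)) T a N ha0 haN hTb hrec u hu
  set f : 𝓟 × ℕ → ℂ := fun x =>
    (∑ i, γ x.1 i ^ (x.2 + 1)) * u ^ (S.deg x.1 * (x.2 + 1)) / ((x.2 + 1 : ℕ) : ℂ)
    with hf
  set s : ℕ → Set (𝓟 × ℕ) :=
    fun k => {x | S.deg x.1 * (x.2 + 1) = k} with hs
  have hempty : IsEmpty (s 0) := by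
    constructor
    rintro ⟨⟨P, e⟩, hx⟩
    simp only [hs, Set.mem_ofPred_eq] at hx
    have hP := S.deg_pos P
    rcases Nat.mul_eq_zero.1 hx with h | h
    · omega
    · omega
  -- norm sums over the fibres
  have hnorm : ∀ k : ℕ, k ≠ 0 → HasSum (fun c : s k => (n : ℝ) * r ^ (S.deg c.1.1 * (c.1.2 + 1)))
      (∑ d ∈ k.divisors, ∑ P ∈ S.Pr d, (n : ℝ) * r ^ (S.deg P * (k / d))) := fun k hk =>
    fibT_hasSum S (fun P e => (n : ℝ) * r ^ (S.deg P * e)) hk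
  have hnorm2 : ∀ k : ℕ, k ≠ 0 → ∑ d ∈ k.divisors, ∑ P ∈ S.Pr d, (n : ℝ) * r ^ (S.deg P * (k / d)) ≤
      (2 * n * (1 + S.A)) * (S.q * r) ^ k := by
    intro k hk
    have h1 : ∀ d ∈ k.divisors, ∑ P ∈ S.Pr d, (n : ℝ) * r ^ (S.deg P * (k / d)) ≤
        (n * r ^ k * (1 + S.A)) * (S.q : ℝ) ^ d := by
      intro d hd
      have h2 : ∀ P ∈ S.Pr d, (n : ℝ) * r ^ (S.deg P * (k / d)) = n * r ^ k := by
        intro P hP
        rw [(S.mem_Pr d P).1 hP, Nat.mul_div_cancel' (Nat.dvd_of_mem_divisors hd)]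
      rw [Finset.sum_congr rfl h2, Finset.sum_const, nsmul_eq_mul]
      have h3 := cardT_le S (Nat.pos_of_mem_divisors hd).ne'
      calc _ ≤ ((1 + S.A) * (S.q : ℝ) ^ d) * (n * r ^ k) := by gcongr
        _ = _ := by ring
    refine le_trans (Finset.sum_le_sum h1) ?_
    rw [← Finset.mul_sum]
    have h3 := divT_le S.q S.hq k
    calc (n * r ^ k * (1 + S.A)) * ∑ d ∈ k.divisors, (S.q : ℝ) ^ d ≤
        (n * r ^ k * (1 + S.A)) * (2 * (S.q : ℝ) ^ k) := by gcongr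
      _ = (2 * n * (1 + S.A)) * (S.q * r) ^ k := by rw [mul_pow]; ring
  have hsum0 : Summable (fun x : 𝓟 × ℕ => (n : ℝ) * r ^ (S.deg x.1 * (x.2 + 1))) := by
    rw [summable_partition (s := s) (fun x => by positivity) (fun x => ⟨_, rfl, fun y hy => hy.symm⟩)]
    constructor
    · intro k
      rcases Nat.eq_zero_or_pos k with rfl | hk
      · exact Summable.of_finite
      · exact (hnorm k hk.ne').summable
    · refine Summable.of_nonneg_of_le (fun k => tsum_nonneg fun _ => by positivity) (fun k => ?_)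
        ((summable_geometric_of_lt_one (by positivity) hr1).mul_left (2 * (n : ℝ) * (1 + (S.A : ℝ))))
      rcases Nat.eq_zero_or_pos k with rfl | hk
      · rw [tsum_empty]
        positivity
      · rw [(hnorm k hk.ne').tsum_eq]
        exact hnorm2 k hk.ne'
  have hsumf : Summable f := by
    refine Summable.of_norm_bounded hsum0 fun x => ?_
    rw [hf]
    simp only
    rw [norm_div, norm_mul, norm_pow u, Complex.norm_natCast]
    have h1 : (1 : ℝ) ≤ ((x.2 + 1 : ℕ) : ℝ) := by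
      push_cast
      linarith [(Nat.cast_nonneg x.2 : (0 : ℝ) ≤ x.2)]
    refine le_trans (div_le_self (by positivity) h1) ?_
    exact mul_le_mul_of_nonneg_right (hpow _ _) (by positivity)
  have hfib : ∀ k : ℕ, ∑' c : (fun x : 𝓟 × ℕ =>
      S.deg x.1 * (x.2 + 1)) ⁻¹' {k}, f c = T k * u ^ k / (k : ℂ) := by
    intro k
    change ∑' c : s k, f c = T k * u ^ k / (k : ℂ)
    rcases Nat.eq_zero_or_pos k with rfl | hk
    · rw [tsum_empty]; simp
    · have h1 := fibT_hasSum S (fun P e => (∑ i, γ P i ^ e) * u ^ (S.deg P * e) / (e : ℂ)) hk.ne'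
      rw [hf]
      refine h1.tsum_eq.trans ?_
      rw [hT k hk.ne', Finset.sum_mul, Finset.sum_div]
      refine Finset.sum_congr rfl fun d hd => ?_
      have hd1 := Nat.dvd_of_mem_divisors hd
      have hd2 : (d : ℂ) ≠ 0 := by exact_mod_cast (Nat.pos_of_mem_divisors hd).ne'
      have hk2 : (k : ℂ) ≠ 0 := by exact_mod_cast hk.ne'
      rw [Finset.mul_sum, Finset.sum_mul, Finset.sum_div]
      refine Finset.sum_congr rfl fun P hP => ?_
      rw [(S.mem_Pr d P).1 hP, Nat.mul_div_cancel' hd1, Nat.cast_div hd1 hd2]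
      field_simp
  have hG : HasSum (fun k : ℕ => T k * u ^ k / (k : ℂ)) (∑' x, f x) := by
    have h1 := hsumf.hasSum.tsum_fiberwise (fun x : 𝓟 × ℕ => S.deg x.1 * (x.2 + 1))
    simpa only [hfib] using h1
  have hG2 : ∑' x, f x = ∑' k : ℕ, T (k + 1) * u ^ (k + 1) / ((k + 1 : ℕ) : ℂ) := by
    rw [← hasSum_nat_add_iff' 1] at hG
    simp only [Finset.range_one, Finset.sum_singleton, Nat.cast_zero, div_zero, sub_zero] at hG
    exact hG.tsum_eq.symm
  have hz : ∀ (P : 𝓟) (i : ι), ‖γ P i * u ^ S.deg P‖ < 1 := by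
    intro P i
    rw [norm_mul, norm_pow]
    have h1 : ‖u‖ ^ S.deg P < 1 :=
      pow_lt_one₀ (norm_nonneg _) hu1 (Nat.pos_iff_ne_zero.1 (S.deg_pos P))
    calc _ ≤ 1 * ‖u‖ ^ S.deg P := by
          gcongr
          exact hγ P i
      _ < 1 := by rwa [one_mul]
  have hloc : ∀ P : 𝓟,
      HasSum (fun e : ℕ => f (P, e)) (∑ i, -Complex.log (1 - γ P i * u ^ S.deg P)) := by
    intro P
    have h1 : ∀ i : ι, HasSum (fun e : ℕ => (γ P i * u ^ S.deg P) ^ (e + 1) / ((e + 1 : ℕ) : ℂ))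
        (-Complex.log (1 - γ P i * u ^ S.deg P)) := by
      intro i
      have h2 := Complex.hasSum_taylorSeries_neg_log (hz P i)
      rw [← hasSum_nat_add_iff' 1] at h2
      simpa using h2
    have h3 := hasSum_sum (s := Finset.univ) (fun i _ => h1 i)
    have h4 : (fun e : ℕ => f (P, e)) =
        fun e : ℕ => ∑ i, (γ P i * u ^ S.deg P) ^ (e + 1) / ((e + 1 : ℕ) : ℂ) := by
      funext e
      rw [hf]
      simp only
      rw [Finset.sum_mul, Finset.sum_div]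
      refine Finset.sum_congr rfl fun i _ => ?_
      rw [mul_pow, pow_mul]
    rw [h4]
    exact h3
  have hfin := (hsumf.hasSum.prod_fiberwise hloc).cexp
  rw [hG2, hexp] at hfin
  have h5 : (fun P : 𝓟 => ∏ i, (1 - γ P i * u ^ S.deg P)⁻¹) =
      Complex.exp ∘ fun P : 𝓟 => ∑ i, -Complex.log (1 - γ P i * u ^ S.deg P) := by
    funext P
    simp only [Function.comp]
    rw [Complex.exp_sum]
    refine Finset.prod_congr rfl fun i _ => ?_
    have h1 : (1 - γ P i * u ^ S.deg P) ≠ 0 := by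
      intro h
      have h2 := hz P i
      rw [← sub_eq_zero.1 h, norm_one] at h2
      exact lt_irrefl _ h2
    rw [Complex.exp_neg, Complex.exp_log h1]
  rw [h5]
  exact hfin

/-- The Euler product: `log ∏ = ∑_P ∑_e (∑_i α_i^e)(∑_j β_j^e) u^(e deg P) / e = ∑_k T_k u^k / k`, absolutely convergent for
`|u| < 1/q`. This is `euler` in the file `helper497_tt_c7ref.lean` (team-store get it), a complete proof for one character
`ev χ P` in place of the `R` parameters `par χ P j` and with `k card(Pr k) ≤ q^k` in place of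
`k card(Pr k) ≤ q^k + A √q^k ≤ (1 + A) q^k`, and with the index type `{P // P ∈ Pr (deg P) ∧ deg P ≠ 0}` in place of `𝓟` (here
`mem_Pr`, `deg_pos` show that all `P` are in `Pr (deg P)`). Adapt that proof. One way: index the local parameters by
`Fin n × Fin R`, `γ P (i, j) = α P i * par χ P j`, `‖γ‖ ≤ 1`, `∑_{(i,j)} γ^e = (∑_i α_i^e)(∑_j par_j^e)`. -/
theorem eulerT {𝓟 𝓧 : Type} (S : TSys 𝓟 𝓧) {n : ℕ} (α : 𝓟 → Fin n → ℂ) (hα : ∀ P i, ‖α P i‖ ≤ 1) (χ : 𝓧)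
    (a T : ℕ → ℂ) (N : ℕ) (ha0 : a 0 = 1) (haN : ∀ j, N < j → a j = 0)
    (hT : ∀ k : ℕ, k ≠ 0 → T k = S.TS (fun P e => ∑ i, α P i ^ e) χ k)
    (hrec : ∀ k : ℕ, (k : ℂ) * a k = ∑ j ∈ Finset.range k, T (j + 1) * a (k - 1 - j)) (u : ℂ)
    (hu : ‖u‖ < 1 / S.q) :
    HasProd (fun P : 𝓟 => ∏ j, ∏ i, (1 - α P i * (S.par χ P j * u ^ S.deg P))⁻¹)
      (∑ j ∈ Finset.range (N + 1), a j * u ^ j) := by
  have hγ : ∀ (P : 𝓟) (x : Fin S.R × Fin n), ‖α P x.2 * S.par χ P x.1‖ ≤ 1 := by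
    intro P x
    rw [norm_mul]
    exact mul_le_one₀ (hα P x.2) (norm_nonneg _) (S.par_le χ P x.1)
  have h1 := euler_gen S (fun P (x : Fin S.R × Fin n) => α P x.2 * S.par χ P x.1) hγ a T N ha0 haN
    (fun k hk => by
      rw [hT k hk]
      unfold TSys.TS TSys.lam
      refine Finset.sum_congr rfl fun d _ => ?_
      congr 1
      refine Finset.sum_congr rfl fun P _ => ?_
      rw [Fintype.sum_prod_type, Finset.sum_mul_sum, Finset.sum_comm]
      refine Finset.sum_congr rfl fun j _ => Finset.sum_congr rfl fun i _ => ?_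
      rw [mul_pow]) hrec u hu
  have h2 : (fun P : 𝓟 => ∏ j, ∏ i, (1 - α P i * (S.par χ P j * u ^ S.deg P))⁻¹) =
      fun P : 𝓟 => ∏ x : Fin S.R × Fin n, (1 - α P x.2 * S.par χ P x.1 * u ^ S.deg P)⁻¹ := by
    funext P
    rw [Fintype.prod_prod_type]
    refine Finset.prod_congr rfl fun j _ => Finset.prod_congr rfl fun i _ => ?_
    rw [mul_assoc]
  rw [h2]
  exact h1



end Pool.Agent.H497.TT
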