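import Mathlib

set_option autoImplicit false

namespace Pool.Agent.H497.TT

open MeasureTheory


/-- In a finite-dimensional space finitely many of the subspaces have the same intersection: choose a finite intersection
`⨅_{x ∈ F} V x` of minimal dimension; then it is contained in every `V x`, so it is `⊥`. Enumerate `F`. -/
theorem finite_dirs {ι Xi : Type} [Fintype ι] (V : Xi → Submodule ℝ (ι → ℝ)) (h : ⨅ x, V x = ⊥) :
    ∃ (s : ℕ) (y : Fin s → Xi), ⨅ j, V (y j) = ⊥ := by
  classical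
  have hex : ∃ n : ℕ, ∃ F : Finset Xi, Module.finrank ℝ (F.inf V : Submodule ℝ (ι → ℝ)) = n :=
    ⟨_, ∅, rfl⟩
  obtain ⟨F, hF⟩ := Nat.find_spec hex
  have hle : F.inf V ≤ ⨅ x, V x := by
    refine le_iInf fun x => ?_
    have h1 : (insert x F).inf V ≤ F.inf V := Finset.inf_mono (Finset.subset_insert x F)
    have h2 : Module.finrank ℝ (F.inf V : Submodule ℝ (ι → ℝ)) ≤
        Module.finrank ℝ ((insert x F).inf V : Submodule ℝ (ι → ℝ)) := by
      rw [hF]
      exact Nat.find_min' hex ⟨_, rfl⟩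
    have h3 := Submodule.eq_of_le_of_finrank_le h1 h2
    rw [← h3]
    exact Finset.inf_le (Finset.mem_insert_self x F)
  refine ⟨F.card, fun j => (F.equivFin.symm j : Xi), ?_⟩
  rw [eq_bot_iff]
  refine le_trans ?_ (hle.trans h.le)
  refine Finset.le_inf fun x hx => ?_
  have h4 := iInf_le (fun j => V ((F.equivFin.symm j : F) : Xi)) (F.equivFin ⟨x, hx⟩)
  rw [Equiv.symm_apply_apply] at h4
  exact h4

/-- The Gram matrix `Γ_{αα'} = ∫ ∑_j d_{αj} d_{α'j}` is symmetric and `v Γ v = ∫ ∑_j (∑_α v_α d_{αj})^2 > 0` for `v ≠ 0`, so it is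
invertible; `e_{αj} = ∑_β (Γ⁻¹)_{αβ} d_{βj}`, then `∫ ∑_j d_{αj} e_{α'j} = ∑_β (Γ⁻¹)_{α'β} Γ_{αβ} = δ`. -/
theorem gram_dual {G ι : Type} [MeasurableSpace G] (μ : Measure G) [IsProbabilityMeasure μ] [Fintype ι] [DecidableEq ι]
    {s : ℕ} (d : ι → Fin s → G → ℝ) (hd : ∀ α j, Measurable (d α j)) (B : ℝ) (hB : ∀ α j g, |d α j g| ≤ B)
    (hpos : ∀ v : ι → ℝ, v ≠ 0 → 0 < ∫ g, ∑ j, (∑ α, v α * d α j g) ^ 2 ∂μ) :
    ∃ e : ι → Fin s → G → ℝ, (∀ α j, Measurable (e α j)) ∧ (∃ B' : ℝ, ∀ α j g, |e α j g| ≤ B') ∧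
      ∀ α α', ∫ g, ∑ j, d α j g * e α' j g ∂μ = if α = α' then 1 else 0 := by
  obtain ⟨Γ, hΓ⟩ : ∃ Γ : Matrix ι ι ℝ, ∀ α β, Γ α β = ∫ g, ∑ j, d α j g * d β j g ∂μ :=
    ⟨fun α β => ∫ g, ∑ j, d α j g * d β j g ∂μ, fun _ _ => rfl⟩
  have hint : ∀ α β, Integrable (fun g => ∑ j, d α j g * d β j g) μ := by
    intro α β
    refine integrable_finsetSum _ fun j _ => ?_
    refine Integrable.of_bound ((hd α j).mul (hd β j)).aestronglyMeasurable (B * B)
      (Filter.Eventually.of_forall fun g => ?_)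
    rw [Real.norm_eq_abs, abs_mul]
    exact mul_le_mul (hB α j g) (hB β j g) (abs_nonneg _) ((abs_nonneg _).trans (hB α j g))
  have hsym : ∀ α β, Γ α β = Γ β α := by
    intro α β
    rw [hΓ, hΓ]
    refine integral_congr_ae (Filter.Eventually.of_forall fun g => ?_)
    exact Finset.sum_congr rfl fun j _ => mul_comm _ _
  have hlin : ∀ (w : ι → ℝ) (α : ι), ∫ g, ∑ j, d α j g * (∑ β, w β * d β j g) ∂μ =
      ∑ β, w β * Γ α β := by
    intro w α
    have e1 : (fun g => ∑ j, d α j g * (∑ β, w β * d β j g)) =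
        fun g => ∑ β, w β * (∑ j, d α j g * d β j g) := by
      funext g
      simp only [Finset.mul_sum]
      rw [Finset.sum_comm]
      refine Finset.sum_congr rfl fun β _ => Finset.sum_congr rfl fun j _ => ?_
      ring
    rw [e1, integral_finsetSum _ fun β _ => (hint α β).const_mul (w β)]
    refine Finset.sum_congr rfl fun β _ => ?_
    rw [integral_const_mul, hΓ]
  have hlint : ∀ (w : ι → ℝ) (α : ι), Integrable (fun g => ∑ j, d α j g * (∑ β, w β * d β j g)) μ := by
    intro w α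
    have e1 : (fun g => ∑ j, d α j g * (∑ β, w β * d β j g)) =
        fun g => ∑ β, w β * (∑ j, d α j g * d β j g) := by
      funext g
      simp only [Finset.mul_sum]
      rw [Finset.sum_comm]
      refine Finset.sum_congr rfl fun β _ => Finset.sum_congr rfl fun j _ => ?_
      ring
    rw [e1]
    exact integrable_finsetSum _ fun β _ => (hint α β).const_mul (w β)
  have hquad : ∀ v : ι → ℝ, ∫ g, ∑ j, (∑ α, v α * d α j g) ^ 2 ∂μ =
      ∑ α, v α * ∑ β, v β * Γ α β := by
    intro v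
    have e1 : (fun g => ∑ j, (∑ α, v α * d α j g) ^ 2) =
        fun g => ∑ α, v α * (∑ j, d α j g * (∑ β, v β * d β j g)) := by
      funext g
      have e2 : ∀ j, (∑ α, v α * d α j g) ^ 2 = ∑ α, v α * (d α j g * (∑ β, v β * d β j g)) := by
        intro j
        rw [sq, Finset.sum_mul]
        refine Finset.sum_congr rfl fun α _ => ?_
        ring
      rw [Finset.sum_congr rfl fun j _ => e2 j, Finset.sum_comm]
      refine Finset.sum_congr rfl fun α _ => ?_
      rw [Finset.mul_sum]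
    rw [e1, integral_finsetSum _ fun α _ => (hlint v α).const_mul (v α)]
    refine Finset.sum_congr rfl fun α _ => ?_
    rw [integral_const_mul, hlin]
  have hunit : IsUnit Γ := by
    rw [← Matrix.mulVec_injective_iff_isUnit]
    have hker : ∀ v, Γ.mulVec v = 0 → v = 0 := by
      intro v hv
      by_contra hne
      have h1 := hpos v hne
      rw [hquad] at h1
      have h2 : ∀ α, ∑ β, v β * Γ α β = 0 := by
        intro α
        have h3 := congrFun hv α
        simp only [Matrix.mulVec, dotProduct, Pi.zero_apply] at h3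
        rw [← h3]
        exact Finset.sum_congr rfl fun β _ => mul_comm _ _
      simp only [h2, mul_zero, Finset.sum_const_zero] at h1
      exact lt_irrefl _ h1
    intro v w hvw
    have h1 : Γ.mulVec (v - w) = 0 := by
      rw [Matrix.mulVec_sub]
      exact sub_eq_zero.2 hvw
    exact sub_eq_zero.1 (hker _ h1)
  have hdet : IsUnit Γ.det := (Matrix.isUnit_iff_isUnit_det Γ).1 hunit
  refine ⟨fun α j g => ∑ β, Γ⁻¹ α β * d β j g, ?_, ?_, ?_⟩
  · intro α j
    exact Finset.measurable_sum _ fun β _ => (hd β j).const_mul _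
  · refine ⟨∑ α, ∑ β, |Γ⁻¹ α β| * |B|, fun α j g => ?_⟩
    have h1 : |∑ β, Γ⁻¹ α β * d β j g| ≤ ∑ β, |Γ⁻¹ α β| * |B| := by
      refine (Finset.abs_sum_le_sum_abs _ _).trans (Finset.sum_le_sum fun β _ => ?_)
      rw [abs_mul]
      exact mul_le_mul_of_nonneg_left ((hB β j g).trans (le_abs_self B)) (abs_nonneg _)
    refine h1.trans ?_
    exact Finset.single_le_sum (f := fun α => ∑ β, |Γ⁻¹ α β| * |B|)
      (fun α _ => Finset.sum_nonneg fun β _ => by positivity) (Finset.mem_univ α)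
  · intro α α'
    show ∫ g, ∑ j, d α j g * (∑ β, Γ⁻¹ α' β * d β j g) ∂μ = _
    rw [hlin]
    have h1 := congrFun (congrFun (Matrix.nonsing_inv_mul Γ hdet) α') α
    rw [Matrix.mul_apply, Matrix.one_apply] at h1
    have h2 : ∑ β, Γ⁻¹ α' β * Γ α β = ∑ β, Γ⁻¹ α' β * Γ β α :=
      Finset.sum_congr rfl fun β _ => by rw [hsym α β]
    rw [h2, h1]
    by_cases h3 : α = α'
    · rw [if_pos h3, if_pos h3.symm]
    · rw [if_neg h3, if_neg (Ne.symm h3)]


end Pool.Agent.H497.TT
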