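import Mathlib

set_option autoImplicit false

namespace Pool.Agent.H497.TT

open MeasureTheory


/-- `φ(t) = ∑ v_α Re(z_α tr(ρ_α(g x(t))))`, `ρ_α(g x(t)) = ρ_α(g) exp(t X_α)` has derivative
`∑ v_α Re(z_α tr(ρ_α(g) exp(t X_α) X_α)) = ∑ v_α Re(z_α tr(ρ_α(g x(t)) X_α)) = 0` (`hv` at `g x(t)`), so it is constant;
`x 0 = 1`. (For the derivative of the exponential use a normed algebra structure on matrices as a local instance, for
instance `Matrix.linftyOpNormedRing`, `Matrix.linftyOpNormedAlgebra`.) -/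
theorem inv_of_deriv {G : Type} [Group G] [TopologicalSpace G] {ι : Type} [Fintype ι] (n : ι → ℕ)
    (ρ : (α : ι) → G →* Matrix.unitaryGroup (Fin (n α)) ℂ) (z : ι → ℂ) (x : ℝ → G)
    (hadd : ∀ s t, x (s + t) = x s * x t) (X : (α : ι) → Matrix (Fin (n α)) (Fin (n α)) ℂ)
    (hX : ∀ α (t : ℝ), (ρ α (x t) : Matrix (Fin (n α)) (Fin (n α)) ℂ) = NormedSpace.exp (t • X α)) (v : ι → ℝ)
    (hv : ∀ g, ∑ α, v α * (z α * ((ρ α g : Matrix (Fin (n α)) (Fin (n α)) ℂ) * X α).trace).re = 0) (g : G) (t : ℝ) :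
    ∑ α, v α * (z α * (ρ α (g * x t) : Matrix (Fin (n α)) (Fin (n α)) ℂ).trace).re =
      ∑ α, v α * (z α * (ρ α g : Matrix (Fin (n α)) (Fin (n α)) ℂ).trace).re := by
  have h0 : x 0 = 1 := by
    have h := hadd 0 0
    rw [add_zero] at h
    exact (left_eq_mul.mp h)
  -- the derivative of the one-parameter group
  have hder : ∀ (α : ι) (s : ℝ) (A : Matrix (Fin (n α)) (Fin (n α)) ℂ),
      HasDerivAt (fun u : ℝ => (z α * (A * NormedSpace.exp (u • X α)).trace).re)
        ((z α * (A * (NormedSpace.exp (s • X α) * X α)).trace).re) s := by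
    intro α s A
    letI i1 : NormedRing (Matrix (Fin (n α)) (Fin (n α)) ℂ) := Matrix.linftyOpNormedRing
    letI i2 : NormedAlgebra ℝ (Matrix (Fin (n α)) (Fin (n α)) ℂ) := Matrix.linftyOpNormedAlgebra
    have h1 : HasDerivAt (fun u : ℝ => NormedSpace.exp (u • X α))
        (NormedSpace.exp (s • X α) * X α) s := hasDerivAt_exp_smul_const (X α) s
    let L : Matrix (Fin (n α)) (Fin (n α)) ℂ →ₗ[ℝ] ℝ :=
      { toFun := fun M => (z α * (A * M).trace).re
        map_add' := by
          intro M N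
          simp [Matrix.mul_add, Matrix.trace_add, mul_add]
        map_smul' := by
          intro c M
          have e : (A * (c • M)).trace = (c : ℂ) * (A * M).trace := by
            rw [Matrix.mul_smul, Matrix.trace_smul]
            exact Complex.real_smul
          simp only [e, RingHom.id_apply, smul_eq_mul]
          have e2 : z α * ((c : ℂ) * (A * M).trace) = (c : ℂ) * (z α * (A * M).trace) := by ring
          rw [e2, Complex.re_ofReal_mul] }
    have h2 := (LinearMap.toContinuousLinearMap L).hasFDerivAt.comp_hasDerivAt s h1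
    exact h2
  set φ : ℝ → ℝ := fun s => ∑ α, v α * (z α * ((ρ α g : Matrix (Fin (n α)) (Fin (n α)) ℂ)
    * NormedSpace.exp (s • X α)).trace).re with hφ
  have hφd : ∀ s : ℝ, HasDerivAt φ 0 s := by
    intro s
    have h1 : HasDerivAt φ (∑ α, v α * (z α * ((ρ α g : Matrix (Fin (n α)) (Fin (n α)) ℂ)
        * (NormedSpace.exp (s • X α) * X α)).trace).re) s := by
      have := HasDerivAt.fun_sum (u := (Finset.univ : Finset ι)) (x := s)
        (A := fun α u => v α * (z α * ((ρ α g : Matrix (Fin (n α)) (Fin (n α)) ℂ)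
          * NormedSpace.exp (u • X α)).trace).re)
        (A' := fun α => v α * (z α * ((ρ α g : Matrix (Fin (n α)) (Fin (n α)) ℂ)
          * (NormedSpace.exp (s • X α) * X α)).trace).re)
        (fun α _ => (hder α s _).const_mul (v α))
      exact this
    have h2 : ∑ α, v α * (z α * ((ρ α g : Matrix (Fin (n α)) (Fin (n α)) ℂ)
        * (NormedSpace.exp (s • X α) * X α)).trace).re = 0 := by
      rw [← hv (g * x s)]
      refine Finset.sum_congr rfl fun α _ => ?_
      rw [map_mul, Matrix.UnitaryGroup.mul_val, hX α s, Matrix.mul_assoc]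
    rw [h2] at h1
    exact h1
  have hconst : φ t = φ 0 :=
    is_const_of_deriv_eq_zero (fun s => (hφd s).differentiableAt) (fun s => (hφd s).deriv) t 0
  have e1 : ∑ α, v α * (z α * (ρ α (g * x t) : Matrix (Fin (n α)) (Fin (n α)) ℂ).trace).re = φ t := by
    refine Finset.sum_congr rfl fun α _ => ?_
    rw [map_mul, Matrix.UnitaryGroup.mul_val, hX α t]
  have e2 : ∑ α, v α * (z α * (ρ α g : Matrix (Fin (n α)) (Fin (n α)) ℂ).trace).re = φ 0 := by
    refine Finset.sum_congr rfl fun α _ => ?_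
    rw [← hX α 0, h0, map_one]
    simp
  rw [e1, e2, hconst]



end Pool.Agent.H497.TT
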