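import Pool.Agent.H497.TT.RDefs

set_option autoImplicit false

namespace Pool.Agent.H497.TT

open MeasureTheory


/-- A `C^2` function on the unit ball of a finite-dimensional space. -/
theorem smooth_lip_gen {V : Type*} [NormedAddCommGroup V] [NormedSpace ℝ V] [ProperSpace V]
    (E : V → ℂ) (hE : ContDiff ℝ 2 E) :
    ∃ B : ℝ, 0 ≤ B ∧ ∀ t t' : V, ‖t‖ ≤ 1 → ‖t'‖ ≤ 1 →
      ‖E t - E t' - fderiv ℝ E 0 (t - t')‖ ≤ B * max ‖t‖ ‖t'‖ * ‖t - t'‖ := by
  have hf : ContDiff ℝ 1 (fderiv ℝ E) := hE.fderiv_right (by norm_num)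
  have hg := hf.continuous_fderiv (by norm_num)
  obtain ⟨B, hB⟩ := IsCompact.exists_bound_of_continuousOn (E := V →L[ℝ] V →L[ℝ] ℂ)
    (isCompact_closedBall (0 : V) 1) hg.continuousOn
  have hB0 : 0 ≤ B := (norm_nonneg _).trans (hB 0 (Metric.mem_closedBall_self (by norm_num)))
  refine ⟨B, hB0, ?_⟩
  intro t t' ht ht'
  set r := max ‖t‖ ‖t'‖ with hr
  have hr1 : r ≤ 1 := max_le ht ht'
  have h1 : ∀ x ∈ Metric.closedBall (0 : V) r, ‖fderiv ℝ E x - fderiv ℝ E 0‖ ≤ B * r := by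
    intro x hx
    have hx' : ‖x‖ ≤ r := by simpa using hx
    have h2 := (convex_closedBall (0 : V) 1).norm_image_sub_le_of_norm_fderiv_le
      (𝕜 := ℝ) (f := fderiv ℝ E) (C := B) (fun y _ => (hf.differentiable (by norm_num)) y)
      (fun y hy => hB y hy) (Metric.mem_closedBall_self (by norm_num))
      (show x ∈ Metric.closedBall (0 : V) 1 by
        simpa using hx'.trans hr1)
    rw [sub_zero] at h2
    exact h2.trans (mul_le_mul_of_nonneg_left hx' hB0)
  have h3 := (convex_closedBall (0 : V) r).norm_image_sub_le_of_norm_fderiv_le'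
    (𝕜 := ℝ) (f := E) (C := B * r) (φ := fderiv ℝ E 0)
    (fun y _ => (hE.differentiable (by norm_num)) y) h1
    (show t' ∈ Metric.closedBall (0 : V) r from mem_closedBall_zero_iff.2 (le_max_right _ _))
    (show t ∈ Metric.closedBall (0 : V) r from mem_closedBall_zero_iff.2 (le_max_left _ _))
  exact h3

/-- A `C^2` function on the unit ball of a finite-dimensional space. -/
theorem smooth_lip {s : ℕ} (E : (Fin s → ℝ) → ℂ) (hE : ContDiff ℝ 2 E) :
    ∃ B : ℝ, 0 ≤ B ∧ ∀ t t' : Fin s → ℝ, ‖t‖ ≤ 1 → ‖t'‖ ≤ 1 →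
      ‖E t - E t' - fderiv ℝ E 0 (t - t')‖ ≤ B * max ‖t‖ ‖t'‖ * ‖t - t'‖ :=
  smooth_lip_gen E hE

section mat

open scoped Matrix.Norms.Operator

lemma eprod_zero {n : ℕ} (X : Fin 0 → Matrix (Fin n) (Fin n) ℂ) (t : Fin 0 → ℝ) :
    eprod X t = 1 := by
  simp [eprod]

lemma eprod_succ {s n : ℕ} (X : Fin (s + 1) → Matrix (Fin n) (Fin n) ℂ) (t : Fin (s + 1) → ℝ) :
    eprod X t = NormedSpace.exp (t 0 • X 0) * eprod (fun j => X j.succ) (fun j => t j.succ) := by
  simp [eprod, List.ofFn_succ]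

lemma exp_contDiff {n : ℕ} :
    ContDiff ℝ 2 (NormedSpace.exp : Matrix (Fin n) (Fin n) ℂ → Matrix (Fin n) (Fin n) ℂ) := by
  rw [contDiff_iff_contDiffAt]
  intro x
  exact (NormedSpace.exp_analytic (𝕂 := ℝ) x).contDiffAt

lemma eprod_contDiff {s n : ℕ} (X : Fin s → Matrix (Fin n) (Fin n) ℂ) :
    ContDiff ℝ 2 (fun t => eprod X t) := by
  induction s with
  | zero =>
    simp only [eprod_zero]
    exact contDiff_const
  | succ s ih =>
    simp only [eprod_succ]
    refine ContDiff.mul ?_ ?_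
    · refine exp_contDiff.comp ?_
      exact (contDiff_apply ℝ ℝ (0 : Fin (s + 1))).smul contDiff_const
    · refine (ih (fun j => X j.succ)).comp ?_
      rw [contDiff_pi]
      intro j
      exact contDiff_apply ℝ ℝ j.succ

lemma eprod_hasDerivAt {s n : ℕ} (X : Fin s → Matrix (Fin n) (Fin n) ℂ) (v : Fin s → ℝ) :
    HasDerivAt (fun τ : ℝ => eprod X (τ • v)) (∑ j, v j • X j) 0 := by
  induction s with
  | zero =>
    simp only [eprod_zero, Finset.univ_eq_empty, Finset.sum_empty]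
    exact hasDerivAt_const _ _
  | succ s ih =>
    simp only [eprod_succ]
    have h1 : HasDerivAt (fun τ : ℝ => NormedSpace.exp ((τ • v) 0 • X 0)) (v 0 • X 0) 0 := by
      have h2 := hasDerivAt_exp_smul_const (𝕂 := ℝ) (v 0 • X 0) (0 : ℝ)
      rw [zero_smul, NormedSpace.exp_zero, one_mul] at h2
      refine h2.congr_of_eventuallyEq ?_
      filter_upwards with τ
      rw [Pi.smul_apply, smul_eq_mul, mul_smul]
      rfl
    have h2 := ih (fun j => X j.succ) (fun j => v j.succ)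
    have h3 := h1.mul h2
    rw [Fin.sum_univ_succ]
    refine HasDerivAt.congr_deriv h3 ?_
    have h4 : eprod (fun j => X j.succ) ((0 : ℝ) • fun j : Fin s => v j.succ) = 1 := by
      have h5 : ∀ (m : ℕ) (Y : Fin m → Matrix (Fin n) (Fin n) ℂ) (w : Fin m → ℝ),
          eprod Y ((0 : ℝ) • w) = 1 := by
        intro m
        induction m with
        | zero => intro Y w; exact eprod_zero _ _
        | succ m ih2 =>
          intro Y w
          rw [eprod_succ]
          have h6 := ih2 (fun j => Y j.succ) (fun j => w j.succ)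
          have h7 : (fun j : Fin m => ((0 : ℝ) • w) j.succ) = (0 : ℝ) • fun j : Fin m => w j.succ := rfl
          rw [h7, h6, mul_one]
          simp
      exact h5 _ _ _
    rw [h4]
    simp

end mat

/-- the entry as a continuous linear map -/
noncomputable def entry {n : ℕ} (a b : Fin n) : Matrix (Fin n) (Fin n) ℂ →ₗ[ℝ] ℂ where
  toFun M := M a b
  map_add' _ _ := rfl
  map_smul' _ _ := rfl

section mat2

open scoped Matrix.Norms.Operator

/-- The entries of `eprod X t` are smooth functions of `t`. -/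
theorem eprod_smooth {s n : ℕ} (X : Fin s → Matrix (Fin n) (Fin n) ℂ) (a b : Fin n) :
    ContDiff ℝ 2 (fun t => eprod X t a b) := by
  have h1 := (LinearMap.toContinuousLinearMap (entry a b)).contDiff (n := 2)
  exact h1.comp (eprod_contDiff X)

/-- the derivative at `0`: along the `i`-th coordinate axis `eprod X (t e_i) = exp(t X_i)` -/
theorem eprod_deriv {s n : ℕ} (X : Fin s → Matrix (Fin n) (Fin n) ℂ) (a b : Fin n) (v : Fin s → ℝ) :
    fderiv ℝ (fun t => eprod X t a b) 0 v = ∑ j, (v j : ℂ) * X j a b := by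
  have h1 : HasFDerivAt (fun t => eprod X t a b) (fderiv ℝ (fun t => eprod X t a b) 0)
      ((0 : ℝ) • v) := by
    rw [zero_smul]
    exact ((eprod_smooth X a b).differentiable (by norm_num) 0).hasFDerivAt
  have h2 : HasDerivAt (fun τ : ℝ => τ • v) v 0 := by
    have h := (hasDerivAt_id (0 : ℝ)).smul_const v
    rw [one_smul] at h
    exact h
  have h3 := h1.comp_hasDerivAt (0 : ℝ) h2
  have h4 := ((LinearMap.toContinuousLinearMap (entry a b)).hasFDerivAt
    (x := eprod X ((0 : ℝ) • v))).comp_hasDerivAt (0 : ℝ) (eprod_hasDerivAt X v)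
  have h5 := h3.unique h4
  rw [h5]
  change entry a b (∑ j, v j • X j) = _
  rw [map_sum]
  refine Finset.sum_congr rfl fun j _ => ?_
  change (v j • X j) a b = _
  rw [Matrix.smul_apply, Complex.real_smul]

end mat2

/-- apply `smooth_lip` to the entries and sum over `a, b`: `tr(U E) = ∑ U_{ab} E_{ba}` -/
theorem trace_lip {s n : ℕ} (X : Fin s → Matrix (Fin n) (Fin n) ℂ) :
    ∃ B : ℝ, 0 ≤ B ∧ ∀ U : Matrix (Fin n) (Fin n) ℂ, (∀ a b, ‖U a b‖ ≤ 1) → ∀ t t' : Fin s → ℝ, ‖t‖ ≤ 1 → ‖t'‖ ≤ 1 →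
      ‖(U * eprod X t).trace - (U * eprod X t').trace - ∑ j, ((t j - t' j : ℝ) : ℂ) * (U * X j).trace‖ ≤
        B * max ‖t‖ ‖t'‖ * ‖t - t'‖ := by
  choose B hB0 hB using fun p : Fin n × Fin n =>
    smooth_lip (fun t => eprod X t p.1 p.2) (eprod_smooth X p.1 p.2)
  refine ⟨∑ a, ∑ b, B (b, a), Finset.sum_nonneg fun a _ => Finset.sum_nonneg fun b _ => hB0 _, ?_⟩
  intro U hU t t' ht ht'
  have h1 : (U * eprod X t).trace - (U * eprod X t').trace -
      ∑ j, ((t j - t' j : ℝ) : ℂ) * (U * X j).trace =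
      ∑ a, ∑ b, U a b * (eprod X t b a - eprod X t' b a -
        ∑ j, ((t j - t' j : ℝ) : ℂ) * X j b a) := by
    simp only [Matrix.trace, Matrix.diag_apply, Matrix.mul_apply, mul_sub, Finset.sum_sub_distrib]
    congr 1
    simp only [Finset.mul_sum]
    rw [Finset.sum_comm]
    refine Finset.sum_congr rfl fun a _ => ?_
    rw [Finset.sum_comm]
    refine Finset.sum_congr rfl fun b _ => ?_
    refine Finset.sum_congr rfl fun j _ => ?_
    ring
  rw [h1]
  have h2 : ∀ a b, ‖U a b * (eprod X t b a - eprod X t' b a -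
        ∑ j, ((t j - t' j : ℝ) : ℂ) * X j b a)‖ ≤ B (b, a) * (max ‖t‖ ‖t'‖ * ‖t - t'‖) := by
    intro a b
    rw [norm_mul]
    have h3 := hB (b, a) t t' ht ht'
    simp only at h3
    rw [eprod_deriv] at h3
    simp only [Pi.sub_apply] at h3
    calc ‖U a b‖ * ‖eprod X t b a - eprod X t' b a - ∑ j, ((t j - t' j : ℝ) : ℂ) * X j b a‖
        ≤ 1 * (B (b, a) * max ‖t‖ ‖t'‖ * ‖t - t'‖) :=
          mul_le_mul (hU a b) h3 (norm_nonneg _) zero_le_one
      _ = B (b, a) * (max ‖t‖ ‖t'‖ * ‖t - t'‖) := by ring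
  calc ‖∑ a, ∑ b, U a b * (eprod X t b a - eprod X t' b a -
        ∑ j, ((t j - t' j : ℝ) : ℂ) * X j b a)‖
      ≤ ∑ a, ∑ b, B (b, a) * (max ‖t‖ ‖t'‖ * ‖t - t'‖) := by
        refine (norm_sum_le _ _).trans (Finset.sum_le_sum fun a _ => ?_)
        exact (norm_sum_le _ _).trans (Finset.sum_le_sum fun b _ => h2 a b)
    _ = (∑ a, ∑ b, B (b, a)) * max ‖t‖ ‖t'‖ * ‖t - t'‖ := by
        simp only [Finset.sum_mul]
        refine Finset.sum_congr rfl fun a _ => Finset.sum_congr rfl fun b _ => ?_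
        ring


end Pool.Agent.H497.TT
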