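import Mathlib

set_option autoImplicit false

namespace Pool.Agent.H497.TT

open MeasureTheory

namespace OneP

section banach

variable {A : Type*} [NormedRing A] [NormedAlgebra ℝ A] [CompleteSpace A]

theorem one_param_banach (U : ℝ → A) (hU : Continuous U) (h0 : U 0 = 1)
    (hadd : ∀ s t, U (s + t) = U s * U t) :
    ∃ X : A, ∀ t : ℝ, U t = NormedSpace.exp (t • X) := by
  -- a small interval
  obtain ⟨a, ha, hball⟩ : ∃ a : ℝ, 0 < a ∧ ∀ s ∈ Set.uIoc (0 : ℝ) a, ‖U s - 1‖ ≤ 1 / 2 := by
    have hc : ContinuousAt (fun s => ‖U s - 1‖) 0 := (hU.sub continuous_const).norm.continuousAt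
    have h1 : ∀ᶠ s in nhds (0 : ℝ), ‖U s - 1‖ < 1 / 2 := by
      apply hc.eventually_lt continuousAt_const
      simp [h0]
    rw [Metric.eventually_nhds_iff] at h1
    obtain ⟨e, he, h2⟩ := h1
    refine ⟨e / 2, by positivity, ?_⟩
    intro s hs
    rw [Set.uIoc_of_le (by positivity)] at hs
    apply le_of_lt
    apply h2
    rw [Real.dist_eq, sub_zero, abs_of_pos hs.1]
    linarith [hs.2]
  set M : A := ∫ s in (0 : ℝ)..a, U s with hM
  have hii : ∀ b c : ℝ, IntervalIntegrable U volume b c := fun b c => hU.intervalIntegrable b c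
  have hE : ‖(∫ s in (0 : ℝ)..a, (U s - 1))‖ ≤ 1 / 2 * |a - 0| :=
    intervalIntegral.norm_integral_le_of_norm_le_const hball
  have hE' : (∫ s in (0 : ℝ)..a, (U s - 1)) = M - a • (1 : A) := by
    rw [intervalIntegral.integral_sub (hii 0 a) intervalIntegrable_const,
      intervalIntegral.integral_const, sub_zero]
  rw [hE', sub_zero, abs_of_pos ha] at hE
  have hunit : IsUnit M := by
    have h1 : ‖(1 : A) - a⁻¹ • M‖ < 1 := by
      have h2 : (1 : A) - a⁻¹ • M = -(a⁻¹ • (M - a • (1 : A))) := by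
        rw [smul_sub, smul_smul, inv_mul_cancel₀ ha.ne', one_smul]
        abel
      rw [h2, norm_neg, norm_smul, norm_inv, Real.norm_eq_abs, abs_of_pos ha]
      calc a⁻¹ * ‖M - a • (1 : A)‖ ≤ a⁻¹ * (1 / 2 * a) := by gcongr
        _ = 1 / 2 := by field_simp
        _ < 1 := by norm_num
    have h3 : IsUnit (a⁻¹ • M) := by
      have := isUnit_one_sub_of_norm_lt_one h1
      rwa [sub_sub_cancel] at this
    have h4 : M = a • (a⁻¹ • M) := by rw [smul_smul, mul_inv_cancel₀ ha.ne', one_smul]
    rw [h4]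
    have h5 : a • (a⁻¹ • M) = algebraMap ℝ A a * (a⁻¹ • M) := Algebra.smul_def _ _
    rw [h5]
    exact ((isUnit_iff_ne_zero.mpr ha.ne').map (algebraMap ℝ A)).mul h3
  obtain ⟨Mu, hMu⟩ := hunit
  -- the formula for `U t * M`
  have hF : ∀ t, U t * M = (∫ s in (0 : ℝ)..(t + a), U s) - ∫ s in (0 : ℝ)..t, U s := by
    intro t
    rw [intervalIntegral.integral_interval_sub_left (hii _ _) (hii _ _), hM]
    have h1 : U t * ∫ s in (0 : ℝ)..a, U s = ∫ s in (0 : ℝ)..a, U t * U s :=
      ((ContinuousLinearMap.mul ℝ A (U t)).intervalIntegral_comp_comm (hii 0 a)).symm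
    rw [h1]
    have h2 : ∀ s, U t * U s = U (t + s) := fun s => (hadd t s).symm
    simp only [h2]
    rw [intervalIntegral.integral_comp_add_left (fun s => U s) t, add_zero]
  have hder : ∀ t, HasDerivAt (fun t => U t * M) (U (t + a) - U t) t := by
    intro t
    have h1 : HasDerivAt (fun t => ∫ s in (0 : ℝ)..t, U s) (U t) t :=
      intervalIntegral.integral_hasDerivAt_right (hii _ _)
        (hU.stronglyMeasurableAtFilter _ _) hU.continuousAt
    have h2 : HasDerivAt (fun t => ∫ s in (0 : ℝ)..(t + a), U s) (U (t + a)) t := by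
      have h3 : HasDerivAt (fun t => ∫ s in (0 : ℝ)..t, U s) (U (t + a)) (t + a) :=
        intervalIntegral.integral_hasDerivAt_right (hii _ _)
          (hU.stronglyMeasurableAtFilter _ _) hU.continuousAt
      exact h3.comp_add_const t a
    have h4 := h2.sub h1
    refine h4.congr_of_eventuallyEq (Filter.Eventually.of_forall ?_)
    intro t
    exact hF t
  set X : A := (U a - 1) * ((Mu⁻¹ : Aˣ) : A) with hX
  have hder2 : ∀ t, HasDerivAt U (U t * X) t := by
    intro t
    have h1 := (hder t).mul_const ((Mu⁻¹ : Aˣ) : A)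
    have h2 : (fun t => U t * M * ((Mu⁻¹ : Aˣ) : A)) = U := by
      funext t
      rw [← hMu, mul_assoc, Units.mul_inv, mul_one]
    rw [h2] at h1
    have h3 : (U (t + a) - U t) * ((Mu⁻¹ : Aˣ) : A) = U t * X := by
      rw [hX, hadd, ← mul_assoc, mul_sub, mul_one]
    rwa [h3] at h1
  refine ⟨X, ?_⟩
  have hG : ∀ t, HasDerivAt (fun t => U t * NormedSpace.exp (t • (-X))) 0 t := by
    intro t
    have h1 := hasDerivAt_exp_smul_const' (𝕂 := ℝ) (-X) t
    have h2 := (hder2 t).mul h1
    have h3 : U t * X * NormedSpace.exp (t • (-X)) + U t * (-X * NormedSpace.exp (t • (-X))) = 0 := by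
      rw [neg_mul, mul_neg, mul_assoc, add_neg_cancel]
    rw [h3] at h2
    exact h2
  have hconst : ∀ t, U t * NormedSpace.exp (t • (-X)) = 1 := by
    intro t
    have h1 := is_const_of_deriv_eq_zero (f := fun t => U t * NormedSpace.exp (t • (-X)))
      (fun t => (hG t).differentiableAt) (fun t => (hG t).deriv) t 0
    simp only [zero_smul, NormedSpace.exp_zero, mul_one, h0] at h1
    exact h1
  intro t
  have h1 : NormedSpace.exp (t • (-X)) * NormedSpace.exp (t • X) = 1 := by
    rw [← NormedSpace.exp_add_of_commute_of_mem_ball (𝕂 := ℝ)]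
    · rw [smul_neg, neg_add_cancel, NormedSpace.exp_zero]
    · rw [smul_neg]
      exact (Commute.refl _).neg_left
    · exact (NormedSpace.expSeries_radius_eq_top ℝ A).symm ▸ edist_lt_top _ _
    · exact (NormedSpace.expSeries_radius_eq_top ℝ A).symm ▸ edist_lt_top _ _
  calc U t = U t * (NormedSpace.exp (t • (-X)) * NormedSpace.exp (t • X)) := by rw [h1, mul_one]
    _ = NormedSpace.exp (t • X) := by rw [← mul_assoc, hconst, one_mul]

end banach

end OneP

/-- A continuous one-parameter group of matrices is `exp(t X)`. Let `M = ∫_0^a U(s) ds`; as `a → 0+`, `M / a → U 0 = 1`, so `M`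
is invertible for some `a > 0`. `U t * M = ∫_t^(t+a) U(s) ds` is differentiable in `t`, so `U` is; `U' t = U t * X` with
`X = U' 0` (differentiate `U (t + h) = U t * U h` at `h = 0`), and `t ↦ U t * exp(-t X)` has derivative zero, so it is
constant `1`. (Use a normed algebra structure on matrices as a local instance, for instance
`Matrix.linftyOpNormedRing`, `Matrix.linftyOpNormedAlgebra`; or work in `(Fin n → ℂ) →L[ℂ] (Fin n → ℂ)`. The topology
is the same.) -/
theorem one_param {n : ℕ} (U : ℝ → Matrix (Fin n) (Fin n) ℂ) (hU : Continuous U) (h0 : U 0 = 1)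
    (hadd : ∀ s t, U (s + t) = U s * U t) : ∃ X : Matrix (Fin n) (Fin n) ℂ, ∀ t : ℝ, U t = NormedSpace.exp (t • X) := by
  let _ : NormedRing (Matrix (Fin n) (Fin n) ℂ) := Matrix.linftyOpNormedRing
  let _ : NormedAlgebra ℝ (Matrix (Fin n) (Fin n) ℂ) := Matrix.linftyOpNormedAlgebra
  exact OneP.one_param_banach U hU h0 hadd


end Pool.Agent.H497.TT
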