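import Pool.Agent.H497.TT.Defs
import Pool.Agent.H497.TT.Lip
import Pool.Agent.H497.TT.OneP
import Pool.Agent.H497.TT.Frame
import Pool.Agent.H497.TT.Inv

set_option autoImplicit false



namespace Pool.Agent.H497.TT

open MeasureTheory


/-! ### auxiliary -/

/-- the continuous one-parameter subgroups -/
def OPS (G : Type) [Group G] [TopologicalSpace G] : Type :=
  {x : ℝ → G // Continuous x ∧ ∀ s t, x (s + t) = x s * x t}

theorem ops_zero {G : Type} [Group G] {x : ℝ → G} (h : ∀ s t, x (s + t) = x s * x t) : x 0 = 1 := by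
  have h1 := h 0 0
  rw [add_zero] at h1
  exact (mul_eq_left.mp h1.symm)

/-- the representation with values in matrices -/
noncomputable def mrep {G : Type} [Group G] {n : ℕ} (ρ : G →* Matrix.unitaryGroup (Fin n) ℂ) :
    G →* Matrix (Fin n) (Fin n) ℂ := (Submonoid.subtype _).comp ρ

theorem mrep_apply {G : Type} [Group G] {n : ℕ} (ρ : G →* Matrix.unitaryGroup (Fin n) ℂ) (g : G) :
    mrep ρ g = (ρ g : Matrix (Fin n) (Fin n) ℂ) := rfl

theorem mrep_cont {G : Type} [Group G] [TopologicalSpace G] {n : ℕ}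
    {ρ : G →* Matrix.unitaryGroup (Fin n) ℂ} (hρ : Continuous ρ) : Continuous (mrep ρ) :=
  continuous_subtype_val.comp hρ

/-- a continuous function on a compact space is bounded -/
theorem bdd_of_cont {G : Type} [TopologicalSpace G] [CompactSpace G] {f : G → ℝ}
    (hf : Continuous f) : ∃ C : ℝ, 0 ≤ C ∧ ∀ g, |f g| ≤ C := by
  obtain ⟨C, hC⟩ := (isCompact_univ (X := G)).exists_bound_of_continuousOn hf.continuousOn
  refine ⟨max C 0, le_max_right _ _, fun g => ?_⟩
  have := hC g (Set.mem_univ g)
  rw [Real.norm_eq_abs] at this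
  exact le_trans this (le_max_left _ _)

/-- For every continuous one-parameter subgroup `x : ℝ → G` let `X_α^x` be the generator of `ρ_α ∘ x` (`one_param`),
`d_α^x(g) = Re(z_α tr(ρ_α(g) X_α^x))` and `V_x = {v : ι → ℝ | ∀ g, ∑ v_α d_α^x(g) = 0}`. If `v` is in all `V_x` then
`φ = ∑ v_α f_α` satisfies `φ(g x(t)) = φ(g)` for all `x`, `t` (`inv_of_deriv`), so the set of the `h` with
`φ(g h) = φ(g)` for all `g` is a closed subgroup (`φ` is continuous) containing all `x 1`, so it is `G` (`hgen`); so `φ` is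
constant and `v = 0` by `hind`. So `⨅ V_x = ⊥` and `finite_dirs` gives `x_1, ..., x_s`. Let `d α j = d_α^{x_j}` and
`cp g t = g * x_1(t_1) * ... * x_s(t_s) = g * (List.ofFn fun j => x_j (t j)).prod`, so
`f_α(cp g t) = Re(z_α tr(ρ_α(g) eprod X t))`; the entries of `ρ_α(g)` have absolute value `≤ 1` (unitary). `hpos` of
`gram_dual`: the integral of the continuous nonnegative function `∑_j (∑_α v_α d_{αj})^2` is positive unless the function
vanishes identically (`μ` is positive on open sets), that is unless `v ∈ ⨅ V_{x_j} = ⊥`. `B` is the maximum of `1` and all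
bounds (finitely many). The functions are continuous, so measurable. -/
theorem fam_exists {G : Type} [Group G] [TopologicalSpace G] [IsTopologicalGroup G] [CompactSpace G] [T2Space G]
    [MeasurableSpace G] [BorelSpace G] (μ : Measure G) [μ.IsHaarMeasure] [IsProbabilityMeasure μ]
    (hgen : Dense ((Subgroup.closure {g : G | ∃ x : ℝ → G, Continuous x ∧ (∀ s t, x (s + t) = x s * x t) ∧ x 1 = g} :
      Subgroup G) : Set G))
    {ι : Type} [Fintype ι] [DecidableEq ι] (n : ι → ℕ) (ρ : (α : ι) → G →* Matrix.unitaryGroup (Fin (n α)) ℂ)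
    (hρ : ∀ α, Continuous (ρ α)) (z : ι → ℂ)
    (hf0 : ∀ α, ∫ g, (z α * (ρ α g : Matrix (Fin (n α)) (Fin (n α)) ℂ).trace).re ∂μ = 0)
    (hind : ∀ v : ι → ℝ, (∀ g, ∑ α, v α * (z α * (ρ α g : Matrix (Fin (n α)) (Fin (n α)) ℂ).trace).re =
      ∑ α, v α * (z α * (ρ α 1 : Matrix (Fin (n α)) (Fin (n α)) ℂ).trace).re) → v = 0) :
    ∃ s, Nonempty (Fam μ ι s (fun α g => (z α * (ρ α g : Matrix (Fin (n α)) (Fin (n α)) ℂ).trace).re)) := by
  classical
  -- generators
  have hgenr : ∀ (x : OPS G) (α : ι), ∃ X : Matrix (Fin (n α)) (Fin (n α)) ℂ,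
      ∀ t : ℝ, mrep (ρ α) (x.1 t) = NormedSpace.exp (t • X) := by
    intro x α
    apply one_param (fun t => mrep (ρ α) (x.1 t))
    · exact (mrep_cont (hρ α)).comp x.2.1
    · show mrep (ρ α) (x.1 0) = 1
      rw [ops_zero x.2.2, map_one]
    · intro s t
      show mrep (ρ α) (x.1 (s + t)) = mrep (ρ α) (x.1 s) * mrep (ρ α) (x.1 t)
      rw [x.2.2, map_mul]
  choose X hX using hgenr
  -- derivatives
  let D : OPS G → ι → G → ℝ := fun x α g => (z α * (mrep (ρ α) g * X x α).trace).re
  have hDc : ∀ x α, Continuous (D x α) := by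
    intro x α
    have h1 := mrep_cont (hρ α)
    have h2 : Continuous (fun g => (mrep (ρ α) g * X x α).trace) :=
      (h1.matrix_mul continuous_const).matrix_trace
    exact Complex.continuous_re.comp (continuous_const.mul h2)
  let V : OPS G → Submodule ℝ (ι → ℝ) := fun x =>
    { carrier := {v | ∀ g, ∑ α, v α * D x α g = 0}
      add_mem' := by
        intro v w hv hw g
        have h1 := hv g
        have h2 := hw g
        simp only [Pi.add_apply, add_mul, Finset.sum_add_distrib]
        rw [h1, h2, add_zero]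
      zero_mem' := by
        intro g
        simp
      smul_mem' := by
        intro c v hv g
        have h1 := hv g
        simp only [Pi.smul_apply, smul_eq_mul, mul_assoc]
        rw [← Finset.mul_sum, h1, mul_zero] }
  have hVmem : ∀ x v, v ∈ V x ↔ ∀ g, ∑ α, v α * D x α g = 0 := fun x v => Iff.rfl
  let f : ι → G → ℝ := fun α g => (z α * (mrep (ρ α) g).trace).re
  have hfc : ∀ α, Continuous (f α) := by
    intro α
    have h1 := mrep_cont (hρ α)
    have h2 : Continuous (fun g => (mrep (ρ α) g).trace) := h1.matrix_trace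
    exact Complex.continuous_re.comp (continuous_const.mul h2)
  have hVbot : ⨅ x, V x = ⊥ := by
    rw [eq_bot_iff]
    intro v hv
    rw [Submodule.mem_iInf] at hv
    rw [Submodule.mem_bot]
    let φ : G → ℝ := fun g => ∑ α, v α * f α g
    have hφc : Continuous φ := continuous_finsetSum _ fun α _ => continuous_const.mul (hfc α)
    have hinv : ∀ (x : OPS G) (g : G) (t : ℝ), φ (g * x.1 t) = φ g := by
      intro x g t
      exact inv_of_deriv n ρ z x.1 x.2.2 (fun α => X x α) (fun α t => hX x α t) v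
        (fun g => (hVmem x v).mp (hv x) g) g t
    let H : Subgroup G :=
      { carrier := {h | ∀ g, φ (g * h) = φ g}
        mul_mem' := by
          intro a b ha hb g
          rw [← mul_assoc, hb, ha]
        one_mem' := by
          intro g
          rw [mul_one]
        inv_mem' := by
          intro a ha g
          have h1 := ha (g * a⁻¹)
          rw [inv_mul_cancel_right] at h1
          exact h1.symm }
    have hcl : IsClosed (H : Set G) := by
      have h1 : (H : Set G) = ⋂ g : G, {h | φ (g * h) = φ g} := by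
        ext h
        simp only [Set.mem_iInter, Set.mem_setOf_eq]
        rfl
      rw [h1]
      exact isClosed_iInter fun g =>
        isClosed_eq (hφc.comp (continuous_const.mul continuous_id)) continuous_const
    have hle : Subgroup.closure {g : G | ∃ x : ℝ → G, Continuous x ∧
        (∀ s t, x (s + t) = x s * x t) ∧ x 1 = g} ≤ H := by
      rw [Subgroup.closure_le]
      rintro g ⟨x, hx1, hx2, rfl⟩ g'
      exact hinv ⟨x, hx1, hx2⟩ g' 1
    have htop : (H : Set G) = Set.univ := by
      have h1 : Dense (H : Set G) := hgen.mono hle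
      rw [← hcl.closure_eq]
      exact h1.closure_eq
    apply hind v
    intro g
    have h1 : g ∈ (H : Set G) := by
      rw [htop]
      exact Set.mem_univ g
    have h2 : φ (1 * g) = φ 1 := h1 1
    rw [one_mul] at h2
    exact h2
  obtain ⟨s, y, hy⟩ := finite_dirs V hVbot
  let d : ι → Fin s → G → ℝ := fun α j g => D (y j) α g
  have hdc : ∀ α j, Continuous (d α j) := fun α j => hDc (y j) α
  have hdm : ∀ α j, Measurable (d α j) := fun α j => (hdc α j).measurable
  -- bounds
  have hfb : ∀ α, ∃ C : ℝ, 0 ≤ C ∧ ∀ g, |f α g| ≤ C := fun α => bdd_of_cont (hfc α)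
  choose Cf hCf0 hCf using hfb
  have hdb : ∀ α j, ∃ C : ℝ, 0 ≤ C ∧ ∀ g, |d α j g| ≤ C := fun α j => bdd_of_cont (hdc α j)
  choose Cd hCd0 hCd using hdb
  have hCd1 : ∀ α j g, |d α j g| ≤ ∑ α, ∑ j, Cd α j := by
    intro α j g
    refine (hCd α j g).trans ?_
    calc Cd α j ≤ ∑ j, Cd α j :=
          Finset.single_le_sum (fun j _ => hCd0 α j) (Finset.mem_univ j)
      _ ≤ ∑ α, ∑ j, Cd α j :=
          Finset.single_le_sum (f := fun α => ∑ j, Cd α j)
            (fun α _ => Finset.sum_nonneg fun j _ => hCd0 α j) (Finset.mem_univ α)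
  have hCf1 : ∀ α g, |f α g| ≤ ∑ α, Cf α := by
    intro α g
    exact (hCf α g).trans (Finset.single_le_sum (fun α _ => hCf0 α) (Finset.mem_univ α))
  -- the dual frame
  have hpos : ∀ v : ι → ℝ, v ≠ 0 → 0 < ∫ g, ∑ j, (∑ α, v α * d α j g) ^ 2 ∂μ := by
    intro v hv
    have hc : Continuous (fun g => ∑ j, (∑ α, v α * d α j g) ^ 2) :=
      continuous_finsetSum _ fun j _ =>
        (continuous_finsetSum _ fun α _ => continuous_const.mul (hdc α j)).pow 2
    have hne : ∃ g, (∑ j, (∑ α, v α * d α j g) ^ 2) ≠ 0 := by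
      by_contra hcon
      push Not at hcon
      apply hv
      have h1 : v ∈ ⨅ j, V (y j) := by
        rw [Submodule.mem_iInf]
        intro j
        rw [hVmem]
        intro g
        have h2 := hcon g
        rw [Finset.sum_eq_zero_iff_of_nonneg (fun j _ => sq_nonneg _)] at h2
        have h3 := h2 j (Finset.mem_univ j)
        exact pow_eq_zero_iff (two_ne_zero) |>.mp h3
      rw [hy, Submodule.mem_bot] at h1
      exact h1
    obtain ⟨g, hg⟩ := hne
    exact hc.integral_pos_of_hasCompactSupport_nonneg_nonzero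
      (HasCompactSupport.of_compactSpace _) (fun g => Finset.sum_nonneg fun j _ => sq_nonneg _) hg
  obtain ⟨e, hem, ⟨B', hB'⟩, hframe⟩ := gram_dual μ d hdm (∑ α, ∑ j, Cd α j) hCd1 hpos
  -- the Lipschitz constants
  have hlip := fun α => trace_lip (fun j => X (y j) α)
  choose L hL0 hL using hlip
  have hcp : ∀ (α : ι) (g : G) (t : Fin s → ℝ),
      mrep (ρ α) (g * (List.ofFn fun j => (y j).1 (t j)).prod) =
        mrep (ρ α) g * eprod (fun j => X (y j) α) t := by
    intro α g t
    rw [map_mul, map_list_prod, List.map_ofFn]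
    congr 1
    unfold eprod
    congr 1
    congr 1
    funext j
    exact hX (y j) α (t j)
  refine ⟨s, ⟨{
    cp := fun g t => g * (List.ofFn fun j => (y j).1 (t j)).prod
    d := d
    e := e
    B := 1 + (∑ α, Cf α) + (∑ α, ∑ j, Cd α j) + |B'| + ∑ α, ‖z α‖ * L α
    B1 := ?_
    f_meas := fun α => (hfc α).measurable
    d_meas := hdm
    e_meas := hem
    f_le := ?_
    d_le := ?_
    e_le := ?_
    f_int := hf0
    frame := hframe
    lip := ?_
    zero := ?_ }⟩⟩
  all_goals
    have hs1 : 0 ≤ ∑ α, Cf α := Finset.sum_nonneg fun α _ => hCf0 α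
    have hs2 : 0 ≤ ∑ α, ∑ j, Cd α j :=
      Finset.sum_nonneg fun α _ => Finset.sum_nonneg fun j _ => hCd0 α j
    have hs3 : 0 ≤ |B'| := abs_nonneg _
    have hs4 : 0 ≤ ∑ α, ‖z α‖ * L α :=
      Finset.sum_nonneg fun α _ => mul_nonneg (norm_nonneg _) (hL0 α)
  · linarith
  · intro α g
    have := hCf1 α g
    calc _ ≤ ∑ α, Cf α := this
      _ ≤ _ := by linarith
  · intro α j g
    have := hCd1 α j g
    linarith
  · intro α j g
    have h1 := hB' α j g
    have h2 := le_abs_self B'
    linarith
  · intro α g t t' ht ht'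
    have hU : ∀ a b, ‖mrep (ρ α) g a b‖ ≤ 1 :=
      fun a b => entry_norm_bound_of_unitary (ρ α g).2 a b
    have h1 := hL α (mrep (ρ α) g) hU t t' ht ht'
    have h2 : f α (g * (List.ofFn fun j => (y j).1 (t j)).prod) -
        f α (g * (List.ofFn fun j => (y j).1 (t' j)).prod) - ∑ j, d α j g * (t j - t' j) =
        (z α * ((mrep (ρ α) g * eprod (fun j => X (y j) α) t).trace -
          (mrep (ρ α) g * eprod (fun j => X (y j) α) t').trace -
          ∑ j, ((t j - t' j : ℝ) : ℂ) * (mrep (ρ α) g * X (y j) α).trace)).re := by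
      rw [mul_sub, mul_sub, Complex.sub_re, Complex.sub_re, Finset.mul_sum, Complex.re_sum]
      congr 1
      · show (z α * (mrep (ρ α) (g * (List.ofFn fun j => (y j).1 (t j)).prod)).trace).re -
          (z α * (mrep (ρ α) (g * (List.ofFn fun j => (y j).1 (t' j)).prod)).trace).re = _
        rw [hcp, hcp]
      · apply Finset.sum_congr rfl
        intro j _
        show (z α * (mrep (ρ α) g * X (y j) α).trace).re * (t j - t' j) = _
        have h3 : z α * (((t j - t' j : ℝ) : ℂ) * (mrep (ρ α) g * X (y j) α).trace) =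
            ((t j - t' j : ℝ) : ℂ) * (z α * (mrep (ρ α) g * X (y j) α).trace) := by ring
        rw [h3, Complex.re_ofReal_mul]
        ring
    have h4 : |f α (g * (List.ofFn fun j => (y j).1 (t j)).prod) -
        f α (g * (List.ofFn fun j => (y j).1 (t' j)).prod) - ∑ j, d α j g * (t j - t' j)| ≤
        ‖z α‖ * (L α * max ‖t‖ ‖t'‖ * ‖t - t'‖) := by
      rw [h2]
      refine (Complex.abs_re_le_norm _).trans ?_
      rw [norm_mul]
      exact mul_le_mul_of_nonneg_left h1 (norm_nonneg _)
    have h5 : ‖z α‖ * L α ≤ ∑ α, ‖z α‖ * L α :=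
      Finset.single_le_sum (f := fun α => ‖z α‖ * L α)
        (fun α _ => mul_nonneg (norm_nonneg _) (hL0 α)) (Finset.mem_univ α)
    refine h4.trans ?_
    have h6 : 0 ≤ max ‖t‖ ‖t'‖ := le_trans (norm_nonneg t) (le_max_left _ _)
    have h7 : ‖z α‖ * (L α * max ‖t‖ ‖t'‖ * ‖t - t'‖) =
        (‖z α‖ * L α) * max ‖t‖ ‖t'‖ * ‖t - t'‖ := by ring
    rw [h7]
    have h8 : ‖z α‖ * L α ≤ 1 + (∑ α, Cf α) + (∑ α, ∑ j, Cd α j) + |B'| + ∑ α, ‖z α‖ * L α := by
      linarith
    gcongr
  · intro g
    have h1 : (List.ofFn fun j => (y j).1 ((0 : Fin s → ℝ) j)).prod = 1 := by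
      apply List.prod_eq_one
      intro a ha
      rw [List.mem_ofFn] at ha
      obtain ⟨j, rfl⟩ := ha
      exact ops_zero (y j).2.2
    show g * (List.ofFn fun j => (y j).1 ((0 : Fin s → ℝ) j)).prod = g
    rw [h1, mul_one]



end Pool.Agent.H497.TT
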