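import Pool.Agent.H497.TT.Schur

set_option autoImplicit false

namespace Pool.Agent.H497.TT

open MeasureTheory


/-- the complex conjugate unitary matrix -/
noncomputable def conjU {n : ℕ} (U : Matrix.unitaryGroup (Fin n) ℂ) : Matrix.unitaryGroup (Fin n) ℂ :=
  ⟨(U : Matrix (Fin n) (Fin n) ℂ).map (starRingEnd ℂ), by
    rw [Matrix.mem_unitaryGroup_iff]
    have h1 : star ((U : Matrix (Fin n) (Fin n) ℂ).map (starRingEnd ℂ)) =
        (star (U : Matrix (Fin n) (Fin n) ℂ)).map (starRingEnd ℂ) := by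
      ext i j
      simp [Matrix.star_apply]
    rw [h1, ← Matrix.map_mul, Matrix.mem_unitaryGroup_iff.1 U.2]
    simp⟩

/-- the complex conjugate representation -/
noncomputable def conjRep {G : Type} [Group G] {n : ℕ} (ρ : G →* Matrix.unitaryGroup (Fin n) ℂ) :
    G →* Matrix.unitaryGroup (Fin n) ℂ where
  toFun g := conjU (ρ g)
  map_one' := by
    apply Subtype.ext
    show ((ρ 1 : Matrix.unitaryGroup (Fin n) ℂ) : Matrix (Fin n) (Fin n) ℂ).map (starRingEnd ℂ) = 1
    rw [map_one]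
    simp
  map_mul' g g' := by
    apply Subtype.ext
    show ((ρ (g * g') : Matrix.unitaryGroup (Fin n) ℂ) : Matrix (Fin n) (Fin n) ℂ).map (starRingEnd ℂ) =
      (ρ g : Matrix (Fin n) (Fin n) ℂ).map (starRingEnd ℂ) *
        (ρ g' : Matrix (Fin n) (Fin n) ℂ).map (starRingEnd ℂ)
    rw [map_mul, ← Matrix.map_mul]
    rfl

/-- the contragredient representation -/
theorem exists_conj {G : Type} [Group G] [TopologicalSpace G] {n : ℕ} (ρ : G →* Matrix.unitaryGroup (Fin n) ℂ)
    (hρ : Continuous ρ) (h : Irr ρ) : ∃ σ : G →* Matrix.unitaryGroup (Fin n) ℂ, Continuous σ ∧ Irr σ ∧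
      mat σ = cmat ρ := by
  have hval : ∀ g, ((conjRep ρ g : Matrix.unitaryGroup (Fin n) ℂ) : Matrix (Fin n) (Fin n) ℂ) =
      (ρ g : Matrix (Fin n) (Fin n) ℂ).map (starRingEnd ℂ) := fun g => rfl
  refine ⟨conjRep ρ, ?_, ⟨h.1, ?_⟩, ?_⟩
  · rw [continuous_induced_rng]
    have h1 : Continuous fun g => ((ρ g : Matrix.unitaryGroup (Fin n) ℂ) : Matrix (Fin n) (Fin n) ℂ) :=
      continuous_subtype_val.comp hρ
    exact h1.matrix_map Complex.continuous_conj
  · intro V hV
    -- the conjugate subspace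
    let V' : Submodule ℂ (Fin n → ℂ) :=
      { carrier := {v | (starRingEnd ℂ) ∘ v ∈ V}
        add_mem' := by
          intro a b ha hb
          have h1 : (starRingEnd ℂ) ∘ (a + b) = (starRingEnd ℂ) ∘ a + (starRingEnd ℂ) ∘ b := by
            funext i
            simp
          show (starRingEnd ℂ) ∘ (a + b) ∈ V
          rw [h1]
          exact V.add_mem ha hb
        zero_mem' := by
          have h1 : (starRingEnd ℂ) ∘ (0 : Fin n → ℂ) = 0 := by
            funext i
            simp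
          show (starRingEnd ℂ) ∘ (0 : Fin n → ℂ) ∈ V
          rw [h1]
          exact V.zero_mem
        smul_mem' := by
          intro c a ha
          have h1 : (starRingEnd ℂ) ∘ (c • a) = (starRingEnd ℂ c) • ((starRingEnd ℂ) ∘ a) := by
            funext i
            simp
          show (starRingEnd ℂ) ∘ (c • a) ∈ V
          rw [h1]
          exact V.smul_mem _ ha }
    have hmem : ∀ v : Fin n → ℂ, v ∈ V' ↔ (starRingEnd ℂ) ∘ v ∈ V := fun v => Iff.rfl
    have hcc : ∀ v : Fin n → ℂ, (starRingEnd ℂ) ∘ ((starRingEnd ℂ) ∘ v) = v := by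
      intro v
      funext i
      simp
    rcases h.2 V' (by
      intro g v hv
      rw [hmem] at hv ⊢
      have h1 := hV g _ hv
      rw [hval] at h1
      have h2 : (starRingEnd ℂ) ∘ ((ρ g : Matrix (Fin n) (Fin n) ℂ).mulVec v) =
          ((ρ g : Matrix (Fin n) (Fin n) ℂ).map (starRingEnd ℂ)).mulVec ((starRingEnd ℂ) ∘ v) := by
        funext i
        exact RingHom.map_mulVec (starRingEnd ℂ) _ _ _
      rw [h2]
      exact h1) with h0 | h0
    · left
      rw [eq_bot_iff]
      intro v hv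
      have h1 : (starRingEnd ℂ) ∘ v ∈ V' := by
        rw [hmem, hcc]
        exact hv
      rw [h0, Submodule.mem_bot] at h1
      rw [Submodule.mem_bot, ← hcc v, h1]
      funext i
      simp
    · right
      rw [eq_top_iff]
      intro v _
      have h1 : (starRingEnd ℂ) ∘ v ∈ V' := by
        rw [h0]
        exact Submodule.mem_top
      rw [hmem, hcc] at h1
      exact h1
  · funext g
    rfl

/-- equivalent representations have the same traces; the trace of `cmat ρ g` is the conjugate of that of `mat ρ g`;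
`(mat ρ g)^e = mat ρ (g^e)` -/
theorem trace_real {G : Type} [Group G] {n : ℕ} (ρ : G →* Matrix.unitaryGroup (Fin n) ℂ)
    (h : Equi (mat ρ) (cmat ρ)) (g : G) (e : ℕ) : starRingEnd ℂ ((mat ρ g) ^ e).trace = ((mat ρ g) ^ e).trace := by
  obtain ⟨T, hT⟩ := h
  have h1 : ∀ (e : ℕ) (v : Fin n → ℂ), T (((mat ρ g) ^ e).mulVec v) = ((cmat ρ g) ^ e).mulVec (T v) := by
    intro e
    induction e with
    | zero => intro v; simp
    | succ e ih =>
      intro v
      rw [pow_succ', pow_succ', ← Matrix.mulVec_mulVec, ← Matrix.mulVec_mulVec, hT, ih]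
  have h2 : (cmat ρ g) ^ e = ((mat ρ g) ^ e).map (starRingEnd ℂ) := by
    rw [Matrix.map_pow]
    rfl
  have h3 : T.conj (Matrix.toLin' ((mat ρ g) ^ e)) = Matrix.toLin' ((cmat ρ g) ^ e) := by
    apply LinearMap.ext
    intro v
    rw [LinearEquiv.conj_apply_apply, Matrix.toLin'_apply, Matrix.toLin'_apply, h1,
      LinearEquiv.apply_symm_apply]
  have h4 := LinearMap.trace_conj' (Matrix.toLin' ((mat ρ g) ^ e)) T
  rw [h3, Matrix.trace_toLin'_eq, Matrix.trace_toLin'_eq, h2] at h4
  have h5 : (((mat ρ g) ^ e).map (starRingEnd ℂ)).trace = starRingEnd ℂ ((mat ρ g) ^ e).trace := by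
    simp [Matrix.trace]
  rw [← h5]
  exact h4

/-- unitary matrices have `|tr(U^e)| ≤ n`: `U^e` is unitary, its entries have absolute value `≤ 1` -/
theorem trace_le {n : ℕ} (U : Matrix.unitaryGroup (Fin n) ℂ) (e : ℕ) :
    ‖((U : Matrix (Fin n) (Fin n) ℂ) ^ e).trace‖ ≤ n := by
  have h1 : (U : Matrix (Fin n) (Fin n) ℂ) ^ e ∈ Matrix.unitaryGroup (Fin n) ℂ := (U ^ e).2
  unfold Matrix.trace
  refine (norm_sum_le _ _).trans ?_
  refine (Finset.sum_le_sum fun i _ => ?_).trans (le_of_eq ?_) (b := ∑ _i : Fin n, (1 : ℝ))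
  · rw [Matrix.diag_apply]
    exact entry_norm_bound_of_unitary h1 i i
  · simp

/-- The trivial representation `Fin 1` is irreducible and not equivalent to `ρ` (if `T` is an equivalence, then all
`ρ(g)` are `1`), so `∫ tr ρ = 0` by `orth_char`. -/
theorem mean_zero {G : Type} [Group G] [TopologicalSpace G] [IsTopologicalGroup G] [CompactSpace G] [T2Space G]
    [MeasurableSpace G] [BorelSpace G] (μ : Measure G) [μ.IsHaarMeasure] [IsProbabilityMeasure μ] {n : ℕ}
    (ρ : G →* Matrix.unitaryGroup (Fin n) ℂ) (hρ : Continuous ρ) (h1 : Irr ρ) (h : ∃ g, ρ g ≠ 1) :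
    ∫ g, (mat ρ g).trace ∂μ = 0 := by
  have htriv : Irr (1 : G →* Matrix.unitaryGroup (Fin 1) ℂ) := by
    refine ⟨one_pos, ?_⟩
    intro V _
    by_cases h00 : V = ⊥
    · exact Or.inl h00
    · obtain ⟨v, hv, hv0⟩ := Submodule.exists_mem_ne_zero_of_ne_bot h00
      right
      rw [eq_top_iff]
      intro w _
      have hv1 : v 0 ≠ 0 := by
        intro h0
        apply hv0
        funext i
        rw [Subsingleton.elim i 0, h0]
        rfl
      have h1 : w = (w 0 / v 0) • v := by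
        funext i
        rw [Subsingleton.elim i 0, Pi.smul_apply, smul_eq_mul, div_mul_cancel₀ _ hv1]
      rw [h1]
      exact V.smul_mem _ hv
  have hne : ¬ Equi (mat ρ) (mat (1 : G →* Matrix.unitaryGroup (Fin 1) ℂ)) := by
    rintro ⟨T, hT⟩
    obtain ⟨g, hg⟩ := h
    apply hg
    apply Subtype.ext
    have h2 : ∀ v : Fin n → ℂ, (mat ρ g).mulVec v = v := by
      intro v
      apply T.injective
      rw [hT]
      show ((1 : Matrix (Fin 1) (Fin 1) ℂ)).mulVec (T v) = T v
      rw [Matrix.one_mulVec]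
    have h3 : Matrix.toLin' (mat ρ g) = Matrix.toLin' (1 : Matrix (Fin n) (Fin n) ℂ) := by
      apply LinearMap.ext
      intro v
      rw [Matrix.toLin'_apply, h2, Matrix.toLin'_one, LinearMap.id_apply]
    exact Matrix.toLin'.injective h3
  have h4 := orth_char μ ρ (1 : G →* Matrix.unitaryGroup (Fin 1) ℂ) hρ continuous_const h1 htriv hne
  rw [← h4]
  congr 1
  funext g
  have h5 : (mat (1 : G →* Matrix.unitaryGroup (Fin 1) ℂ) g).trace = 1 := by
    show (1 : Matrix (Fin 1) (Fin 1) ℂ).trace = 1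
    simp
  rw [h5, map_one, mul_one]

/-- equivalence is symmetric -/
theorem Equi.symm' {G : Type} {n m : ℕ} {A : G → Matrix (Fin n) (Fin n) ℂ}
    {B : G → Matrix (Fin m) (Fin m) ℂ} (h : Equi A B) : Equi B A := by
  obtain ⟨T, hT⟩ := h
  refine ⟨T.symm, ?_⟩
  intro g v
  apply T.injective
  rw [hT, LinearEquiv.apply_symm_apply, LinearEquiv.apply_symm_apply]

/-- the trace of the complex conjugate matrix -/
theorem trace_cmat {G : Type} [Group G] {n : ℕ} (ρ : G →* Matrix.unitaryGroup (Fin n) ℂ) (g : G) :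
    (cmat ρ g).trace = starRingEnd ℂ (mat ρ g).trace := by
  simp [Matrix.trace, cmat, mat]

/-- the trace is continuous -/
theorem continuous_tr {G : Type} [Group G] [TopologicalSpace G] {n : ℕ}
    (ρ : G →* Matrix.unitaryGroup (Fin n) ℂ) (hρ : Continuous ρ) :
    Continuous fun g => (mat ρ g).trace := by
  have h1 : Continuous fun g => ((ρ g : Matrix.unitaryGroup (Fin n) ℂ) : Matrix (Fin n) (Fin n) ℂ) :=
    continuous_subtype_val.comp hρ
  exact h1.matrix_trace

/-- Linear independence. Let `w_i = v_(i,false) - I v_(i,true)` (`v_(i,true) = 0` if the index is absent) so that the sum is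
`φ(g) = ∑_i Re(w_i τ_i(g)) = (1/2) ∑_i (w_i τ_i + conj(w_i) conj(τ_i))`, `τ_i = tr ρ_i`. `φ` is constant, so equal to its integral `0`
(`mean_zero`). Multiply by `conj τ_k` and integrate: by `orth_char` for `ρ_i`, `ρ_k` and for the contragredient of `ρ_i`
(`exists_conj`) and `ρ_k` (`hne`; for `i = k` if `ρ_k` is not self-dual) all terms vanish except
`w_k ∫ |τ_k|^2 / 2`, and, if `ρ_k` is self-dual, `conj(w_k) ∫ conj(τ_k)^2 / 2 = conj(w_k) ∫ |τ_k|^2 / 2` (`trace_real`), where then
`w_k` is real. `∫ |τ_k|^2 > 0` as `τ_k` is continuous and `τ_k(1) = n_k ≠ 0`. So `w_k = 0` in both cases. -/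
theorem indep {G : Type} [Group G] [TopologicalSpace G] [IsTopologicalGroup G] [CompactSpace G] [T2Space G]
    [MeasurableSpace G] [BorelSpace G] (μ : Measure G) [μ.IsHaarMeasure] [IsProbabilityMeasure μ] {m : ℕ}
    (n : Fin m → ℕ) (ρ : (i : Fin m) → G →* Matrix.unitaryGroup (Fin (n i)) ℂ) (hρ : ∀ i, Continuous (ρ i))
    (hirr : ∀ i, Irr (ρ i)) (hnt : ∀ i, ∃ g, ρ i g ≠ 1)
    (hne : ∀ i j, i ≠ j → ¬ Equi (mat (ρ i)) (mat (ρ j)) ∧ ¬ Equi (mat (ρ i)) (cmat (ρ j)))
    [Fintype {p : Fin m × Bool // p.2 = true → ¬ Equi (mat (ρ p.1)) (cmat (ρ p.1))}]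
    (v : {p : Fin m × Bool // p.2 = true → ¬ Equi (mat (ρ p.1)) (cmat (ρ p.1))} → ℝ)
    (hv : ∀ g, ∑ α, v α * (if α.1.2 then (mat (ρ α.1.1) g).trace.im else (mat (ρ α.1.1) g).trace.re) =
      ∑ α, v α * (if α.1.2 then (mat (ρ α.1.1) 1).trace.im else (mat (ρ α.1.1) 1).trace.re)) : v = 0 := by
  classical
  -- the coefficients
  obtain ⟨c, hc⟩ : ∃ c : Fin m × Bool → ℝ, c = fun p =>
      if h : (p.2 = true → ¬ Equi (mat (ρ p.1)) (cmat (ρ p.1))) then v ⟨p, h⟩ else 0 := ⟨_, rfl⟩
  have hcv : ∀ α : {p : Fin m × Bool // p.2 = true → ¬ Equi (mat (ρ p.1)) (cmat (ρ p.1))},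
      c α.1 = v α := by
    intro α
    rw [hc]
    show (if h : (α.1.2 = true → ¬ Equi (mat (ρ α.1.1)) (cmat (ρ α.1.1))) then v ⟨α.1, h⟩ else 0) = v α
    rw [dif_pos α.2]
  have hc0 : ∀ i, Equi (mat (ρ i)) (cmat (ρ i)) → c (i, true) = 0 := by
    intro i hi
    rw [hc]
    show (if h : (((i, true) : Fin m × Bool).2 = true → ¬ Equi (mat (ρ i)) (cmat (ρ i))) then
      v ⟨(i, true), h⟩ else 0) = 0
    rw [dif_neg]
    intro h
    exact h rfl hi
  obtain ⟨w, hw⟩ : ∃ w : Fin m → ℂ, w = fun i => (c (i, false) : ℂ) - Complex.I * (c (i, true) : ℂ) :=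
    ⟨_, rfl⟩
  obtain ⟨τ, hτ⟩ : ∃ τ : Fin m → G → ℂ, τ = fun i g => (mat (ρ i) g).trace := ⟨_, rfl⟩
  have hτc : ∀ i, Continuous (τ i) := by
    intro i
    rw [hτ]
    exact continuous_tr (ρ i) (hρ i)
  have hsum : ∀ g, ∑ α : {p : Fin m × Bool // p.2 = true → ¬ Equi (mat (ρ p.1)) (cmat (ρ p.1))},
      v α * (if α.1.2 then (mat (ρ α.1.1) g).trace.im else (mat (ρ α.1.1) g).trace.re) =
      ∑ i, (w i * τ i g).re := by
    intro g
    have h1 : ∑ α : {p : Fin m × Bool // p.2 = true → ¬ Equi (mat (ρ p.1)) (cmat (ρ p.1))},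
        v α * (if α.1.2 then (mat (ρ α.1.1) g).trace.im else (mat (ρ α.1.1) g).trace.re) =
        ∑ p ∈ (Finset.univ : Finset (Fin m × Bool)).filter
          (fun p => p.2 = true → ¬ Equi (mat (ρ p.1)) (cmat (ρ p.1))),
          c p * (if p.2 then (τ p.1 g).im else (τ p.1 g).re) := by
      rw [Finset.sum_subtype (p := fun p : Fin m × Bool =>
        p.2 = true → ¬ Equi (mat (ρ p.1)) (cmat (ρ p.1))) _ (fun p => by
          rw [Finset.mem_filter]
          exact ⟨fun h => h.2, fun h => ⟨Finset.mem_univ _, h⟩⟩)]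
      refine Finset.sum_congr rfl fun α _ => ?_
      rw [hcv, hτ]
    rw [h1, Finset.sum_filter_of_ne, Fintype.sum_prod_type]
    · refine Finset.sum_congr rfl fun i _ => ?_
      rw [Fintype.sum_bool, hw]
      simp
      ring
    · intro p _ hp
      by_contra hcon
      apply hp
      have h2 : c p = 0 := by
        rw [hc]
        exact dif_neg hcon
      rw [h2, zero_mul]
  have hconst : ∀ g, ∑ i, (w i * τ i g).re = ∑ i, (w i * τ i 1).re := by
    intro g
    rw [← hsum g, ← hsum 1]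
    exact hv g
  -- it suffices that all the `w k` vanish
  suffices hwk : ∀ k, w k = 0 by
    funext α
    rw [← hcv α]
    have h1 := hwk α.1.1
    rw [hw] at h1
    have h2 : ((c (α.1.1, false) : ℂ) - Complex.I * (c (α.1.1, true) : ℂ)).re = 0 := by
      rw [show (c (α.1.1, false) : ℂ) - Complex.I * (c (α.1.1, true) : ℂ) = 0 from h1]
      rfl
    have h3 : ((c (α.1.1, false) : ℂ) - Complex.I * (c (α.1.1, true) : ℂ)).im = 0 := by
      rw [show (c (α.1.1, false) : ℂ) - Complex.I * (c (α.1.1, true) : ℂ) = 0 from h1]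
      rfl
    simp at h2 h3
    have h4 : α.1 = (α.1.1, α.1.2) := rfl
    rw [h4]
    cases hb : α.1.2
    · rw [h2]; rfl
    · rw [h3]; rfl
  intro k
  -- the integrals
  have hint : ∀ f : G → ℂ, Continuous f → Integrable f μ := fun f hf =>
    hf.integrable_of_hasCompactSupport (HasCompactSupport.of_compactSpace f)
  have hconjc : ∀ i, Continuous fun g => starRingEnd ℂ (τ i g) := fun i =>
    Complex.continuous_conj.comp (hτc i)
  have hN : ∃ N : ℝ, 0 < N ∧ ∫ g, τ k g * starRingEnd ℂ (τ k g) ∂μ = (N : ℂ) := by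
    refine ⟨∫ g, ‖τ k g‖ ^ 2 ∂μ, ?_, ?_⟩
    · have hcont : Continuous fun g => ‖τ k g‖ ^ 2 := ((hτc k).norm).pow 2
      apply hcont.integral_pos_of_hasCompactSupport_nonneg_nonzero (x := 1)
        (HasCompactSupport.of_compactSpace _)
      · intro g
        positivity
      · have h1 : τ k 1 = (n k : ℂ) := by
          rw [hτ]
          show (((ρ k 1 : Matrix.unitaryGroup (Fin (n k)) ℂ)) : Matrix (Fin (n k)) (Fin (n k)) ℂ).trace = _
          rw [map_one]
          simp
        rw [h1]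
        have h2 : (n k : ℝ) ≠ 0 := by
          have := (hirr k).1
          exact_mod_cast this.ne'
        simp [h2]
    · rw [← integral_complex_ofReal]
      congr 1
      funext g
      rw [Complex.mul_conj, Complex.normSq_eq_norm_sq]
  obtain ⟨N, hN0, hN⟩ := hN
  have horth : ∀ i, i ≠ k → ∫ g, τ i g * starRingEnd ℂ (τ k g) ∂μ = 0 := by
    intro i hik
    rw [hτ]
    exact orth_char μ (ρ i) (ρ k) (hρ i) (hρ k) (hirr i) (hirr k) (hne i k hik).1
  have horth2 : ∀ i, ¬ Equi (mat (ρ k)) (cmat (ρ i)) →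
      ∫ g, starRingEnd ℂ (τ i g) * starRingEnd ℂ (τ k g) ∂μ = 0 := by
    intro i hik
    obtain ⟨σ, hσc, hσi, hσ⟩ := exists_conj (ρ i) (hρ i) (hirr i)
    have h1 := orth_char μ σ (ρ k) hσc (hρ k) hσi (hirr k) (by
      rw [hσ]
      exact fun h => hik h.symm')
    rw [← h1, hτ]
    congr 1
    funext g
    rw [hσ, trace_cmat]
  have hmean : ∫ g, starRingEnd ℂ (τ k g) ∂μ = 0 := by
    rw [integral_conj, hτ]
    rw [mean_zero μ (ρ k) (hρ k) (hirr k) (hnt k), map_zero]
  -- multiply by `conj τ_k` and integrate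
  have hre : ∀ g, (((∑ i, (w i * τ i g).re : ℝ)) : ℂ) =
      ∑ i, ((w i / 2) * τ i g + (starRingEnd ℂ (w i) / 2) * starRingEnd ℂ (τ i g)) := by
    intro g
    rw [Complex.ofReal_sum]
    refine Finset.sum_congr rfl fun i _ => ?_
    rw [Complex.re_eq_add_conj, map_mul]
    ring
  have hI : ∑ i, ((w i / 2) * ∫ g, τ i g * starRingEnd ℂ (τ k g) ∂μ +
      (starRingEnd ℂ (w i) / 2) * ∫ g, starRingEnd ℂ (τ i g) * starRingEnd ℂ (τ k g) ∂μ) = 0 := by
    have h1 : ∫ g, (((∑ i, (w i * τ i g).re : ℝ)) : ℂ) * starRingEnd ℂ (τ k g) ∂μ = 0 := by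
      have h2 : ∀ g, (((∑ i, (w i * τ i g).re : ℝ)) : ℂ) * starRingEnd ℂ (τ k g) =
          (((∑ i, (w i * τ i 1).re : ℝ)) : ℂ) * starRingEnd ℂ (τ k g) := by
        intro g
        rw [hconst g]
      simp_rw [h2]
      rw [integral_const_mul, hmean, mul_zero]
    rw [← h1]
    have h3 : ∀ g, (((∑ i, (w i * τ i g).re : ℝ)) : ℂ) * starRingEnd ℂ (τ k g) =
        ∑ i, ((w i / 2) * (τ i g * starRingEnd ℂ (τ k g)) +
          (starRingEnd ℂ (w i) / 2) * (starRingEnd ℂ (τ i g) * starRingEnd ℂ (τ k g))) := by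
      intro g
      rw [hre, Finset.sum_mul]
      refine Finset.sum_congr rfl fun i _ => ?_
      ring
    simp_rw [h3]
    have hi1 : ∀ i, Integrable (fun g => (w i / 2) * (τ i g * starRingEnd ℂ (τ k g))) μ := fun i =>
      hint _ (continuous_const.mul ((hτc i).mul (hconjc k)))
    have hi2 : ∀ i, Integrable (fun g => (starRingEnd ℂ (w i) / 2) *
        (starRingEnd ℂ (τ i g) * starRingEnd ℂ (τ k g))) μ := fun i =>
      hint _ (continuous_const.mul ((hconjc i).mul (hconjc k)))
    have hi3 : ∀ i, Integrable (fun g => (w i / 2) * (τ i g * starRingEnd ℂ (τ k g)) +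
        (starRingEnd ℂ (w i) / 2) * (starRingEnd ℂ (τ i g) * starRingEnd ℂ (τ k g))) μ := fun i =>
      (hi1 i).add (hi2 i)
    rw [integral_finsetSum _ (fun i _ => hi3 i)]
    refine Finset.sum_congr rfl fun i _ => ?_
    rw [integral_add (hi1 i) (hi2 i), integral_const_mul, integral_const_mul]
  rw [Finset.sum_eq_single k] at hI
  · have hN' : (N : ℂ) ≠ 0 := by exact_mod_cast hN0.ne'
    by_cases hself : Equi (mat (ρ k)) (cmat (ρ k))
    · -- self dual
      have h1 : ∀ g, starRingEnd ℂ (τ k g) = τ k g := by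
        intro g
        rw [hτ]
        have := trace_real (ρ k) hself g 1
        rw [pow_one] at this
        exact this
      have h2 : starRingEnd ℂ (w k) = w k := by
        rw [hw]
        show starRingEnd ℂ ((c (k, false) : ℂ) - Complex.I * (c (k, true) : ℂ)) =
          (c (k, false) : ℂ) - Complex.I * (c (k, true) : ℂ)
        rw [hc0 k hself]
        simp
      have h3 : ∫ g, starRingEnd ℂ (τ k g) * starRingEnd ℂ (τ k g) ∂μ = (N : ℂ) := by
        rw [← hN]
        congr 1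
        funext g
        rw [h1 g]
      rw [h3, hN, h2] at hI
      have h4 : w k * (N : ℂ) = 0 := by linear_combination hI
      exact (mul_eq_zero.1 h4).resolve_right hN'
    · rw [horth2 k hself, hN, mul_zero, add_zero] at hI
      have h4 : w k * (N : ℂ) = 0 := by linear_combination 2 * hI
      exact (mul_eq_zero.1 h4).resolve_right hN'
  · intro i _ hik
    rw [horth i hik, horth2 i (hne k i (Ne.symm hik)).2, mul_zero, mul_zero, add_zero]
  · intro h
    exact absurd (Finset.mem_univ k) h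



end Pool.Agent.H497.TT
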