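import Pool.Agent.H497.TT.Step

set_option autoImplicit false



namespace Pool.Agent.H497.TT

open MeasureTheory


/-- `GoodT ... K` depends only on the `g P` with `deg P < K` (`TS_congr`, `FF.LL_congr`; at `eqn` the `k0 ≤ k < K`). -/
theorem GoodT_congr {𝓟 𝓧 G : Type} {S : TSys 𝓟 𝓧} {D : RD G} {η : ℝ} {κ : ℕ} {kb M : ℕ → ℕ} {N : ℕ → 𝓧 → ℕ}
    {W : ℕ → 𝓧 → ℂ} {g g' : 𝓟 → G} {K : ℕ} (h : ∀ P, S.deg P < K → g P = g' P) (hG : GoodT S D η κ kb M N W g K) :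
    GoodT S D η κ kb M N W g' K := by
  have hTS : ∀ (i : ℕ) (χ : 𝓧) (k : ℕ), k < K →
      S.TS (fun P => D.pw i (g' P)) χ k = S.TS (fun P => D.pw i (g P)) χ k := by
    intro i χ k hk
    refine TS_congr S _ _ χ fun P hP => ?_
    show D.pw i (g' P) = D.pw i (g P)
    rw [h P (lt_of_le_of_lt hP hk)]
  constructor
  · intro i χ k h1 h2 h3
    have h4 := hG.low i χ k h1 h2 h3
    have h5 : ∑ P ∈ S.Pr k, D.pw i (g' P) 1 * S.lam χ P 1 =
        ∑ P ∈ S.Pr k, D.pw i (g P) 1 * S.lam χ P 1 := by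
      refine Finset.sum_congr rfl fun P hP => ?_
      rw [h P (by rw [(S.mem_Pr k P).1 hP]; exact h2)]
    rw [h5]
    exact h4
  · intro i χ k h1 h2
    rw [hTS i χ k h2, hG.eqn i χ k h1 h2]
    have h3 := FF.LL_congr S.q (S.TS (fun P => D.pw i (g P)) χ) (S.TS (fun P => D.pw i (g' P)) χ)
      (κ * (S.c χ + 1) + kb i) (N i χ) (W i χ) (fun j _ hj => (hTS i χ j (by omega)).symm)
    rw [h3]

/-- Iterate `step`, starting with `g_0 = g0` (`GoodT ... 0` is trivially true, there is no `k < 0`), `g_{K+1}` from `g_K`;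
let `g P = g_{deg P + 1} P`. Then `g P = g_K P` for all `K > deg P`, and `GoodT_congr`. For `deg P ≤ d0`: `g_{K+1} = g_K` for
`K ≤ d0`, so `g P = g0 P`. -/
theorem limit {𝓟 𝓧 G : Type} {S : TSys 𝓟 𝓧} {D : RD G} {η : ℝ} {κ ν d0 : ℕ} {kb M N0 : ℕ → ℕ} {N : ℕ → 𝓧 → ℕ}
    {W : ℕ → 𝓧 → ℂ} (g0 : 𝓟 → G) (hη : 0 < η) (hκ : 1 ≤ κ) (hd0 : ∀ i, d0 < M i) (hMkb : ∀ i, M i ≤ kb i)
    (hNum : ∀ i, NumT S.q η κ ν (2 + 2 * D.n i * S.R * (1 + S.A) * (S.q : ℝ) ^ M i) (kb i) (N0 i))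
    (hN : ∀ i χ, ν * (S.c χ + 1) + N0 i ≤ N i χ) (hNp : ∀ i χ, S.per χ ∣ N i χ) (hW : ∀ i χ, ‖W i χ‖ = 1)
    (hsd : ∀ i, D.sd i → ∀ χ, N i (S.bar χ) = N i χ ∧ W i (S.bar χ) = starRingEnd ℂ (W i χ))
    (hM : ∀ K, ∃ m, (∀ i, M i ≤ K → i < m) ∧ Solv S D η κ m K) :
    ∃ g : 𝓟 → G, (∀ P, S.deg P ≤ d0 → g P = g0 P) ∧ ∀ K, GoodT S D η κ kb M N W g K := by
  have hstep : ∀ (K : ℕ) (g : 𝓟 → G), GoodT S D η κ kb M N W g K → ∃ g' : 𝓟 → G,
      (∀ P, S.deg P ≠ K → g' P = g P) ∧ (K ≤ d0 → g' = g) ∧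
        GoodT S D η κ kb M N W g' (K + 1) := fun K g hG =>
    step hη hκ hd0 hMkb hNum hN hNp hW hsd (hM K) hG
  choose f hf1 hf2 hf3 using hstep
  have h00 : GoodT S D η κ kb M N W g0 0 :=
    ⟨fun i χ k _ h _ => absurd h (Nat.not_lt_zero k), fun i χ k _ h => absurd h (Nat.not_lt_zero k)⟩
  let sq : (K : ℕ) → {g : 𝓟 → G // GoodT S D η κ kb M N W g K} := fun K =>
    Nat.rec (motive := fun K => {g : 𝓟 → G // GoodT S D η κ kb M N W g K}) ⟨g0, h00⟩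
      (fun K r => ⟨f K r.1 r.2, hf3 K r.1 r.2⟩) K
  have hs0 : (sq 0).1 = g0 := rfl
  have hs : ∀ K, (sq (K + 1)).1 = f K (sq K).1 (sq K).2 := fun K => rfl
  have hstab : ∀ (P : 𝓟) (K : ℕ), S.deg P + 1 ≤ K → (sq K).1 P = (sq (S.deg P + 1)).1 P := by
    intro P K hK
    induction K, hK using Nat.le_induction with
    | base => rfl
    | succ K hK ih =>
      rw [hs K, hf1 K _ _ P (by omega), ih]
  have hlow : ∀ K : ℕ, K ≤ d0 + 1 → (sq K).1 = g0 := by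
    intro K
    induction K with
    | zero => intro _; exact hs0
    | succ K ih =>
      intro hK
      rw [hs K, hf2 K _ _ (by omega)]
      exact ih (by omega)
  refine ⟨fun P => (sq (S.deg P + 1)).1 P, fun P hP => ?_, fun K => ?_⟩
  · show (sq (S.deg P + 1)).1 P = g0 P
    rw [hlow (S.deg P + 1) (by omega)]
  · exact GoodT_congr (fun P hP => hstab P K hP) (sq K).2

/-- Let `K0 m` be thresholds for `Solv ... m` (`h`), and `M i = d0 + 1 + i + ∑_{m ≤ i + 1} K0 m`, which is strictly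
increasing. Given `K`, let `m = #{i : M i ≤ K}` (`i ≤ K` for such `i`), that is `m` is minimal with `K < M m`. If `m = 0`
then `Solv ... 0 K` is trivial (`g = fun _ => Classical.arbitrary G`). Otherwise `M (m-1) ≤ K` gives `K0 m ≤ K`. -/
theorem exists_M {𝓟 𝓧 G : Type} [Nonempty G] {S : TSys 𝓟 𝓧} {D : RD G} {η : ℝ} {κ : ℕ}
    (h : ∀ m, ∃ K0, ∀ K, K0 ≤ K → Solv S D η κ m K) (d0 : ℕ) :
    ∃ M : ℕ → ℕ, (∀ i, d0 < M i) ∧ ∀ K, ∃ m, (∀ i, M i ≤ K → i < m) ∧ Solv S D η κ m K := by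
  choose K0 hK0 using h
  let M : ℕ → ℕ := fun i => d0 + 1 + i + ∑ m ∈ Finset.range (i + 2), K0 m
  have hMdef : ∀ i, M i = d0 + 1 + i + ∑ m ∈ Finset.range (i + 2), K0 m := fun i => rfl
  have hmono : Monotone M := by
    refine monotone_nat_of_le_succ fun i => ?_
    rw [hMdef, hMdef, Finset.sum_range_succ _ (i + 2)]
    omega
  refine ⟨M, fun i => by rw [hMdef]; omega, fun K => ?_⟩
  have hex : ∃ m, K < M m := ⟨K, by rw [hMdef]; omega⟩
  classical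
  refine ⟨Nat.find hex, fun i hi => ?_, ?_⟩
  · by_contra hcon
    push Not at hcon
    have h1 := hmono hcon
    have h2 := Nat.find_spec hex
    omega
  · rcases hm : Nat.find hex with _ | m'
    · intro b _ _
      exact ⟨fun _ => Classical.arbitrary G, fun i hi => absurd hi (Nat.not_lt_zero i),
        fun i hi => absurd hi (Nat.not_lt_zero i)⟩
    · refine hK0 (m' + 1) K ?_
      have h1 : ¬ K < M m' := Nat.find_min hex (by rw [hm]; exact Nat.lt_succ_self m')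
      have h2 : K0 (m' + 1) ≤ ∑ m ∈ Finset.range (m' + 2), K0 m :=
        Finset.single_le_sum (f := K0) (fun _ _ => Nat.zero_le _)
          (Finset.mem_range.2 (by omega))
      rw [hMdef] at h1
      omega

end Pool.Agent.H497.TT
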