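import Pool.Agent.H497.TT.Solver
import Pool.Agent.H497.TT.Limit
import Pool.Agent.H497.TT.Par
import Pool.Agent.H497.TT.Wrap
import Pool.Agent.H497.TT.FamE
import Pool.Agent.H497.TT.Indep
import Pool.Agent.H497.TT.Eig
import Pool.Agent.H497.TT.Euler

set_option autoImplicit false

namespace Pool.Agent.H497.TT

open MeasureTheory

/-- the data of a sequence of representations -/
noncomputable def repRD {G : Type} [Group G] (n : ℕ → ℕ) (ρ : (i : ℕ) → G →* Matrix.unitaryGroup (Fin (n i)) ℂ) :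
    RD G where
  n := n
  pw := fun i g e => ((mat (ρ i) g) ^ e).trace
  bd := fun i g e => trace_le (ρ i g) e
  sd := fun i => Equi (mat (ρ i)) (cmat (ρ i))
  real := fun i h g e => trace_real (ρ i) h g e

theorem solv_exists {𝓟 𝓧 : Type} (S : TSys 𝓟 𝓧) {G : Type} [Group G] [TopologicalSpace G] [IsTopologicalGroup G]
    [CompactSpace G] [T2Space G]
    (hgen : Dense ((Subgroup.closure {g : G | ∃ x : ℝ → G, Continuous x ∧ (∀ s t, x (s + t) = x s * x t) ∧ x 1 = g} :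
      Subgroup G) : Set G))
    (n : ℕ → ℕ) (ρ : (i : ℕ) → G →* Matrix.unitaryGroup (Fin (n i)) ℂ) (hρ : ∀ i, Continuous (ρ i))
    (hirr : ∀ i, Irr (ρ i)) (hnt : ∀ i, ∃ g, ρ i g ≠ 1)
    (hne : ∀ i j, i ≠ j → ¬ Equi (mat (ρ i)) (mat (ρ j)) ∧ ¬ Equi (mat (ρ i)) (cmat (ρ j)))
    {η : ℝ} (hη : 0 < η) (hη2 : η ≤ 1 / 64) {κ : ℕ} (hκ : 1 ≤ κ) (hκη : 8 * (S.a : ℝ) ≤ η * κ) (m : ℕ) :
    ∃ K0, ∀ K, K0 ≤ K → Solv S (repRD n ρ) η κ m K := by
  classical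
  letI : MeasurableSpace G := borel G
  haveI : BorelSpace G := ⟨rfl⟩
  set μ : Measure G := Measure.haarMeasure ⊤ with hμ
  haveI : IsProbabilityMeasure μ := ⟨by
    have := Measure.haarMeasure_self (K₀ := (⊤ : TopologicalSpace.PositiveCompacts G))
    simpa using this⟩
  let z : {p : Fin m × Bool // p.2 = true → ¬ (repRD n ρ).sd p.1} → ℂ := fun α => if α.1.2 then -Complex.I else 1
  have hz : ∀ (α : {p : Fin m × Bool // p.2 = true → ¬ (repRD n ρ).sd p.1}) (w : ℂ),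
      (z α * w).re = if α.1.2 then w.im else w.re := by
    intro α w
    by_cases h : α.1.2 = true
    · simp [z, h]
    · simp [z, h]
  have hcont : ∀ i, Continuous fun g => (mat (ρ i) g).trace := fun i =>
    (continuous_subtype_val.comp (hρ i)).matrix_trace
  have hint : ∀ i, Integrable (fun g => (mat (ρ i) g).trace) μ := fun i =>
    (hcont i).integrable_of_hasCompactSupport (HasCompactSupport.of_compactSpace _)
  obtain ⟨s, ⟨Fm⟩⟩ := fam_exists μ hgen (ι := {p : Fin m × Bool // p.2 = true → ¬ (repRD n ρ).sd p.1})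
    (fun α => n α.1.1) (fun α => ρ α.1.1) (fun α => hρ _) z (fun α => by
      have h1 := mean_zero μ (ρ α.1.1) (hρ _) (hirr _) (hnt _)
      have h2 : ∫ g, z α * (mat (ρ α.1.1) g).trace ∂μ = 0 := by
        rw [integral_const_mul, h1, mul_zero]
      have h3 := integral_re ((hint α.1.1).const_mul (z α))
      have h4 : ∫ g, (z α * (mat (ρ α.1.1) g).trace).re ∂μ = 0 := by
        have : ∫ g, RCLike.re (z α * (mat (ρ α.1.1) g).trace) ∂μ = 0 := by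
          rw [h3, h2]; simp
        exact this
      exact h4) (fun v hv => by
      refine indep μ (fun i : Fin m => n i) (fun i => ρ i) (fun i => hρ _) (fun i => hirr _) (fun i => hnt _)
        (fun i j hij => hne _ _ (fun h => hij (Fin.ext h))) v (fun g => ?_)
      have h := hv g
      simp only [hz] at h
      exact h)
  obtain ⟨K0, hK0⟩ := solver S μ Fm η hη hη2 κ hκ hκη
  refine ⟨K0, fun K hK => solv_of_real S (repRD n ρ) η κ hκ m K (fun b hb1 hb2 => ?_)⟩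
  obtain ⟨g, hg1, hg2⟩ := hK0 K hK b hb1 hb2
  have e : ∀ (α : {p : Fin m × Bool // p.2 = true → ¬ (repRD n ρ).sd p.1}) (P : 𝓟),
      (z α * (ρ α.1.1 (g P) : Matrix (Fin (n α.1.1)) (Fin (n α.1.1)) ℂ).trace).re =
      if α.1.2 then ((repRD n ρ).pw α.1.1 (g P) 1).im else ((repRD n ρ).pw α.1.1 (g P) 1).re := by
    intro α P
    rw [hz]
    simp [repRD, mat]
  refine ⟨g, fun α χ hχ => ?_, fun α χ hχ => ?_⟩
  · rw [← hg1 α χ hχ]
    refine Finset.sum_congr rfl fun P _ => ?_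
    rw [e]
  · refine le_trans (le_of_eq ?_) (hg2 α χ hχ)
    congr 1
    refine Finset.sum_congr rfl fun P _ => ?_
    rw [e]

/-- a sequence which is eventually `≤ k x^k`, `x < 1`, is bounded -/
theorem bdd_auxT (f : ℕ → ℝ) (hf : ∀ k, 0 ≤ f k) (x : ℝ) (hx0 : 0 < x) (hx1 : x < 1) (k0 : ℕ)
    (h : ∀ k, k0 ≤ k → f k ≤ k * x ^ k) : ∃ C : ℝ, ∀ k, f k ≤ C := by
  refine ⟨∑ k ∈ Finset.range k0, f k + 1 / (1 - x), fun k => ?_⟩
  have h1 : 0 ≤ ∑ k ∈ Finset.range k0, f k := Finset.sum_nonneg fun k _ => hf k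
  have h2 : 0 < 1 / (1 - x) := by
    have : 0 < 1 - x := by linarith
    positivity
  by_cases hk : k < k0
  · have := Finset.single_le_sum (f := f) (fun i _ => hf i) (Finset.mem_range.2 hk)
    linarith
  · push Not at hk
    have h3 : (k : ℝ) * x ^ k ≤ ∑ i ∈ Finset.range k, x ^ i := by
      rw [← nsmul_eq_mul]
      have := Finset.card_nsmul_le_sum (Finset.range k) (fun i => x ^ i) (x ^ k) (fun i hi =>
        pow_le_pow_of_le_one hx0.le hx1.le (Finset.mem_range.1 hi).le)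
      simpa using this
    have h4 : ∑ i ∈ Finset.range k, x ^ i ≤ 1 / (1 - x) := by
      rw [geom_sum_eq hx1.ne, ← neg_div_neg_eq, neg_sub, neg_sub]
      have : 0 < 1 - x := by linarith
      gcongr
      have : 0 < x ^ k := by positivity
      linarith
    linarith [h k hk]

theorem mainT {𝓟 𝓧 : Type} (S : TSys 𝓟 𝓧) {δ : ℝ} (hδ : 0 < δ) :
    ∃ ν : ℕ, ∀ (G : Type) [Group G] [TopologicalSpace G] [IsTopologicalGroup G] [CompactSpace G] [T2Space G],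
    Dense ((Subgroup.closure {g : G | ∃ x : ℝ → G, Continuous x ∧ (∀ s t, x (s + t) = x s * x t) ∧ x 1 = g} :
      Subgroup G) : Set G) →
    ∀ (n : ℕ → ℕ) (ρ : (i : ℕ) → G →* Matrix.unitaryGroup (Fin (n i)) ℂ), (∀ i, Continuous (ρ i)) →
    (∀ i, Irr (ρ i)) → (∀ i, ∃ g, ρ i g ≠ 1) →
    (∀ i j, i ≠ j → ¬ Equi (mat (ρ i)) (mat (ρ j)) ∧ ¬ Equi (mat (ρ i)) (cmat (ρ j))) →
    ∀ d0 : ℕ, ∃ N0 : ℕ → ℕ, ∀ (N : ℕ → 𝓧 → ℕ) (W : ℕ → 𝓧 → ℂ),
    (∀ i χ, ν * (S.c χ + 1) + N0 i ≤ N i χ) → (∀ i χ, S.per χ ∣ N i χ) → (∀ i χ, ‖W i χ‖ = 1) →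
    (∀ i, Equi (mat (ρ i)) (cmat (ρ i)) → ∀ χ, N i (S.bar χ) = N i χ ∧ W i (S.bar χ) = starRingEnd ℂ (W i χ)) →
    ∀ g0 : 𝓟 → G, ∃ g : 𝓟 → G, (∀ P, S.deg P ≤ d0 → g P = g0 P) ∧
      ∀ (i : ℕ) (χ : 𝓧), ∃ a : ℕ → ℂ, a 0 = 1 ∧ a (N i χ) = W i χ * ((√(S.q : ℝ) ^ N i χ : ℝ) : ℂ) ∧
        (∀ j, N i χ < j → a j = 0) ∧
        (∀ u : ℂ, u ≠ 0 → ∑ j ∈ Finset.range (N i χ + 1), a j * u ^ j =
          W i χ * ((√(S.q : ℝ) : ℝ) * u) ^ N i χ *
            starRingEnd ℂ (∑ j ∈ Finset.range (N i χ + 1), a j * (1 / (S.q * starRingEnd ℂ u)) ^ j)) ∧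
        (∀ u : ℂ, ‖u‖ < (S.q : ℝ) ^ (-(1 / 2 + δ)) → ∑ j ∈ Finset.range (N i χ + 1), a j * u ^ j ≠ 0) ∧
        ∀ u : ℂ, ‖u‖ < 1 / S.q → HasProd (fun P : 𝓟 =>
          ∏ j, (1 - (S.par χ P j * u ^ S.deg P) • mat (ρ i) (g P)).det⁻¹)
          (∑ j ∈ Finset.range (N i χ + 1), a j * u ^ j) := by
  classical
  have hq2 : (2 : ℝ) ≤ (S.q : ℝ) := by exact_mod_cast S.hq
  have hq0 : (0 : ℝ) < (S.q : ℝ) := by linarith
  have hq1 : (1 : ℝ) < (S.q : ℝ) := by linarith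
  obtain ⟨η, hη0, hη1, hη2⟩ : ∃ η : ℝ, 0 < η ∧ 5 * η ≤ δ ∧ η ≤ 1 / 64 :=
    ⟨min (δ / 5) (1 / 64), by positivity, by linarith [min_le_left (δ / 5) (1 / 64 : ℝ)], min_le_right _ _⟩
  obtain ⟨κ, ν, hκ, hκη, hpar⟩ := params S.q S.hq η hη0 S.a
  refine ⟨ν, fun G _ _ _ _ _ hgen n ρ hρ hirr hnt hne d0 => ?_⟩
  obtain ⟨M, hM1, hM2⟩ := exists_M (fun m => solv_exists S hgen n ρ hρ hirr hnt hne hη0 hη2 hκ hκη m) d0
  have hH : ∀ i, ∃ kb N0 : ℕ, M i ≤ kb ∧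
      NumT S.q η κ ν (2 + 2 * (repRD n ρ).n i * S.R * (1 + S.A) * (S.q : ℝ) ^ M i) kb N0 := fun i =>
    hpar _ _ (by positivity)
  choose kb N0 hkb hNum using hH
  refine ⟨N0, fun N W hN hNp hW hsd g0 => ?_⟩
  obtain ⟨g, hg0, hG⟩ := limit (S := S) (D := repRD n ρ) g0 hη0 hκ hM1 hkb hNum hN hNp hW hsd hM2
  refine ⟨g, hg0, fun i χ => ?_⟩
  obtain ⟨hN2, -⟩ := (hNum i).core (S.c χ) (N i χ) (hN i χ)
  have hkb1 := (hNum i).kb1
  have hk1 : 1 ≤ κ * (S.c χ + 1) + kb i := by omega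
  obtain ⟨T, hT⟩ : ∃ T, T = S.TS (fun P => (repRD n ρ).pw i (g P)) χ := ⟨_, rfl⟩
  obtain ⟨a, ha⟩ : ∃ a, a = FF.LL S.q T (κ * (S.c χ + 1) + kb i) (N i χ) (W i χ) := ⟨_, rfl⟩
  have ha0 : a 0 = 1 := by rw [ha]; exact FF.LL_zero _ _ _ _ _ hk1 hN2
  have hasupp : ∀ j, N i χ < j → a j = 0 := fun j hj => by rw [ha]; exact FF.LL_supp _ _ _ _ _ hN2 j hj
  have hld : ∀ k, k ≠ 0 → T k = FF.ldc a k := by
    intro k hk
    by_cases hkk : k < κ * (S.c χ + 1) + kb i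
    · rw [ha]
      exact (FF.ldc_low _ _ _ _ _ hN2 k (Nat.one_le_iff_ne_zero.2 hk) hkk).symm
    · push Not at hkk
      rw [ha, hT]
      exact (hG (k + 1)).eqn i χ k hkk (Nat.lt_succ_self k)
  have hrec : ∀ k : ℕ, (k : ℂ) * a k = ∑ j ∈ Finset.range k, T (j + 1) * a (k - 1 - j) := by
    intro k
    rw [FF.ldc_rec a ha0 k]
    exact Finset.sum_congr rfl fun j _ => by rw [hld (j + 1) (Nat.succ_ne_zero j)]
  refine ⟨a, ha0, ?_, hasupp, fun u hu => ?_, fun u hu => ?_, fun u hu => ?_⟩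
  · rw [ha]
    unfold FF.LL
    rw [if_neg (by omega), if_pos ⟨le_rfl, by omega⟩]
    simp [FF.expc_zero]
  · rw [ha]
    exact FF.LL_FE _ S.hq _ _ _ _ (hW i χ) hN2 u hu
  · -- no zeros
    set x : ℝ := (S.q : ℝ) ^ (-η) with hx
    have hx0 : 0 < x := Real.rpow_pos_of_pos hq0 _
    have hx1 : x < 1 := Real.rpow_lt_one_of_one_lt_of_neg hq1 (by linarith)
    set y : ℝ := (S.q : ℝ) ^ (1 / 2 + 5 * η) with hy
    have hy0 : 0 < y := Real.rpow_pos_of_pos hq0 _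
    obtain ⟨C, hC⟩ := bdd_auxT (fun k => ‖T k‖ / y ^ k) (fun k => by positivity) x hx0 hx1
      (κ * (S.c χ + 1) + kb i) (fun k hk => by
      rw [div_le_iff₀ (by positivity)]
      have h1 := ldc_big hη0 (hG k) i χ (hNum i) (hN i χ) (hW i χ) hk le_rfl
      rw [hld k (by omega), ha, hT]
      refine h1.trans (le_of_eq ?_)
      rw [mul_assoc, ← mul_pow]
      congr 1
      rw [hx, hy, ← Real.rpow_add hq0, ← Real.rpow_natCast, ← Real.rpow_mul hq0.le]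
      congr 1
      ring)
    have hTb : ∀ k : ℕ, ‖T (k + 1)‖ ≤ C * y ^ (k + 1) := fun k => by
      have := hC (k + 1)
      rwa [div_le_iff₀ (by positivity)] at this
    rw [← FF.exp_eq y hy0 C T a (N i χ) ha0 hasupp hTb hrec u (by
      refine lt_of_lt_of_le hu ?_
      have e : 1 / y = (S.q : ℝ) ^ (-(1 / 2 + 5 * η)) := by
        rw [hy, Real.rpow_neg hq0.le, ← one_div]
      rw [e]
      exact Real.rpow_le_rpow_of_exponent_le hq1.le (by linarith))]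
    exact Complex.exp_ne_zero _
  · have hE : ∀ P : 𝓟, ∃ α : Fin (n i) → ℂ, (∀ l, ‖α l‖ = 1) ∧
        (∀ e : ℕ, ((mat (ρ i) (g P)) ^ e).trace = ∑ l, α l ^ e) ∧
        ∀ z : ℂ, (1 - z • mat (ρ i) (g P)).det = ∏ l, (1 - α l * z) := fun P => unitary_eig (ρ i (g P))
    choose α hα1 hα2 hα3 using hE
    have h := eulerT S α (fun P l => (hα1 P l).le) χ a T (N i χ) ha0 hasupp (fun k _ => by
      rw [hT]
      congr 1
      funext P e
      exact hα2 P e) hrec u hu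
    convert h using 2 with P
    refine Finset.prod_congr rfl fun j _ => ?_
    rw [hα3, ← Finset.prod_inv_distrib]

end Pool.Agent.H497.TT
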