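import Pool.Agent.H497.TT.Defs

set_option autoImplicit false



namespace Pool.Agent.H497.TT

open MeasureTheory



section coreAux

variable {G 𝓟 J ι : Type} [MeasurableSpace G] {μ : Measure G} [Fintype ι] [DecidableEq ι] [Fintype J]
    {s : ℕ} {f : ι → G → ℝ}

/-- the perturbation attached to `x` -/
noncomputable def ctt (Fm : Fam μ ι s f) (g0 : 𝓟 → G) (ev : J → 𝓟 → ℂ) (x : ι → J → ℂ) (P : 𝓟)
    (i : Fin s) : ℝ :=
  (∑ α, ∑ j, (Fm.e α i (g0 P) : ℂ) * (x α j * starRingEnd ℂ (ev j P))).re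

/-- symmetric vectors -/
def CSym (bar : J → J) (x : ι → J → ℂ) : Prop := ∀ α j, x α (bar j) = starRingEnd ℂ (x α j)

omit [DecidableEq ι] in
theorem ele_le (x : ι → J → ℂ) (α : ι) (j : J) : ‖x α j‖ ≤ ‖x‖ :=
  (norm_le_pi_norm (x α) j).trans (norm_le_pi_norm x α)

theorem ctt_norm (Fm : Fam μ ι s f) (g0 : 𝓟 → G) (ev : J → 𝓟 → ℂ) {R : ℝ} (hR : 0 ≤ R)
    (hevR : ∀ j P, ‖ev j P‖ ≤ R) (x : ι → J → ℂ) (P : 𝓟) :
    ‖ctt Fm g0 ev x P‖ ≤ Fintype.card ι * Fintype.card J * Fm.B * R * ‖x‖ := by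
  have hB : 0 ≤ Fm.B := zero_le_one.trans Fm.B1
  rw [pi_norm_le_iff_of_nonneg (by positivity)]
  intro i
  rw [Real.norm_eq_abs]
  refine (Complex.abs_re_le_norm _).trans ?_
  have h1 : ∀ α ∈ (Finset.univ : Finset ι),
      ‖∑ j, (Fm.e α i (g0 P) : ℂ) * (x α j * starRingEnd ℂ (ev j P))‖ ≤
        Fintype.card J * (Fm.B * (‖x‖ * R)) := by
    intro α _
    refine (norm_sum_le _ _).trans ?_
    have h2 : ∀ j ∈ (Finset.univ : Finset J),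
        ‖(Fm.e α i (g0 P) : ℂ) * (x α j * starRingEnd ℂ (ev j P))‖ ≤ Fm.B * (‖x‖ * R) := by
      intro j _
      rw [norm_mul, norm_mul, RCLike.norm_conj, Complex.norm_real, Real.norm_eq_abs]
      exact mul_le_mul (Fm.e_le α i (g0 P))
        (mul_le_mul (ele_le x α j) (hevR j P) (norm_nonneg _) (norm_nonneg _))
        (by positivity) hB
    refine (Finset.sum_le_card_nsmul _ _ _ h2).trans ?_
    rw [nsmul_eq_mul, Finset.card_univ]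
  refine (norm_sum_le _ _).trans ((Finset.sum_le_card_nsmul _ _ _ h1).trans ?_)
  rw [nsmul_eq_mul, Finset.card_univ]
  apply le_of_eq
  ring

theorem ctt_sub (Fm : Fam μ ι s f) (g0 : 𝓟 → G) (ev : J → 𝓟 → ℂ) (x x' : ι → J → ℂ) (P : 𝓟)
    (i : Fin s) : ctt Fm g0 ev (x - x') P i = ctt Fm g0 ev x P i - ctt Fm g0 ev x' P i := by
  unfold ctt
  rw [← Complex.sub_re, ← Finset.sum_sub_distrib]
  congr 1
  refine Finset.sum_congr rfl fun α _ => ?_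
  rw [← Finset.sum_sub_distrib]
  refine Finset.sum_congr rfl fun j _ => ?_
  rw [Pi.sub_apply, Pi.sub_apply]
  ring

theorem ctt_zero (Fm : Fam μ ι s f) (g0 : 𝓟 → G) (ev : J → 𝓟 → ℂ) (P : 𝓟) :
    ctt Fm g0 ev (0 : ι → J → ℂ) P = 0 := by
  funext i
  unfold ctt
  simp

theorem ctt_real (Fm : Fam μ ι s f) (g0 : 𝓟 → G) (ev : J → 𝓟 → ℂ) {bar : J → J}
    (hbb : ∀ j, bar (bar j) = j) (hev : ∀ j P, ev (bar j) P = starRingEnd ℂ (ev j P))
    {x : ι → J → ℂ} (hx : CSym bar x) (P : 𝓟) (i : Fin s) :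
    (ctt Fm g0 ev x P i : ℂ) =
      ∑ α, ∑ j, (Fm.e α i (g0 P) : ℂ) * (x α j * starRingEnd ℂ (ev j P)) := by
  unfold ctt
  rw [← Complex.conj_eq_iff_re, map_sum]
  refine Finset.sum_congr rfl fun α _ => ?_
  rw [map_sum]
  let e : J ≃ J := ⟨bar, bar, hbb, hbb⟩
  refine Fintype.sum_equiv e _ _ fun j => ?_
  show starRingEnd ℂ ((Fm.e α i (g0 P) : ℂ) * (x α j * starRingEnd ℂ (ev j P))) =
    (Fm.e α i (g0 P) : ℂ) * (x α (bar j) * starRingEnd ℂ (ev (bar j) P))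
  rw [map_mul, map_mul, Complex.conj_ofReal, hx α j, hev j P]

/-- the twisted sums of the perturbed function -/
noncomputable def cF (Fm : Fam μ ι s f) (Q : Finset 𝓟) (g0 : 𝓟 → G) (ev : J → 𝓟 → ℂ)
    (x : ι → J → ℂ) (α : ι) (j : J) : ℂ :=
  ∑ P ∈ Q, (f α (Fm.cp (g0 P) (ctt Fm g0 ev x P)) : ℂ) * ev j P

theorem lin_eq (Fm : Fam μ ι s f) (Q : Finset 𝓟) (g0 : 𝓟 → G) (ev : J → 𝓟 → ℂ) {bar : J → J}
    (hbb : ∀ j, bar (bar j) = j) (hev : ∀ j P, ev (bar j) P = starRingEnd ℂ (ev j P))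
    {y : ι → J → ℂ} (hy : CSym bar y) (α : ι) (j : J) :
    ∑ P ∈ Q, ((∑ i, Fm.d α i (g0 P) * ctt Fm g0 ev y P i : ℝ) : ℂ) * ev j P =
      ∑ α', ∑ j', y α' j' * ∑ P ∈ Q,
        (((∑ i, Fm.d α i (g0 P) * Fm.e α' i (g0 P)) - (if α = α' then 1 else 0) : ℝ) : ℂ) *
          (ev j P * starRingEnd ℂ (ev j' P)) +
      ∑ j', y α j' * ∑ P ∈ Q, ev j P * starRingEnd ℂ (ev j' P) := by
  have h1 : ∀ P, ((∑ i, Fm.d α i (g0 P) * ctt Fm g0 ev y P i : ℝ) : ℂ) * ev j P =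
      ∑ α', ∑ j', y α' j' * (((∑ i, Fm.d α i (g0 P) * Fm.e α' i (g0 P) : ℝ) : ℂ) *
        (ev j P * starRingEnd ℂ (ev j' P))) := by
    intro P
    rw [Complex.ofReal_sum]
    have h2 : ∀ i, ((Fm.d α i (g0 P) * ctt Fm g0 ev y P i : ℝ) : ℂ) =
        ∑ α', ∑ j', (Fm.d α i (g0 P) : ℂ) * ((Fm.e α' i (g0 P) : ℂ) *
          (y α' j' * starRingEnd ℂ (ev j' P))) := by
      intro i
      rw [Complex.ofReal_mul, ctt_real Fm g0 ev hbb hev hy, Finset.mul_sum]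
      exact Finset.sum_congr rfl fun α' _ => Finset.mul_sum _ _ _
    rw [Finset.sum_congr rfl fun i _ => h2 i, Finset.sum_comm, Finset.sum_mul]
    refine Finset.sum_congr rfl fun α' _ => ?_
    rw [Finset.sum_comm, Finset.sum_mul]
    refine Finset.sum_congr rfl fun j' _ => ?_
    rw [Complex.ofReal_sum, Finset.sum_mul, Finset.sum_mul, Finset.mul_sum]
    refine Finset.sum_congr rfl fun i _ => ?_
    rw [Complex.ofReal_mul]
    ring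
  rw [Finset.sum_congr rfl fun P _ => h1 P, Finset.sum_comm]
  have h3 : ∀ α', ∑ P ∈ Q, ∑ j', y α' j' *
      (((∑ i, Fm.d α i (g0 P) * Fm.e α' i (g0 P) : ℝ) : ℂ) * (ev j P * starRingEnd ℂ (ev j' P))) =
      ∑ j', y α' j' * ∑ P ∈ Q,
        (((∑ i, Fm.d α i (g0 P) * Fm.e α' i (g0 P)) - (if α = α' then 1 else 0) : ℝ) : ℂ) *
          (ev j P * starRingEnd ℂ (ev j' P)) +
      (if α = α' then ∑ j', y α j' * ∑ P ∈ Q, ev j P * starRingEnd ℂ (ev j' P) else 0) := by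
    intro α'
    rw [Finset.sum_comm]
    by_cases h : α = α'
    · subst h
      rw [if_pos rfl, if_pos rfl, ← Finset.sum_add_distrib]
      refine Finset.sum_congr rfl fun j' _ => ?_
      rw [← mul_add, ← Finset.sum_add_distrib, Finset.mul_sum]
      refine Finset.sum_congr rfl fun P _ => ?_
      rw [Complex.ofReal_sub, Complex.ofReal_one]
      ring
    · rw [if_neg h, if_neg h, add_zero]
      refine Finset.sum_congr rfl fun j' _ => ?_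
      rw [Finset.mul_sum]
      refine Finset.sum_congr rfl fun P _ => ?_
      rw [sub_zero]
  rw [Finset.sum_congr rfl fun α' _ => h3 α', Finset.sum_add_distrib, Finset.sum_ite_eq,
    if_pos (Finset.mem_univ α)]

omit [Fintype J] in
theorem diag_eq (Q : Finset 𝓟) (ev : J → 𝓟 → ℂ) (j : J) :
    ∑ P ∈ Q, ev j P * starRingEnd ℂ (ev j P) = ((∑ P ∈ Q, ‖ev j P‖ ^ 2 : ℝ) : ℂ) := by
  rw [Complex.ofReal_sum]
  refine Finset.sum_congr rfl fun P _ => ?_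
  rw [Complex.mul_conj, Complex.normSq_eq_norm_sq]

/-- the main estimate -/
theorem main_est (Fm : Fam μ ι s f) (Q : Finset 𝓟) (g0 : 𝓟 → G) (ev : J → 𝓟 → ℂ) {bar : J → J}
    (hbb : ∀ j, bar (bar j) = j) (hev : ∀ j P, ev (bar j) P = starRingEnd ℂ (ev j P))
    {R D u ρ c1 : ℝ} (hR : 0 ≤ R)
    (hevR : ∀ j P, ‖ev j P‖ ≤ R) (hu : 0 ≤ u) (hρ : 0 ≤ ρ)
    (horth : ∀ j j', j ≠ j' → ‖∑ P ∈ Q, ev j P * starRingEnd ℂ (ev j' P)‖ ≤ u)
    (hfl : ∀ α α' j j', ‖∑ P ∈ Q, (((∑ i, Fm.d α i (g0 P) * Fm.e α' i (g0 P)) - (if α = α' then 1 else 0) : ℝ) : ℂ) *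
      (ev j P * starRingEnd ℂ (ev j' P))‖ ≤ u)
    (hc1 : c1 = Fintype.card ι * Fintype.card J * Fm.B * R) (hc1ρ : c1 * ρ ≤ 1)
    (h1 : 2 * u * (Fintype.card ι * Fintype.card J) ≤ D / 4)
    (h2 : Q.card * R * Fm.B * c1 ^ 2 * ρ ≤ D / 4)
    {x x' : ι → J → ℂ} (hx : CSym bar x) (hx' : CSym bar x') (hxρ : ‖x‖ ≤ ρ) (hxρ' : ‖x'‖ ≤ ρ)
    (α : ι) (j : J) :
    ‖cF Fm Q g0 ev x α j - cF Fm Q g0 ev x' α j -
      ((∑ P ∈ Q, ‖ev j P‖ ^ 2 : ℝ) : ℂ) * (x α j - x' α j)‖ ≤ D / 2 * ‖x - x'‖ := by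
  classical
  set y : ι → J → ℂ := x - x' with hy
  have hB : 0 ≤ Fm.B := zero_le_one.trans Fm.B1
  have hc0 : 0 ≤ c1 := by rw [hc1]; positivity
  have hyS : CSym bar y := by
    intro a k
    show x a (bar k) - x' a (bar k) = starRingEnd ℂ (x a k - x' a k)
    rw [hx, hx', map_sub]
  have hy0 : 0 ≤ ‖y‖ := norm_nonneg _
  have ht : ∀ z : ι → J → ℂ, ‖z‖ ≤ ρ → ∀ P, ‖ctt Fm g0 ev z P‖ ≤ c1 * ρ := by
    intro z hz P
    refine (ctt_norm Fm g0 ev hR hevR z P).trans ?_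
    rw [← hc1]
    exact mul_le_mul_of_nonneg_left hz hc0
  have hty : ∀ P, ‖ctt Fm g0 ev x P - ctt Fm g0 ev x' P‖ ≤ c1 * ‖y‖ := by
    intro P
    have h3 : ctt Fm g0 ev x P - ctt Fm g0 ev x' P = ctt Fm g0 ev y P := by
      funext i
      rw [Pi.sub_apply, hy, ctt_sub]
    rw [h3]
    refine (ctt_norm Fm g0 ev hR hevR y P).trans ?_
    rw [← hc1]
  -- the remainder
  set r : 𝓟 → ℝ := fun P => f α (Fm.cp (g0 P) (ctt Fm g0 ev x P)) -
    f α (Fm.cp (g0 P) (ctt Fm g0 ev x' P)) - ∑ i, Fm.d α i (g0 P) * ctt Fm g0 ev y P i with hr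
  have hrle : ∀ P, |r P| ≤ Fm.B * (c1 * ρ) * (c1 * ‖y‖) := by
    intro P
    have h3 := Fm.lip α (g0 P) (ctt Fm g0 ev x P) (ctt Fm g0 ev x' P)
      ((ht x hxρ P).trans hc1ρ) ((ht x' hxρ' P).trans hc1ρ)
    have h4 : ∑ i, Fm.d α i (g0 P) * ctt Fm g0 ev y P i =
        ∑ i, Fm.d α i (g0 P) * (ctt Fm g0 ev x P i - ctt Fm g0 ev x' P i) :=
      Finset.sum_congr rfl fun i _ => by rw [hy, ctt_sub]
    rw [hr]
    simp only
    rw [h4]
    refine h3.trans ?_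
    refine mul_le_mul (mul_le_mul_of_nonneg_left (max_le (ht x hxρ P) (ht x' hxρ' P)) hB)
      (hty P) (norm_nonneg _) (by positivity)
  have h5 : cF Fm Q g0 ev x α j - cF Fm Q g0 ev x' α j =
      ∑ P ∈ Q, ((∑ i, Fm.d α i (g0 P) * ctt Fm g0 ev y P i : ℝ) : ℂ) * ev j P +
      ∑ P ∈ Q, (r P : ℂ) * ev j P := by
    unfold cF
    rw [← Finset.sum_sub_distrib, ← Finset.sum_add_distrib]
    refine Finset.sum_congr rfl fun P _ => ?_
    rw [hr]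
    push_cast
    ring
  have h6 : ∑ j', y α j' * ∑ P ∈ Q, ev j P * starRingEnd ℂ (ev j' P) =
      ∑ j' ∈ Finset.univ.erase j, y α j' * ∑ P ∈ Q, ev j P * starRingEnd ℂ (ev j' P) +
      ((∑ P ∈ Q, ‖ev j P‖ ^ 2 : ℝ) : ℂ) * (x α j - x' α j) := by
    rw [← Finset.sum_erase_add _ _ (Finset.mem_univ j), diag_eq, mul_comm (y α j)]
    rfl
  rw [h5, lin_eq Fm Q g0 ev hbb hev hyS, h6]
  set A1 := ∑ α', ∑ j', y α' j' * ∑ P ∈ Q,
        (((∑ i, Fm.d α i (g0 P) * Fm.e α' i (g0 P)) - (if α = α' then 1 else 0) : ℝ) : ℂ) *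
          (ev j P * starRingEnd ℂ (ev j' P)) with hA1
  set A2 := ∑ j' ∈ Finset.univ.erase j, y α j' * ∑ P ∈ Q, ev j P * starRingEnd ℂ (ev j' P) with hA2
  set A3 := ∑ P ∈ Q, (r P : ℂ) * ev j P with hA3
  have h7 : A1 + (A2 + ((∑ P ∈ Q, ‖ev j P‖ ^ 2 : ℝ) : ℂ) * (x α j - x' α j)) + A3 -
      ((∑ P ∈ Q, ‖ev j P‖ ^ 2 : ℝ) : ℂ) * (x α j - x' α j) = A1 + A2 + A3 := by ring
  rw [h7]
  have hcι : (1 : ℝ) ≤ Fintype.card ι := by
    exact_mod_cast Fintype.card_pos_iff.2 ⟨α⟩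
  have b1 : ‖A1‖ ≤ Fintype.card ι * Fintype.card J * (‖y‖ * u) := by
    have h8 : ∀ α' ∈ (Finset.univ : Finset ι), ‖∑ j', y α' j' * ∑ P ∈ Q,
        (((∑ i, Fm.d α i (g0 P) * Fm.e α' i (g0 P)) - (if α = α' then 1 else 0) : ℝ) : ℂ) *
          (ev j P * starRingEnd ℂ (ev j' P))‖ ≤ Fintype.card J * (‖y‖ * u) := by
      intro α' _
      refine (norm_sum_le _ _).trans ?_
      have h9 : ∀ j' ∈ (Finset.univ : Finset J), ‖y α' j' * ∑ P ∈ Q,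
        (((∑ i, Fm.d α i (g0 P) * Fm.e α' i (g0 P)) - (if α = α' then 1 else 0) : ℝ) : ℂ) *
          (ev j P * starRingEnd ℂ (ev j' P))‖ ≤ ‖y‖ * u := by
        intro j' _
        rw [norm_mul]
        exact mul_le_mul (ele_le y α' j') (hfl α α' j j') (norm_nonneg _) hy0
      refine (Finset.sum_le_card_nsmul _ _ _ h9).trans ?_
      rw [nsmul_eq_mul, Finset.card_univ]
    refine (norm_sum_le _ _).trans ((Finset.sum_le_card_nsmul _ _ _ h8).trans ?_)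
    rw [nsmul_eq_mul, Finset.card_univ, mul_assoc]
  have b2 : ‖A2‖ ≤ Fintype.card ι * Fintype.card J * (‖y‖ * u) := by
    have h8 : ∀ j' ∈ (Finset.univ : Finset J).erase j,
        ‖y α j' * ∑ P ∈ Q, ev j P * starRingEnd ℂ (ev j' P)‖ ≤ ‖y‖ * u := by
      intro j' hj'
      rw [norm_mul]
      exact mul_le_mul (ele_le y α j') (horth j j' (Finset.ne_of_mem_erase hj').symm)
        (norm_nonneg _) hy0
    refine (norm_sum_le _ _).trans ((Finset.sum_le_card_nsmul _ _ _ h8).trans ?_)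
    rw [nsmul_eq_mul]
    have h9 : (((Finset.univ : Finset J).erase j).card : ℝ) ≤ Fintype.card J := by
      exact_mod_cast (Finset.card_le_univ _)
    have h10 : (Fintype.card J : ℝ) ≤ Fintype.card ι * Fintype.card J :=
      le_mul_of_one_le_left (Nat.cast_nonneg _) hcι
    exact mul_le_mul_of_nonneg_right (h9.trans h10) (mul_nonneg hy0 hu)
  have b3 : ‖A3‖ ≤ Q.card * R * Fm.B * c1 ^ 2 * ρ * ‖y‖ := by
    have h8 : ∀ P ∈ Q, ‖(r P : ℂ) * ev j P‖ ≤ Fm.B * (c1 * ρ) * (c1 * ‖y‖) * R := by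
      intro P _
      rw [norm_mul, Complex.norm_real, Real.norm_eq_abs]
      exact mul_le_mul (hrle P) (hevR j P) (norm_nonneg _) (by positivity)
    refine (norm_sum_le _ _).trans ((Finset.sum_le_card_nsmul _ _ _ h8).trans ?_)
    rw [nsmul_eq_mul]
    apply le_of_eq
    ring
  have b3' : Q.card * R * Fm.B * c1 ^ 2 * ρ * ‖y‖ ≤ D / 4 * ‖y‖ :=
    mul_le_mul_of_nonneg_right h2 hy0
  have b12 : 2 * u * (Fintype.card ι * Fintype.card J) * ‖y‖ ≤ D / 4 * ‖y‖ :=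
    mul_le_mul_of_nonneg_right h1 hy0
  have b4 := norm_add₃_le (a := A1) (b := A2) (c := A3)
  nlinarith

end coreAux

/-- Banach's fixed point theorem. For `x : ι → J → ℂ` let `t_x(P)_i = Re ∑_{α,j} e_{α,i}(g0 P) x_{α,j} conj(ev_j P)`, so
`‖t_x P‖ ≤ c1 ‖x‖`, and `F(x)_{α,j} = ∑_{P ∈ Q} f_α(cp (g0 P) (t_x P)) ev_j P`. Call `x` symmetric if
`x_{α,bar j} = conj x_{α,j}`; for symmetric `x` the sum in `t_x(P)_i` is real (reindex by `bar`), and `F(x)` is symmetric.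
Let `D_j = ∑_P ‖ev_j P‖^2 ≥ D` (`D_{bar j} = D_j`) and `Φ(x)_{α,j} = x_{α,j} - (F(x)_{α,j} - b_{α,j}) / D_j`.
For symmetric `x, x'` with `‖x‖, ‖x'‖ ≤ ρ` (sup norms; `c1 ρ ≤ 1`), `y = x - x'`:
`F(x) - F(x') = ∑_P ev_j P ∑_i d_{α,i}(g0 P)(t_x - t_x')_i + err`, `|err| ≤ card(Q) R B (c1 ρ)(c1 ‖y‖)` by `lip`, and the
sum is `∑_{α',j'} y_{α',j'} ∑_P (∑_i d_{α,i} e_{α',i})(g0 P) ev_j P conj(ev_{j'} P) = D_j y_{α,j} + rest`, where
`|rest| ≤ card(ι) card(J) (2u) ‖y‖` by `horth` (for `α' = α`, `j' ≠ j`) and `hfl` (for all). So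
`‖Φ(x) - Φ(x')‖ ≤ (2 u card(ι) card(J) + card(Q) R B c1^2 ρ) / D ‖y‖ ≤ ‖y‖ / 2`, and `‖Φ(0)‖ ≤ ρ/2` by `hbase` (`cp g 0 = g`).
So `Φ` maps the closed (complete) set of the symmetric `x` with `‖x‖ ≤ ρ` to itself and is a contraction there
(`ContractingWith.exists_fixedPoint'`); a fixed point solves `F(x) = b`. -/
theorem coreSolve {G 𝓟 J ι : Type} [MeasurableSpace G] (μ : Measure G) [Fintype ι] [DecidableEq ι] [Fintype J]
    {s : ℕ} {f : ι → G → ℝ} (Fm : Fam μ ι s f) (Q : Finset 𝓟) (g0 : 𝓟 → G)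
    (ev : J → 𝓟 → ℂ) (bar : J → J) (hbb : ∀ j, bar (bar j) = j)
    (hev : ∀ j P, ev (bar j) P = starRingEnd ℂ (ev j P)) (R D u ρ c1 : ℝ) (hR : 0 ≤ R)
    (hevR : ∀ j P, ‖ev j P‖ ≤ R) (hD : 0 < D) (hu : 0 ≤ u) (hρ : 0 ≤ ρ)
    (hdiag : ∀ j, D ≤ ∑ P ∈ Q, ‖ev j P‖ ^ 2)
    (horth : ∀ j j', j ≠ j' → ‖∑ P ∈ Q, ev j P * starRingEnd ℂ (ev j' P)‖ ≤ u)
    (hfl : ∀ α α' j j', ‖∑ P ∈ Q, (((∑ i, Fm.d α i (g0 P) * Fm.e α' i (g0 P)) - (if α = α' then 1 else 0) : ℝ) : ℂ) *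
      (ev j P * starRingEnd ℂ (ev j' P))‖ ≤ u)
    (b : ι → J → ℂ) (hb : ∀ α j, b α (bar j) = starRingEnd ℂ (b α j))
    (hbase : ∀ α j, ‖∑ P ∈ Q, (f α (g0 P) : ℂ) * ev j P - b α j‖ ≤ D * ρ / 2)
    (hc1 : c1 = Fintype.card ι * Fintype.card J * Fm.B * R) (hc1ρ : c1 * ρ ≤ 1)
    (h1 : 2 * u * (Fintype.card ι * Fintype.card J) ≤ D / 4)
    (h2 : Q.card * R * Fm.B * c1 ^ 2 * ρ ≤ D / 4) :
    ∃ (x : ι → J → ℂ) (t : 𝓟 → Fin s → ℝ), (∀ α j, ‖x α j‖ ≤ ρ) ∧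
      (∀ P i, (t P i : ℂ) = ∑ α, ∑ j, (Fm.e α i (g0 P) : ℂ) * (x α j * starRingEnd ℂ (ev j P))) ∧
      (∀ P, ‖t P‖ ≤ c1 * ρ) ∧
      ∀ α j, ∑ P ∈ Q, (f α (Fm.cp (g0 P) (t P)) : ℂ) * ev j P = b α j := by
  classical
  have hB : 0 ≤ Fm.B := zero_le_one.trans Fm.B1
  have hc0 : 0 ≤ c1 := by rw [hc1]; positivity
  set Dj : J → ℝ := fun j => ∑ P ∈ Q, ‖ev j P‖ ^ 2 with hDj
  have hDpos : ∀ j, 0 < Dj j := fun j => lt_of_lt_of_le hD (hdiag j)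
  have hDbar : ∀ j, Dj (bar j) = Dj j := by
    intro j
    refine Finset.sum_congr rfl fun P _ => ?_
    rw [hev, RCLike.norm_conj]
  set Φ : (ι → J → ℂ) → (ι → J → ℂ) := fun x α j =>
    x α j - (cF Fm Q g0 ev x α j - b α j) / (Dj j : ℂ) with hΦ
  have hnD : ∀ j, ‖(Dj j : ℂ)‖ = Dj j := fun j => by
    rw [Complex.norm_real, Real.norm_eq_abs, abs_of_pos (hDpos j)]
  have hD0 : ∀ j, (Dj j : ℂ) ≠ 0 := fun j => by exact_mod_cast (hDpos j).ne'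
  have hsym : ∀ x, CSym bar x → CSym bar (Φ x) := by
    intro x hx α j
    have h3 : cF Fm Q g0 ev x α (bar j) = starRingEnd ℂ (cF Fm Q g0 ev x α j) := by
      unfold cF
      rw [map_sum]
      refine Finset.sum_congr rfl fun P _ => ?_
      rw [map_mul, Complex.conj_ofReal, hev]
    simp only [hΦ]
    rw [hx, h3, hb, hDbar, map_sub, map_div₀, map_sub, Complex.conj_ofReal]
  have hlip : ∀ x x', CSym bar x → CSym bar x' → ‖x‖ ≤ ρ → ‖x'‖ ≤ ρ →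
      ‖Φ x - Φ x'‖ ≤ 1 / 2 * ‖x - x'‖ := by
    intro x x' hx hx' hxρ hxρ'
    rw [pi_norm_le_iff_of_nonneg (by positivity)]
    intro α
    rw [pi_norm_le_iff_of_nonneg (by positivity)]
    intro j
    have h3 := main_est Fm Q g0 ev hbb hev hR hevR hu hρ horth hfl hc1 hc1ρ h1 h2 hx hx' hxρ hxρ' α j
    have h4 : (Φ x - Φ x') α j = -((cF Fm Q g0 ev x α j - cF Fm Q g0 ev x' α j -
        (Dj j : ℂ) * (x α j - x' α j)) / (Dj j : ℂ)) := by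
      rw [Pi.sub_apply, Pi.sub_apply]
      simp only [hΦ]
      have := hD0 j
      field_simp
      ring
    rw [h4, norm_neg, norm_div, hnD, div_le_iff₀ (hDpos j)]
    refine h3.trans ?_
    have h5 : D * ‖x - x'‖ ≤ Dj j * ‖x - x'‖ :=
      mul_le_mul_of_nonneg_right (hdiag j) (norm_nonneg _)
    linarith
  have hΦ0 : ‖Φ 0‖ ≤ ρ / 2 := by
    rw [pi_norm_le_iff_of_nonneg (by positivity)]
    intro α
    rw [pi_norm_le_iff_of_nonneg (by positivity)]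
    intro j
    have h3 : cF Fm Q g0 ev 0 α j = ∑ P ∈ Q, (f α (g0 P) : ℂ) * ev j P := by
      unfold cF
      refine Finset.sum_congr rfl fun P _ => ?_
      rw [ctt_zero, Fm.zero]
    have h4 : Φ 0 α j = -((∑ P ∈ Q, (f α (g0 P) : ℂ) * ev j P - b α j) / (Dj j : ℂ)) := by
      simp only [hΦ]
      rw [h3, Pi.zero_apply, Pi.zero_apply, zero_sub]
    rw [h4, norm_neg, norm_div, hnD, div_le_iff₀ (hDpos j)]
    refine (hbase α j).trans ?_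
    have h5 : D * ρ ≤ Dj j * ρ := mul_le_mul_of_nonneg_right (hdiag j) hρ
    linarith
  have hzero : CSym bar (0 : ι → J → ℂ) := by
    intro α j
    simp
  set S : Set (ι → J → ℂ) := {x | CSym bar x ∧ ‖x‖ ≤ ρ} with hS
  have hclosed : IsClosed S := by
    have e1 : S = (⋂ α, ⋂ j, {x : ι → J → ℂ | x α (bar j) = starRingEnd ℂ (x α j)}) ∩
        {x | ‖x‖ ≤ ρ} := by
      ext x
      simp only [hS, CSym, Set.mem_ofPred_eq, Set.mem_inter_iff, Set.mem_iInter]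
    rw [e1]
    refine IsClosed.inter (isClosed_iInter fun α => isClosed_iInter fun j => ?_)
      (isClosed_le continuous_norm continuous_const)
    refine isClosed_eq ?_ ?_
    · exact (continuous_apply (bar j)).comp (continuous_apply α)
    · exact Complex.continuous_conj.comp ((continuous_apply j).comp (continuous_apply α))
  have hmaps : Set.MapsTo Φ S S := by
    rintro x ⟨hx, hxρ⟩
    refine ⟨hsym x hx, ?_⟩
    have h3 := hlip x 0 hx hzero hxρ (by rw [norm_zero]; exact hρ)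
    rw [sub_zero] at h3
    have h4 : ‖Φ x‖ ≤ ‖Φ x - Φ 0‖ + ‖Φ 0‖ := by
      have := norm_add_le (Φ x - Φ 0) (Φ 0)
      rwa [sub_add_cancel] at this
    linarith
  have hcon : ContractingWith (1 / 2 : NNReal) (hmaps.restrict Φ S S) := by
    refine ⟨by norm_num, LipschitzWith.of_dist_le_mul fun x y => ?_⟩
    rw [Subtype.dist_eq, Subtype.dist_eq, dist_eq_norm, dist_eq_norm]
    have := hlip x y x.2.1 y.2.1 x.2.2 y.2.2
    exact this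
  obtain ⟨x, hxS, hfix, -⟩ := hcon.exists_fixedPoint' hclosed.isComplete hmaps
    (x := 0) ⟨hzero, by rw [norm_zero]; exact hρ⟩ (edist_ne_top _ _)
  refine ⟨x, ctt Fm g0 ev x, fun α j => (ele_le x α j).trans hxS.2,
    fun P i => ctt_real Fm g0 ev hbb hev hxS.1 P i, fun P => ?_, fun α j => ?_⟩
  · refine (ctt_norm Fm g0 ev hR hevR x P).trans ?_
    rw [← hc1]
    exact mul_le_mul_of_nonneg_left hxS.2 hc0
  · have h3 : Φ x α j = x α j := congrFun (congrFun hfix α) j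
    simp only [hΦ] at h3
    have h4 : (cF Fm Q g0 ev x α j - b α j) / (Dj j : ℂ) = 0 := by linear_combination -h3
    rcases div_eq_zero_iff.1 h4 with h5 | h5
    · exact sub_eq_zero.1 h5
    · exact absurd h5 (hD0 j)


end Pool.Agent.H497.TT
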