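import Pool.Agent.H497.FF.CDefs

set_option autoImplicit false

namespace Pool.Agent.H497.TT

open MeasureTheory

noncomputable section

/-- A system of places and twists. `𝓟` are places (`Pr k` those of degree `k`, about `q^k / k` of them), `𝓧` is a set
of twists of rank at most `R`: `par χ P j`, `j < R`, are the parameters of the local `L`-factor of `χ` at `P`,
`‖par χ P j‖ ≤ 1`, `bar χ` is the dual, `c χ` the size of the conductor, `per χ` the period (`per_zero`).  `orth` and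
`norm` are the bounds for the Rankin-Selberg sums which follow from the Riemann hypothesis, and `fin_card` bounds the
number of twists of bounded conductor. -/
structure TSys (𝓟 𝓧 : Type) where
  q : ℕ
  hq : 2 ≤ q
  A : ℕ
  hA : 1 ≤ A
  a : ℕ
  R : ℕ
  deg : 𝓟 → ℕ
  deg_pos : ∀ P, 1 ≤ deg P
  Pr : ℕ → Finset 𝓟
  mem_Pr : ∀ k P, P ∈ Pr k ↔ deg P = k
  Pr_card : ∀ k : ℕ, k ≠ 0 → |(k : ℝ) * (Pr k).card - (q : ℝ) ^ k| ≤ A * √(q : ℝ) ^ k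
  par : 𝓧 → 𝓟 → Fin R → ℂ
  par_le : ∀ χ P j, ‖par χ P j‖ ≤ 1
  bar : 𝓧 → 𝓧
  c : 𝓧 → ℕ
  per : 𝓧 → ℕ
  bar_bar : ∀ χ, bar (bar χ) = χ
  bar_c : ∀ χ, c (bar χ) = c χ
  bar_per : ∀ χ, per (bar χ) = per χ
  bar_par : ∀ χ P (e : ℕ), ∑ j, par (bar χ) P j ^ e = starRingEnd ℂ (∑ j, par χ P j ^ e)
  per_pos : ∀ χ, 1 ≤ per χ
  per_zero : ∀ χ P (e : ℕ), e ≠ 0 → ¬ per χ ∣ e * deg P → ∑ j, par χ P j ^ e = 0
  orth : ∀ χ χ' : 𝓧, χ ≠ χ' → ∀ k : ℕ, k ≠ 0 →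
    ‖∑ P ∈ Pr k, (∑ j, par χ P j) * starRingEnd ℂ (∑ j, par χ' P j)‖ ≤
      A * ((c χ : ℝ) + c χ' + 2) * √(q : ℝ) ^ k
  norm : ∀ (χ : 𝓧) (k : ℕ), k ≠ 0 → per χ ∣ k →
    ((Pr k).card : ℝ) ≤ ∑ P ∈ Pr k, ‖∑ j, par χ P j‖ ^ 2 + A * ((c χ : ℝ) + 1) * √(q : ℝ) ^ k
  fin : ∀ X : ℕ, {χ : 𝓧 | c χ ≤ X}.Finite
  fin_card : ∀ X : ℕ, ({χ : 𝓧 | c χ ≤ X}.ncard : ℝ) ≤ A * (q : ℝ) ^ (a * (X + 1))

variable {𝓟 𝓧 : Type}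

/-- power sums of the local parameters of a twist -/
def TSys.lam (S : TSys 𝓟 𝓧) (χ : 𝓧) (P : 𝓟) (e : ℕ) : ℂ := ∑ j, S.par χ P j ^ e

/-- the twists controlled at degree `K` -/
def TSys.X (S : TSys 𝓟 𝓧) (κ K : ℕ) : Finset 𝓧 :=
  ((S.fin K).subset (fun _ h => h.1) :
    {χ : 𝓧 | S.c χ ≤ K ∧ κ * (S.c χ + 1) ≤ K ∧ S.per χ ∣ K}.Finite).toFinset

theorem TSys.mem_X {S : TSys 𝓟 𝓧} {κ K : ℕ} (hκ : 1 ≤ κ) {χ : 𝓧} :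
    χ ∈ S.X κ K ↔ κ * (S.c χ + 1) ≤ K ∧ S.per χ ∣ K := by
  rw [TSys.X, Set.Finite.mem_toFinset]
  constructor
  · exact fun h => h.2
  · intro h
    exact ⟨by nlinarith [h.1], h⟩

/-- the power sums `T_k = ∑_{d ∣ k} d ∑_{deg P = d} pw_P(k/d) lam_P(k/d)` of an Euler product -/
def TSys.TS (S : TSys 𝓟 𝓧) (pw : 𝓟 → ℕ → ℂ) (χ : 𝓧) (k : ℕ) : ℂ :=
  ∑ d ∈ k.divisors, (d : ℂ) * ∑ P ∈ S.Pr d, pw P (k / d) * S.lam χ P (k / d)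

/-- the part of the prime powers -/
def TSys.pp (S : TSys 𝓟 𝓧) (pw : 𝓟 → ℕ → ℂ) (χ : 𝓧) (k : ℕ) : ℂ :=
  ∑ d ∈ k.divisors.erase k, (d : ℂ) * ∑ P ∈ S.Pr d, pw P (k / d) * S.lam χ P (k / d)

/-- traces of the powers in a sequence of representations of `G`; `sd i` means that the `i`-th one has real traces -/
structure RD (G : Type) where
  n : ℕ → ℕ
  pw : ℕ → G → ℕ → ℂ
  bd : ∀ i g e, ‖pw i g e‖ ≤ n i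
  sd : ℕ → Prop
  real : ∀ i, sd i → ∀ g e, starRingEnd ℂ (pw i g e) = pw i g e

/-- at degree `K` the twisted sums of the first `m` traces can be prescribed -/
def Solv {G : Type} (S : TSys 𝓟 𝓧) (D : RD G) (η : ℝ) (κ m K : ℕ) : Prop :=
  ∀ b : ℕ → 𝓧 → ℂ, (∀ i < m, ∀ χ ∈ S.X κ K, ‖b i χ‖ ≤ (S.q : ℝ) ^ ((1 / 2 + 5 * η) * K)) →
    (∀ i < m, D.sd i → ∀ χ ∈ S.X κ K, b i (S.bar χ) = starRingEnd ℂ (b i χ)) →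
    ∃ g : 𝓟 → G, (∀ i < m, ∀ χ ∈ S.X κ K, ∑ P ∈ S.Pr K, D.pw i (g P) 1 * S.lam χ P 1 = b i χ) ∧
      ∀ i < m, ∀ χ, χ ∉ S.X κ K → ‖∑ P ∈ S.Pr K, D.pw i (g P) 1 * S.lam χ P 1‖ ≤
        ((S.c χ : ℝ) + 2) * (S.q : ℝ) ^ ((1 / 2 + 2 * η) * K)

/-- the state of the construction up to degree `< K` -/
structure GoodT {G : Type} (S : TSys 𝓟 𝓧) (D : RD G) (η : ℝ) (κ : ℕ) (kb M : ℕ → ℕ) (N : ℕ → 𝓧 → ℕ)
    (W : ℕ → 𝓧 → ℂ) (g : 𝓟 → G) (K : ℕ) : Prop where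
  low : ∀ (i : ℕ) (χ : 𝓧) (k : ℕ), M i ≤ k → k < K → k < κ * (S.c χ + 1) + kb i →
    ‖∑ P ∈ S.Pr k, D.pw i (g P) 1 * S.lam χ P 1‖ ≤ ((S.c χ : ℝ) + 2) * (S.q : ℝ) ^ ((1 / 2 + 2 * η) * k)
  eqn : ∀ (i : ℕ) (χ : 𝓧) (k : ℕ), κ * (S.c χ + 1) + kb i ≤ k → k < K →
    S.TS (fun P => D.pw i (g P)) χ k =
      FF.ldc (FF.LL S.q (S.TS (fun P => D.pw i (g P)) χ) (κ * (S.c χ + 1) + kb i) (N i χ) (W i χ)) k

/-- numerical conditions on the parameters for one representation; `H` bounds the low degrees -/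
structure NumT (q : ℕ) (η : ℝ) (κ ν : ℕ) (H : ℝ) (kb N0 : ℕ) : Prop where
  kb1 : 1 ≤ kb
  kbH : 1 + H ≤ (q : ℝ) ^ (η * kb)
  core : ∀ c N : ℕ, ν * (c + 1) + N0 ≤ N → 2 * (κ * (c + 1) + kb) ≤ N ∧
    Real.exp (2 * ∑ j ∈ Finset.Ico 1 (κ * (c + 1) + kb),
        ((c : ℝ) + H) * (q : ℝ) ^ ((1 / 2 + 2 * η) * j) * ((q : ℝ) ^ (-(1 / 2 + 3 * η))) ^ j) *
      (((q : ℝ) ^ (-(1 / 2 + 4 * η)) / (q : ℝ) ^ (-(1 / 2 + 3 * η))) ^ (κ * (c + 1) + kb) +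
        (q : ℝ) ^ (-(4 * η) * N + 2 * (4 * η) * (κ * (c + 1) + kb : ℕ))) ≤ 1 / 2

/-- a finite family of real functions on `G`, with directions of perturbation and a dual frame of derivatives -/
structure Fam {G : Type} [MeasurableSpace G] (μ : Measure G) (ι : Type) [Fintype ι] [DecidableEq ι] (s : ℕ)
    (f : ι → G → ℝ) where
  cp : G → (Fin s → ℝ) → G
  d : ι → Fin s → G → ℝ
  e : ι → Fin s → G → ℝ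
  B : ℝ
  B1 : 1 ≤ B
  f_meas : ∀ α, Measurable (f α)
  d_meas : ∀ α j, Measurable (d α j)
  e_meas : ∀ α j, Measurable (e α j)
  f_le : ∀ α g, |f α g| ≤ B
  d_le : ∀ α j g, |d α j g| ≤ B
  e_le : ∀ α j g, |e α j g| ≤ B
  f_int : ∀ α, ∫ g, f α g ∂μ = 0
  frame : ∀ α α', ∫ g, ∑ j, d α j g * e α' j g ∂μ = if α = α' then 1 else 0
  lip : ∀ (α : ι) (g : G) (t t' : Fin s → ℝ), ‖t‖ ≤ 1 → ‖t'‖ ≤ 1 →
    |f α (cp g t) - f α (cp g t') - ∑ j, d α j g * (t j - t' j)| ≤ B * max ‖t‖ ‖t'‖ * ‖t - t'‖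
  zero : ∀ g, cp g 0 = g

end

end Pool.Agent.H497.TT
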