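import Pool.Agent.H497.TT.Per
import Pool.Agent.H497.FF.C2
import Pool.Agent.H497.FF.C2b

set_option autoImplicit false



namespace Pool.Agent.H497.TT

open MeasureTheory


/-- `TS_split`, and `pp_le`; if `M i ≤ k` the main term is at most `k (c + 2) q^((1/2+2η)k)` by `hG.low`, and `pp` is at
most `2 n R (1+A) q^(k/2)`. If `k < M i` use `TS_le` and `q^k ≤ q^(M i)`. -/
theorem TS_est {𝓟 𝓧 G : Type} {S : TSys 𝓟 𝓧} {D : RD G} {η : ℝ} {κ : ℕ} {kb M : ℕ → ℕ} {N : ℕ → 𝓧 → ℕ}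
    {W : ℕ → 𝓧 → ℂ} {g : 𝓟 → G} {K : ℕ} (hη : 0 < η) (hG : GoodT S D η κ kb M N W g K) (i : ℕ) (χ : 𝓧) {H : ℝ}
    (hH : H = 2 + 2 * D.n i * S.R * (1 + S.A) * (S.q : ℝ) ^ M i) {k : ℕ} (hk : k ≠ 0) (hkK : k < K)
    (hk0 : k < κ * (S.c χ + 1) + kb i) :
    ‖S.TS (fun P => D.pw i (g P)) χ k‖ ≤ k * (((S.c χ : ℝ) + H) * (S.q : ℝ) ^ ((1 / 2 + 2 * η) * k)) := by
  have hq2 : (2 : ℝ) ≤ S.q := by exact_mod_cast S.hq
  have hq1 : (1 : ℝ) ≤ S.q := by linarith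
  have hk1 : (1 : ℝ) ≤ k := by exact_mod_cast Nat.one_le_iff_ne_zero.mpr hk
  have hX0 : 0 ≤ 2 * (D.n i : ℝ) * S.R * (1 + S.A) := by positivity
  have hqM : (1 : ℝ) ≤ (S.q : ℝ) ^ M i := one_le_pow₀ hq1
  have hc0 : (0 : ℝ) ≤ S.c χ := Nat.cast_nonneg _
  have hrp : (1 : ℝ) ≤ (S.q : ℝ) ^ ((1 / 2 + 2 * η) * k) :=
    Real.one_le_rpow hq1 (by positivity)
  have hbd : ∀ P e, ‖(fun P => D.pw i (g P)) P e‖ ≤ D.n i := fun P e => D.bd i (g P) e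
  rcases le_or_gt (M i) k with hM | hM
  · have h1 := hG.low i χ k hM hkK hk0
    have h2 := pp_le S (fun P => D.pw i (g P)) (D.n i) hbd χ hk
    rw [TS_split S _ χ hk]
    have h3 : (S.q : ℝ) ^ ((1 / 2 : ℝ) * k) ≤ (S.q : ℝ) ^ ((1 / 2 + 2 * η) * k) := by
      apply Real.rpow_le_rpow_of_exponent_le hq1
      have : 0 ≤ 2 * η * k := by positivity
      linarith
    have h4 : ‖(k : ℂ) * ∑ P ∈ S.Pr k, D.pw i (g P) 1 * S.lam χ P 1‖ ≤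
        k * (((S.c χ : ℝ) + 2) * (S.q : ℝ) ^ ((1 / 2 + 2 * η) * k)) := by
      rw [norm_mul, Complex.norm_natCast]
      gcongr
    have h5 : 2 * (D.n i : ℝ) * S.R * (1 + S.A) * (S.q : ℝ) ^ ((1 / 2 : ℝ) * k) ≤
        k * ((2 * D.n i * S.R * (1 + S.A) * (S.q : ℝ) ^ M i) * (S.q : ℝ) ^ ((1 / 2 + 2 * η) * k)) := by
      calc 2 * (D.n i : ℝ) * S.R * (1 + S.A) * (S.q : ℝ) ^ ((1 / 2 : ℝ) * k)
          ≤ 2 * (D.n i : ℝ) * S.R * (1 + S.A) * (S.q : ℝ) ^ ((1 / 2 + 2 * η) * k) := by gcongr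
        _ = 1 * ((2 * (D.n i : ℝ) * S.R * (1 + S.A) * 1) * (S.q : ℝ) ^ ((1 / 2 + 2 * η) * k)) := by ring
        _ ≤ _ := by gcongr
    calc _ ≤ _ := norm_add_le _ _
      _ ≤ k * (((S.c χ : ℝ) + 2) * (S.q : ℝ) ^ ((1 / 2 + 2 * η) * k)) +
          k * ((2 * D.n i * S.R * (1 + S.A) * (S.q : ℝ) ^ M i) * (S.q : ℝ) ^ ((1 / 2 + 2 * η) * k)) :=
          add_le_add h4 (h2.trans h5)
      _ = _ := by
          rw [hH]
          ring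
  · have h1 := TS_le S (fun P => D.pw i (g P)) (D.n i) hbd χ hk
    have h2 : (S.q : ℝ) ^ k ≤ (S.q : ℝ) ^ M i := pow_le_pow_right₀ hq1 hM.le
    refine h1.trans ?_
    calc 2 * (D.n i : ℝ) * S.R * (1 + S.A) * (S.q : ℝ) ^ k
        ≤ 2 * (D.n i : ℝ) * S.R * (1 + S.A) * (S.q : ℝ) ^ M i := by gcongr
      _ ≤ (S.c χ : ℝ) + H := by
          rw [hH]
          linarith
      _ = 1 * (((S.c χ : ℝ) + H) * 1) := by ring
      _ ≤ _ := by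
          have h3 : 0 ≤ (S.c χ : ℝ) + H := by
            rw [hH]
            positivity
          gcongr

/-- `FF.core` with `4η` for `η`, `r = q^(-(1/2+4η))`, `r1 = q^(-(1/2+3η))`, `k0 = κ (c+1) + kb i`, `B` the sum in
`NumT.core` (use `TS_est` for `1 ≤ j < k0 ≤ K`: `j < k0 ≤ k ≤ K`), and `(r^k)⁻¹ = q^((1/2+4η)k)`. -/
theorem ldc_big {𝓟 𝓧 G : Type} {S : TSys 𝓟 𝓧} {D : RD G} {η : ℝ} {κ ν : ℕ} {kb M N0 : ℕ → ℕ} {N : ℕ → 𝓧 → ℕ}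
    {W : ℕ → 𝓧 → ℂ} {g : 𝓟 → G} {K : ℕ} (hη : 0 < η) (hG : GoodT S D η κ kb M N W g K) (i : ℕ) (χ : 𝓧)
    (hNum : NumT S.q η κ ν (2 + 2 * D.n i * S.R * (1 + S.A) * (S.q : ℝ) ^ M i) (kb i) (N0 i))
    (hN : ν * (S.c χ + 1) + N0 i ≤ N i χ) (hW : ‖W i χ‖ = 1) {k : ℕ} (hk : κ * (S.c χ + 1) + kb i ≤ k) (hkK : k ≤ K) :
    ‖FF.ldc (FF.LL S.q (S.TS (fun P => D.pw i (g P)) χ) (κ * (S.c χ + 1) + kb i) (N i χ) (W i χ)) k‖ ≤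
      k * (S.q : ℝ) ^ ((1 / 2 + 4 * η) * k) := by
  have hq2 : (2 : ℝ) ≤ S.q := by exact_mod_cast S.hq
  have hq1 : (1 : ℝ) < S.q := by linarith
  have hq0 : (0 : ℝ) < S.q := by linarith
  obtain ⟨hN2, hcore⟩ := hNum.core (S.c χ) (N i χ) hN
  have hkb := hNum.kb1
  have hr1 : (S.q : ℝ) ^ (-(1 / 2 + 4 * η)) < (S.q : ℝ) ^ (-(1 / 2 + 3 * η)) :=
    Real.rpow_lt_rpow_of_exponent_lt hq1 (by linarith)
  have h := FF.core S.q S.hq (4 * η) ((S.q : ℝ) ^ (-(1 / 2 + 4 * η))) ((S.q : ℝ) ^ (-(1 / 2 + 3 * η)))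
    (∑ j ∈ Finset.Ico 1 (κ * (S.c χ + 1) + kb i),
        ((S.c χ : ℝ) + (2 + 2 * D.n i * S.R * (1 + S.A) * (S.q : ℝ) ^ M i)) *
          (S.q : ℝ) ^ ((1 / 2 + 2 * η) * j) * ((S.q : ℝ) ^ (-(1 / 2 + 3 * η))) ^ j)
    (by linarith) rfl hr1 (S.TS (fun P => D.pw i (g P)) χ) (κ * (S.c χ + 1) + kb i) (N i χ) (W i χ) hW
    (by omega) hN2 (by
      apply Finset.sum_le_sum
      intro j hj
      rw [Finset.mem_Ico] at hj
      have h1 := TS_est hη hG i χ rfl (k := j) (by omega) (by omega) hj.2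
      have hj0 : (0 : ℝ) < j := by exact_mod_cast hj.1
      apply mul_le_mul_of_nonneg_right _ (by positivity)
      rw [div_le_iff₀ hj0]
      linarith) hcore k hk
  refine h.trans (le_of_eq ?_)
  congr 1
  rw [← Real.rpow_natCast, ← Real.rpow_mul hq0.le, ← Real.rpow_neg hq0.le]
  congr 1
  ring

end Pool.Agent.H497.TT
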