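import Pool.Agent.H497.TT.Defs
import Pool.Agent.H497.FF.System

set_option autoImplicit false

namespace Pool.Agent.H497.TT

open Polynomial

/-- the finite places of `F(t)` -/
abbrev Pl (F : Type) [Field F] : Type := {P : F[X] // P.Monic ∧ Irreducible P}

open Classical in
/-- the places of degree `k` -/
noncomputable def PrF (F : Type) [Field F] [Fintype F] (k : ℕ) : Finset (Pl F) :=
  (FF.irr F k).subtype (fun P => P.Monic ∧ Irreducible P)

theorem sum_Pl {F : Type} [Field F] [Fintype F] (k : ℕ) {M : Type} [AddCommMonoid M] (h : F[X] → M) :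
    ∑ P ∈ PrF F k, h P = ∑ P ∈ FF.irr F k, h P := by
  classical
  rw [PrF, Finset.sum_subtype_eq_sum_filter]
  congr 1
  refine Finset.filter_true_of_mem fun P hP => ?_
  have := (FF.mem_irr F).1 hP
  exact ⟨this.1, this.2.2⟩

theorem card_Pl {F : Type} [Field F] [Fintype F] (k : ℕ) :
    (PrF F k).card = (FF.irr F k).card := by
  rw [Finset.card_eq_sum_ones, Finset.card_eq_sum_ones]
  exact sum_Pl k (fun _ => 1)

/-- the places and the primitive Hecke characters of `F(t)` form a system with `R = 1` -/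
noncomputable def heckeT (F : Type) [Field F] [Fintype F] : TSys (Pl F) (FF.XP F) where
  q := Fintype.card F
  hq := Fintype.one_lt_card
  A := 2
  hA := by norm_num
  a := 2
  R := 1
  deg := fun P => (P : F[X]).natDegree
  deg_pos := fun P => P.2.2.natDegree_pos
  Pr := PrF F
  mem_Pr := fun k P => by
    classical
    rw [PrF, Finset.mem_subtype, FF.mem_irr]
    exact ⟨fun h => h.2.1, fun h => ⟨P.2.1, h, P.2.2⟩⟩
  Pr_card := fun k hk => by
    rw [card_Pl]
    have h1 : (k : ℝ) * (FF.irr F k).card ≤ (Fintype.card F : ℝ) ^ k := by exact_mod_cast FF.card_irr_le (F := F) k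
    have h2 := FF.card_irr_ge (F := F) hk
    rw [abs_le]
    push_cast
    have h3 : 0 ≤ √(Fintype.card F : ℝ) ^ k := by positivity
    constructor
    · linarith
    · linarith
  par := fun χ P _ => χ.1.2.2 P
  par_le := fun χ P _ => FF.norm_le_one χ.2.1 P
  bar := fun x => ⟨(x.1.1, x.1.2.1, fun D => starRingEnd ℂ (x.1.2.2 D)), x.2.bar⟩
  c := fun x => x.1.1.natDegree + x.1.2.1
  per := fun _ => 1
  bar_bar := fun x => by
    apply Subtype.ext
    simp
  bar_c := fun x => rfl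
  bar_per := fun x => rfl
  bar_par := fun χ P e => by simp
  per_pos := fun _ => le_rfl
  per_zero := fun χ P e he h => absurd (one_dvd _) h
  orth := fun x x' hne k hk => by
    have h := (FF.sysF F).orth x x' hne k hk
    have e : ∑ P ∈ PrF F k,
        (∑ _j : Fin 1, x.1.2.2 P) * starRingEnd ℂ (∑ _j : Fin 1, x'.1.2.2 P) =
        ∑ P ∈ FF.irr F k, x.1.2.2 P * starRingEnd ℂ (x'.1.2.2 P) := by
      rw [← sum_Pl k (fun P => x.1.2.2 P * starRingEnd ℂ (x'.1.2.2 P))]
      simp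
    rw [e]
    refine h.trans ?_
    have hq : (0 : ℝ) ≤ √(Fintype.card F : ℝ) ^ k := by positivity
    refine mul_le_mul_of_nonneg_right ?_ hq
    have h1 : (0 : ℝ) ≤ ((x.1.1.natDegree + x.1.2.1 : ℕ) : ℝ) := Nat.cast_nonneg _
    have h2 : (0 : ℝ) ≤ ((x'.1.1.natDegree + x'.1.2.1 : ℕ) : ℝ) := Nat.cast_nonneg _
    change ((x.1.1.natDegree + x.1.2.1 : ℕ) : ℝ) + ((x'.1.1.natDegree + x'.1.2.1 : ℕ) : ℝ) + 2 ≤ _
    push_cast at h1 h2 ⊢
    linarith
  norm := fun x k hk _ => by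
    have h := (FF.sysF F).diag x k hk
    change ((FF.irr F k).card : ℝ) - ((x.1.1.natDegree + x.1.2.1 : ℕ) : ℝ) ≤ ∑ P ∈ FF.irr F k, ‖x.1.2.2 P‖ ^ 2 at h
    have e : ∑ P ∈ PrF F k, ‖∑ _j : Fin 1, x.1.2.2 P‖ ^ 2 =
        ∑ P ∈ FF.irr F k, ‖x.1.2.2 P‖ ^ 2 := by
      rw [← sum_Pl k (fun P => ‖x.1.2.2 P‖ ^ 2)]
      simp
    rw [e, card_Pl]
    have hq1 : (1 : ℝ) ≤ √(Fintype.card F : ℝ) ^ k := by
      refine one_le_pow₀ ?_
      rw [Real.one_le_sqrt]
      exact_mod_cast Fintype.card_pos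
    have h1 : (0 : ℝ) ≤ ((x.1.1.natDegree + x.1.2.1 : ℕ) : ℝ) := Nat.cast_nonneg _
    have h3 : ((x.1.1.natDegree + x.1.2.1 : ℕ) : ℝ) ≤
        ((2 : ℕ) : ℝ) * (((x.1.1.natDegree + x.1.2.1 : ℕ) : ℝ) + 1) * √(Fintype.card F : ℝ) ^ k := by
      have : ((x.1.1.natDegree + x.1.2.1 : ℕ) : ℝ) ≤ ((2 : ℕ) : ℝ) * (((x.1.1.natDegree + x.1.2.1 : ℕ) : ℝ) + 1) := by
        push_cast at h1 ⊢
        linarith
      refine this.trans (le_mul_of_one_le_right (by positivity) hq1)
    linarith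
  fin := (FF.sysF F).fin
  fin_card := fun X => by
    have h := (FF.sysF F).fin_card X
    have h2 : (({x : FF.XP F | x.1.1.natDegree + x.1.2.1 ≤ X}.ncard : ℕ) : ℝ) ≤ (Fintype.card F : ℝ) ^ (2 * (X + 1)) := by
      have : 2 * (X + 1) = 2 * X + 2 := by ring
      rw [this]
      exact_mod_cast h
    refine h2.trans ?_
    have : (0 : ℝ) ≤ (Fintype.card F : ℝ) ^ (2 * (X + 1)) := by positivity
    push_cast
    linarith

end Pool.Agent.H497.TT
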