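import Pool.Agent.H497.TT.Defs

set_option autoImplicit false



namespace Pool.Agent.H497.TT

open MeasureTheory


/-- `f_α(cp g t) = f_α(g) + ∑_i d_{α,i}(g) t_i + err`, `|err| ≤ B ‖t‖^2` (`lip` with `t' = 0`, `cp g 0 = g`). The sum of the
linear terms is `∑_{α',j} x_{α',j} ∑_P (∑_i d_{α,i} e_{α',i})(g0 P) w_P conj(ev_j P)`, at most
`card(ι) card(J) ρ (2 v)` by `hv` (for `α' = α`) and `hv'`. -/
theorem outside {G 𝓟 J ι : Type} [MeasurableSpace G] (μ : Measure G) [Fintype ι] [DecidableEq ι] [Fintype J]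
    {s : ℕ} {f : ι → G → ℝ} (Fm : Fam μ ι s f) (Q : Finset 𝓟) (g0 : 𝓟 → G)
    (ev : J → 𝓟 → ℂ) (w : 𝓟 → ℂ) (R ρ τ v v0 : ℝ) (hR : 0 ≤ R) (hw : ∀ P, ‖w P‖ ≤ R) (hρ : 0 ≤ ρ) (hvp : 0 ≤ v)
    (x : ι → J → ℂ) (t : 𝓟 → Fin s → ℝ) (hx : ∀ α j, ‖x α j‖ ≤ ρ)
    (ht : ∀ P i, (t P i : ℂ) = ∑ α, ∑ j, (Fm.e α i (g0 P) : ℂ) * (x α j * starRingEnd ℂ (ev j P)))
    (htn : ∀ P, ‖t P‖ ≤ τ) (hτ : τ ≤ 1)
    (hv : ∀ j, ‖∑ P ∈ Q, w P * starRingEnd ℂ (ev j P)‖ ≤ v)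
    (hv' : ∀ α α' j, ‖∑ P ∈ Q, (((∑ i, Fm.d α i (g0 P) * Fm.e α' i (g0 P)) - (if α = α' then 1 else 0) : ℝ) : ℂ) *
      (w P * starRingEnd ℂ (ev j P))‖ ≤ v)
    (hv0 : ∀ α, ‖∑ P ∈ Q, (f α (g0 P) : ℂ) * w P‖ ≤ v0) (α : ι) :
    ‖∑ P ∈ Q, (f α (Fm.cp (g0 P) (t P)) : ℂ) * w P‖ ≤
      v0 + Fintype.card ι * Fintype.card J * ρ * (2 * v) + Q.card * R * Fm.B * τ ^ 2 := by
  classical
  have hB0 : 0 ≤ Fm.B := le_trans zero_le_one Fm.B1
  have hτ0 : ∀ P, ‖t P‖ ≤ 1 := fun P => (htn P).trans hτ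
  -- the error
  have herr : ∀ P, |f α (Fm.cp (g0 P) (t P)) - f α (g0 P) - ∑ i, Fm.d α i (g0 P) * t P i| ≤
      Fm.B * τ ^ 2 := by
    intro P
    have h1 := Fm.lip α (g0 P) (t P) 0 (hτ0 P) (by rw [norm_zero]; exact zero_le_one)
    rw [Fm.zero, norm_zero, sub_zero, max_eq_left (norm_nonneg _)] at h1
    have h2 : ∑ j, Fm.d α j (g0 P) * (t P j - (0 : Fin s → ℝ) j) =
        ∑ i, Fm.d α i (g0 P) * t P i :=
      Finset.sum_congr rfl fun i _ => by rw [Pi.zero_apply, sub_zero]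
    rw [h2] at h1
    refine h1.trans ?_
    rw [mul_assoc, ← sq]
    exact mul_le_mul_of_nonneg_left (pow_le_pow_left₀ (norm_nonneg _) (htn P) 2) hB0
  -- the linear part
  have hlin : ∀ P, ((∑ i, Fm.d α i (g0 P) * t P i : ℝ) : ℂ) = ∑ α', ∑ j, x α' j *
      (((∑ i, Fm.d α i (g0 P) * Fm.e α' i (g0 P) : ℝ) : ℂ) * starRingEnd ℂ (ev j P)) := by
    intro P
    push_cast
    rw [Finset.sum_congr rfl fun i _ => by rw [ht P i]]
    have h3 : ∀ α', ∀ j, x α' j * ((∑ i, (Fm.d α i (g0 P) : ℂ) * (Fm.e α' i (g0 P) : ℂ)) *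
        starRingEnd ℂ (ev j P)) = ∑ i, (Fm.d α i (g0 P) : ℂ) * ((Fm.e α' i (g0 P) : ℂ) *
          (x α' j * starRingEnd ℂ (ev j P))) := by
      intro α' j
      rw [Finset.sum_mul, Finset.mul_sum]
      exact Finset.sum_congr rfl fun i _ => by ring
    rw [Finset.sum_congr rfl fun α' _ => Finset.sum_congr rfl fun j _ => h3 α' j]
    rw [Finset.sum_congr rfl fun i _ => by rw [Finset.mul_sum]]
    rw [Finset.sum_comm]
    refine Finset.sum_congr rfl fun α' _ => ?_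
    rw [Finset.sum_congr rfl fun i _ => by rw [Finset.mul_sum]]
    rw [Finset.sum_comm]
  have hlinsum : ∑ P ∈ Q, ((∑ i, Fm.d α i (g0 P) * t P i : ℝ) : ℂ) * w P = ∑ α', ∑ j, x α' j *
      ∑ P ∈ Q, ((∑ i, Fm.d α i (g0 P) * Fm.e α' i (g0 P) : ℝ) : ℂ) *
        (w P * starRingEnd ℂ (ev j P)) := by
    rw [Finset.sum_congr rfl fun P _ => by rw [hlin P, Finset.sum_mul]]
    rw [Finset.sum_comm]
    refine Finset.sum_congr rfl fun α' _ => ?_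
    rw [Finset.sum_congr rfl fun P _ => by rw [Finset.sum_mul]]
    rw [Finset.sum_comm]
    refine Finset.sum_congr rfl fun j _ => ?_
    rw [Finset.mul_sum]
    exact Finset.sum_congr rfl fun P _ => by ring
  have hinner : ∀ α' j, ‖∑ P ∈ Q, ((∑ i, Fm.d α i (g0 P) * Fm.e α' i (g0 P) : ℝ) : ℂ) *
      (w P * starRingEnd ℂ (ev j P))‖ ≤ 2 * v := by
    intro α' j
    have e1 : ∑ P ∈ Q, ((∑ i, Fm.d α i (g0 P) * Fm.e α' i (g0 P) : ℝ) : ℂ) *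
        (w P * starRingEnd ℂ (ev j P)) =
        ∑ P ∈ Q, (((∑ i, Fm.d α i (g0 P) * Fm.e α' i (g0 P)) - (if α = α' then 1 else 0) : ℝ) : ℂ) *
          (w P * starRingEnd ℂ (ev j P)) +
        (if α = α' then 1 else 0) * ∑ P ∈ Q, w P * starRingEnd ℂ (ev j P) := by
      rw [Finset.mul_sum, ← Finset.sum_add_distrib]
      refine Finset.sum_congr rfl fun P _ => ?_
      split_ifs <;> push_cast <;> ring
    rw [e1]
    refine (norm_add_le _ _).trans ?_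
    have h4 : ‖(if α = α' then 1 else 0) * ∑ P ∈ Q, w P * starRingEnd ℂ (ev j P)‖ ≤ v := by
      split_ifs
      · rw [one_mul]; exact hv j
      · rw [zero_mul, norm_zero]; exact hvp
    linarith [hv' α α' j]
  have hsplit : ∑ P ∈ Q, (f α (Fm.cp (g0 P) (t P)) : ℂ) * w P =
      ∑ P ∈ Q, (f α (g0 P) : ℂ) * w P +
      ∑ P ∈ Q, ((∑ i, Fm.d α i (g0 P) * t P i : ℝ) : ℂ) * w P +
      ∑ P ∈ Q, ((f α (Fm.cp (g0 P) (t P)) - f α (g0 P) -
        ∑ i, Fm.d α i (g0 P) * t P i : ℝ) : ℂ) * w P := by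
    rw [← Finset.sum_add_distrib, ← Finset.sum_add_distrib]
    refine Finset.sum_congr rfl fun P _ => ?_
    push_cast
    ring
  rw [hsplit]
  refine (norm_add_le _ _).trans (add_le_add ((norm_add_le _ _).trans
    (add_le_add (hv0 α) ?_)) ?_)
  · rw [hlinsum]
    refine (norm_sum_le _ _).trans ?_
    have h5 : ∀ α' ∈ (Finset.univ : Finset ι), ‖∑ j, x α' j *
        ∑ P ∈ Q, ((∑ i, Fm.d α i (g0 P) * Fm.e α' i (g0 P) : ℝ) : ℂ) *
          (w P * starRingEnd ℂ (ev j P))‖ ≤ Fintype.card J * (ρ * (2 * v)) := by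
      intro α' _
      refine (norm_sum_le _ _).trans ?_
      refine (Finset.sum_le_card_nsmul _ _ (ρ * (2 * v)) fun j _ => ?_).trans ?_
      · rw [norm_mul]
        exact mul_le_mul (hx α' j) (hinner α' j) (norm_nonneg _) hρ
      · rw [nsmul_eq_mul, Finset.card_univ]
    refine (Finset.sum_le_card_nsmul _ _ _ h5).trans (le_of_eq ?_)
    rw [nsmul_eq_mul, Finset.card_univ]
    ring
  · refine (norm_sum_le _ _).trans ?_
    refine (Finset.sum_le_card_nsmul _ _ (Fm.B * τ ^ 2 * R) fun P _ => ?_).trans (le_of_eq ?_)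
    · rw [norm_mul, Complex.norm_real, Real.norm_eq_abs]
      exact mul_le_mul (herr P) (hw P) (norm_nonneg _) (mul_nonneg hB0 (sq_nonneg _))
    · rw [nsmul_eq_mul]
      ring


end Pool.Agent.H497.TT
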