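import Pool.Agent.H497.TT.Defs

set_option autoImplicit false



namespace Pool.Agent.H497.TT

open MeasureTheory


theorem expc_per (g : ℕ → ℂ) (p : ℕ) (hg : ∀ j : ℕ, ¬ p ∣ j → g j = 0) :
    ∀ k : ℕ, ¬ p ∣ k → FF.expc g k = 0 := by
  intro k
  induction k using Nat.strong_induction_on with
  | _ k ih =>
    intro hk
    cases k with
    | zero => exact absurd (dvd_zero p) hk
    | succ k =>
      rw [FF.expc]
      rw [Finset.sum_eq_zero, zero_div]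
      intro i _
      by_cases h : p ∣ (i : ℕ) + 1
      · have h2 : ¬ p ∣ k - i := by
          intro h3
          apply hk
          have h4 : k + 1 = (i + 1) + (k - i) := by omega
          rw [h4]
          exact dvd_add h h3
        rw [ih (k - i) (by omega) h2, mul_zero]
      · rw [hg _ h, zero_mul]

theorem LL_per' (q : ℕ) (g : ℕ → ℂ) (k0 N : ℕ) (W : ℂ) (p : ℕ) (hg : ∀ j : ℕ, ¬ p ∣ j → g j = 0)
    (hN : p ∣ N) (j : ℕ) (hj : ¬ p ∣ j) : FF.LL q g k0 N W j = 0 := by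
  unfold FF.LL
  have h1 : FF.expc g j = 0 := expc_per g p hg j hj
  have h2 : j ≤ N → FF.expc g (N - j) = 0 := by
    intro hjN
    apply expc_per g p hg
    intro h3
    apply hj
    have h4 : j = N - (N - j) := by omega
    rw [h4]
    exact Nat.dvd_sub hN h3
  rw [h1]
  split_ifs with h3 h4 h4
  · rw [h2 h4.1]; simp
  · simp
  · rw [h2 h4.1]; simp
  · simp

theorem ldc_per (a : ℕ → ℂ) (p : ℕ) (ha : ∀ j : ℕ, ¬ p ∣ j → a j = 0) :
    ∀ k : ℕ, ¬ p ∣ k → FF.ldc a k = 0 := by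
  intro k
  induction k using Nat.strong_induction_on with
  | _ k ih =>
    intro hk
    cases k with
    | zero => exact absurd (dvd_zero p) hk
    | succ k =>
      rw [FF.ldc]
      rw [ha _ hk, Finset.sum_eq_zero, mul_zero, sub_zero]
      intro i _
      by_cases h : p ∣ (i : ℕ) + 1
      · have h2 : ¬ p ∣ k - i := by
          intro h3
          apply hk
          have h4 : k + 1 = (i + 1) + (k - i) := by omega
          rw [h4]
          exact dvd_add h h3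
        rw [ha _ h2, mul_zero]
      · rw [ih _ (by omega) h, zero_mul]

/-- If `g_j = 0` for all `j` not divisible by `p` and `p ∣ N`, then all the sequences in question are supported on the
multiples of `p`: by strong induction `expc g j = 0` for `p ∤ j` (in `FF.expc_rec`, one of `j + 1` and `k - 1 - j` is
not divisible by `p`), so `LL ... j = 0` for `p ∤ j` (as `p ∣ N`), and then `ldc a k = 0` for `p ∤ k`, from the recursion
`ldc a (k+1) = (k+1) a (k+1) - ∑_{j<k} ldc a (j+1) a (k-j)` (unfold the definition `ldc`, as in the docstring). -/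
theorem LL_per (q : ℕ) (g : ℕ → ℂ) (k0 N : ℕ) (W : ℂ) (p : ℕ) (hg : ∀ j : ℕ, ¬ p ∣ j → g j = 0) (hN : p ∣ N) (k : ℕ)
    (hk : ¬ p ∣ k) : FF.ldc (FF.LL q g k0 N W) k = 0 := by

  exact ldc_per _ p (LL_per' q g k0 N W p hg hN) k hk

/-- split off the term `d = K` (`K / K = 1`) -/
theorem TS_split {𝓟 𝓧 : Type} (S : TSys 𝓟 𝓧) (pw : 𝓟 → ℕ → ℂ) (χ : 𝓧) {K : ℕ} (hK : K ≠ 0) :
    S.TS pw χ K = (K : ℂ) * ∑ P ∈ S.Pr K, pw P 1 * S.lam χ P 1 + S.pp pw χ K := by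

  unfold TSys.TS TSys.pp
  have h := Finset.add_sum_erase K.divisors
    (fun d => (d : ℂ) * ∑ P ∈ S.Pr d, pw P (K / d) * S.lam χ P (K / d))
    (Nat.mem_divisors_self K hK)
  rw [← h]
  simp only [Nat.div_self (Nat.pos_of_ne_zero hK)]

theorem TS_congr {𝓟 𝓧 : Type} (S : TSys 𝓟 𝓧) (pw pw' : 𝓟 → ℕ → ℂ) (χ : 𝓧) {k : ℕ}
    (h : ∀ P, S.deg P ≤ k → pw P = pw' P) : S.TS pw χ k = S.TS pw' χ k := by

  unfold TSys.TS
  refine Finset.sum_congr rfl fun d hd => ?_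
  congr 1
  refine Finset.sum_congr rfl fun P hP => ?_
  rw [h P]
  rw [(S.mem_Pr d P).1 hP]
  exact Nat.divisor_le hd

theorem pp_congr {𝓟 𝓧 : Type} (S : TSys 𝓟 𝓧) (pw pw' : 𝓟 → ℕ → ℂ) (χ : 𝓧) {k : ℕ}
    (h : ∀ P, S.deg P < k → pw P = pw' P) : S.pp pw χ k = S.pp pw' χ k := by

  unfold TSys.pp
  refine Finset.sum_congr rfl fun d hd => ?_
  congr 1
  refine Finset.sum_congr rfl fun P hP => ?_
  rw [h P]
  rw [(S.mem_Pr d P).1 hP]
  exact lt_of_le_of_ne (Nat.divisor_le (Finset.mem_of_mem_erase hd)) (Finset.ne_of_mem_erase hd)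

/-- by `bar_par` -/
theorem TS_conj {𝓟 𝓧 : Type} (S : TSys 𝓟 𝓧) (pw : 𝓟 → ℕ → ℂ) (h : ∀ P e, starRingEnd ℂ (pw P e) = pw P e) (χ : 𝓧)
    (k : ℕ) : S.TS pw (S.bar χ) k = starRingEnd ℂ (S.TS pw χ k) := by

  unfold TSys.TS
  rw [map_sum]
  refine Finset.sum_congr rfl fun d _ => ?_
  rw [map_mul, map_sum, Complex.conj_natCast]
  congr 1
  refine Finset.sum_congr rfl fun P _ => ?_
  rw [map_mul, h]
  unfold TSys.lam
  rw [S.bar_par]

theorem pp_conj {𝓟 𝓧 : Type} (S : TSys 𝓟 𝓧) (pw : 𝓟 → ℕ → ℂ) (h : ∀ P e, starRingEnd ℂ (pw P e) = pw P e) (χ : 𝓧)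
    (k : ℕ) : S.pp pw (S.bar χ) k = starRingEnd ℂ (S.pp pw χ k) := by

  unfold TSys.pp
  rw [map_sum]
  refine Finset.sum_congr rfl fun d _ => ?_
  rw [map_mul, map_sum, Complex.conj_natCast]
  congr 1
  refine Finset.sum_congr rfl fun P _ => ?_
  rw [map_mul, h]
  unfold TSys.lam
  rw [S.bar_par]

/-- by `per_zero`: for `d ∣ k` and `P ∈ Pr d`, `(k / d) * deg P = k`; for `k = 0` there are no divisors -/
theorem TS_per {𝓟 𝓧 : Type} (S : TSys 𝓟 𝓧) (pw : 𝓟 → ℕ → ℂ) (χ : 𝓧) {k : ℕ} (h : ¬ S.per χ ∣ k) :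
    S.TS pw χ k = 0 := by

  unfold TSys.TS
  refine Finset.sum_eq_zero fun d hd => ?_
  rw [Finset.sum_eq_zero, mul_zero]
  intro P hP
  obtain ⟨hdk, hk0⟩ := Nat.mem_divisors.1 hd
  have h1 : k / d * S.deg P = k := by
    rw [(S.mem_Pr d P).1 hP]
    exact Nat.div_mul_cancel hdk
  have h2 : k / d ≠ 0 := by
    intro h0
    rw [h0, zero_mul] at h1
    exact hk0 h1.symm
  have h3 : S.lam χ P (k / d) = 0 := by
    unfold TSys.lam
    exact S.per_zero χ P (k / d) h2 (by rwa [h1])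
  rw [h3, mul_zero]

theorem lam_le {𝓟 𝓧 : Type} (S : TSys 𝓟 𝓧) (χ : 𝓧) (P : 𝓟) (e : ℕ) : ‖S.lam χ P e‖ ≤ S.R := by
  unfold TSys.lam
  calc ‖∑ j, S.par χ P j ^ e‖ ≤ ∑ j : Fin S.R, (1 : ℝ) := by
        refine norm_sum_le_of_le _ fun j _ => ?_
        rw [norm_pow]
        exact pow_le_one₀ (norm_nonneg _) (S.par_le χ P j)
    _ = S.R := by simp

theorem Pr_le {𝓟 𝓧 : Type} (S : TSys 𝓟 𝓧) (d : ℕ) : (d : ℝ) * (S.Pr d).card ≤ (1 + S.A) * (S.q : ℝ) ^ d := by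
  rcases eq_or_ne d 0 with rfl | hd
  · simp; positivity
  · have hq : (2 : ℝ) ≤ S.q := by exact_mod_cast S.hq
    have h1 := S.Pr_card d hd
    have h2 := (abs_le.1 h1).2
    have h3 : √(S.q : ℝ) ≤ S.q := Real.sqrt_le_iff.2 ⟨by positivity, by nlinarith⟩
    have h4 : √(S.q : ℝ) ^ d ≤ (S.q : ℝ) ^ d := pow_le_pow_left₀ (Real.sqrt_nonneg _) h3 d
    have h5 : (S.A : ℝ) * √(S.q : ℝ) ^ d ≤ S.A * (S.q : ℝ) ^ d :=
      mul_le_mul_of_nonneg_left h4 (Nat.cast_nonneg _)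
    linarith

theorem part_le {𝓟 𝓧 : Type} (S : TSys 𝓟 𝓧) (pw : 𝓟 → ℕ → ℂ) (n : ℕ) (h : ∀ P e, ‖pw P e‖ ≤ n) (χ : 𝓧)
    (k : ℕ) (s : Finset ℕ) :
    ‖∑ d ∈ s, (d : ℂ) * ∑ P ∈ S.Pr d, pw P (k / d) * S.lam χ P (k / d)‖ ≤
      n * S.R * (1 + S.A) * ∑ d ∈ s, (S.q : ℝ) ^ d := by
  rw [Finset.mul_sum]
  refine norm_sum_le_of_le _ fun d _ => ?_
  rw [norm_mul, Complex.norm_natCast]
  have h1 : ‖∑ P ∈ S.Pr d, pw P (k / d) * S.lam χ P (k / d)‖ ≤ (S.Pr d).card * (n * S.R) := by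
    calc _ ≤ ∑ P ∈ S.Pr d, ((n : ℝ) * S.R) := by
          refine norm_sum_le_of_le _ fun P _ => ?_
          rw [norm_mul]
          exact mul_le_mul (h P _) (lam_le S χ P _) (norm_nonneg _) (Nat.cast_nonneg _)
      _ = _ := by rw [Finset.sum_const, nsmul_eq_mul]
  calc (d : ℝ) * ‖∑ P ∈ S.Pr d, pw P (k / d) * S.lam χ P (k / d)‖
      ≤ d * ((S.Pr d).card * (n * S.R)) := mul_le_mul_of_nonneg_left h1 (Nat.cast_nonneg _)
    _ = (d * (S.Pr d).card) * (n * S.R) := by ring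
    _ ≤ ((1 + S.A) * (S.q : ℝ) ^ d) * (n * S.R) :=
        mul_le_mul_of_nonneg_right (Pr_le S d) (by positivity)
    _ = n * S.R * (1 + S.A) * (S.q : ℝ) ^ d := by ring

theorem geo_le (q : ℝ) (hq : 2 ≤ q) (k : ℕ) : ∑ d ∈ Finset.range (k + 1), q ^ d ≤ 2 * q ^ k := by
  induction k with
  | zero => simp
  | succ k ih =>
    rw [Finset.sum_range_succ]
    have h1 : 2 * q ^ k ≤ q ^ (k + 1) := by
      rw [pow_succ, mul_comm]
      exact mul_le_mul_of_nonneg_left hq (by positivity)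
    linarith

/-- `‖lam χ P e‖ ≤ R`, `d card(Pr d) ≤ q^d + A √q^d ≤ (1 + A) q^d`, `∑_{d ≤ k} q^d ≤ 2 q^k` -/
theorem TS_le {𝓟 𝓧 : Type} (S : TSys 𝓟 𝓧) (pw : 𝓟 → ℕ → ℂ) (n : ℕ) (h : ∀ P e, ‖pw P e‖ ≤ n) (χ : 𝓧) {k : ℕ}
    (hk : k ≠ 0) : ‖S.TS pw χ k‖ ≤ 2 * n * S.R * (1 + S.A) * (S.q : ℝ) ^ k := by

  have hq : (2 : ℝ) ≤ S.q := by exact_mod_cast S.hq
  unfold TSys.TS
  refine (part_le S pw n h χ k k.divisors).trans ?_
  have h1 : ∑ d ∈ k.divisors, (S.q : ℝ) ^ d ≤ 2 * (S.q : ℝ) ^ k := by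
    refine le_trans ?_ (geo_le S.q hq k)
    refine Finset.sum_le_sum_of_subset_of_nonneg ?_ (fun d _ _ => by positivity)
    intro d hd
    exact Finset.mem_range.2 (Nat.lt_succ_of_le (Nat.divisor_le hd))
  calc _ ≤ n * S.R * (1 + S.A) * (2 * (S.q : ℝ) ^ k) := mul_le_mul_of_nonneg_left h1 (by positivity)
    _ = _ := by ring

/-- as `TS_le`; the divisors `d ≠ k` are `≤ k / 2` -/
theorem pp_le {𝓟 𝓧 : Type} (S : TSys 𝓟 𝓧) (pw : 𝓟 → ℕ → ℂ) (n : ℕ) (h : ∀ P e, ‖pw P e‖ ≤ n) (χ : 𝓧) {k : ℕ}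
    (hk : k ≠ 0) : ‖S.pp pw χ k‖ ≤ 2 * n * S.R * (1 + S.A) * (S.q : ℝ) ^ ((1 / 2 : ℝ) * k) := by

  have hq : (2 : ℝ) ≤ S.q := by exact_mod_cast S.hq
  unfold TSys.pp
  refine (part_le S pw n h χ k (k.divisors.erase k)).trans ?_
  have h1 : ∑ d ∈ k.divisors.erase k, (S.q : ℝ) ^ d ≤ 2 * (S.q : ℝ) ^ ((1 / 2 : ℝ) * k) := by
    have h2 : ∑ d ∈ k.divisors.erase k, (S.q : ℝ) ^ d ≤ 2 * (S.q : ℝ) ^ (k / 2) := by
      refine le_trans ?_ (geo_le S.q hq (k / 2))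
      refine Finset.sum_le_sum_of_subset_of_nonneg ?_ (fun d _ _ => by positivity)
      intro d hd
      obtain ⟨hne, hd⟩ := Finset.mem_erase.1 hd
      obtain ⟨⟨m, hm⟩, hk0⟩ := Nat.mem_divisors.1 hd
      have hm2 : 2 ≤ m := by
        rcases m with _ | _ | m
        · simp at hm; exact absurd hm hk0
        · simp at hm; exact absurd hm.symm hne
        · omega
      refine Finset.mem_range.2 (Nat.lt_succ_of_le ?_)
      rw [Nat.le_div_iff_mul_le two_pos, hm]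
      exact Nat.mul_le_mul_left d hm2
    refine h2.trans (mul_le_mul_of_nonneg_left ?_ (by norm_num))
    rw [← Real.rpow_natCast]
    refine Real.rpow_le_rpow_of_exponent_le (by linarith) ?_
    have h3 : ((k / 2 : ℕ) : ℝ) ≤ (k : ℝ) / 2 := Nat.cast_div_le
    linarith
  calc _ ≤ n * S.R * (1 + S.A) * (2 * (S.q : ℝ) ^ ((1 / 2 : ℝ) * k)) :=
        mul_le_mul_of_nonneg_left h1 (by positivity)
    _ = _ := by ring


end Pool.Agent.H497.TT
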