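import Mathlib

set_option autoImplicit false

namespace Pool.Agent.H497.TT

open MeasureTheory

open ProbabilityTheory in
lemma rand_tail {G ι : Type} [Fintype ι] [MeasurableSpace G] (μ : Measure G)
    [IsProbabilityMeasure μ] (f : G → ℝ) (hm : Measurable f) (B : ℝ) (hB : ∀ g, |f g| ≤ B)
    (h0 : ∫ g, f g ∂μ = 0) (u : ι → ℝ) (R : ℝ) (hu : ∀ P, |u P| ≤ R) (ε : ℝ) (hε : 0 ≤ ε) :
    (Measure.pi (fun _ : ι => μ)).real {ω | ε ≤ ∑ P, f (ω P) * u P} ≤
      Real.exp (-ε ^ 2 / (2 * (Fintype.card ι * (B * R) ^ 2))) := by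
  have hind : iIndepFun (fun (P : ι) (ω : ι → G) => f (ω P) * u P)
      (Measure.pi (fun _ : ι => μ)) :=
    iIndepFun_pi (X := fun P g => f g * u P) fun P => (hm.mul_const _).aemeasurable
  have hsub : ∀ P ∈ (Finset.univ : Finset ι), HasSubgaussianMGF (fun ω : ι → G => f (ω P) * u P)
      ((‖B * R - -(B * R)‖₊ / 2) ^ 2) (Measure.pi (fun _ : ι => μ)) := by
    intro P _
    refine hasSubgaussianMGF_of_mem_Icc_of_integral_eq_zero ?_ ?_ ?_
    · exact ((hm.comp (measurable_pi_apply P)).mul_const _).aemeasurable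
    · refine Filter.Eventually.of_forall fun ω => ?_
      have h1 : |f (ω P) * u P| ≤ B * R := by
        rw [abs_mul]
        exact mul_le_mul (hB _) (hu P) (abs_nonneg _) ((abs_nonneg _).trans (hB (ω P)))
      exact ⟨(abs_le.1 h1).1, (abs_le.1 h1).2⟩
    · have h1 : ∫ ω : ι → G, f (ω P) ∂(Measure.pi (fun _ : ι => μ)) = ∫ g, f g ∂μ := by
        have h2 := (measurePreserving_eval (fun _ : ι => μ) P).map_eq
        have h3 := integral_map (μ := Measure.pi (fun _ : ι => μ)) (φ := Function.eval P)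
          (measurable_pi_apply P).aemeasurable (f := f) hm.aestronglyMeasurable
        rw [h2] at h3
        exact h3.symm
      rw [integral_mul_const, h1, h0, zero_mul]
  have h1 := HasSubgaussianMGF.measure_sum_ge_le_of_iIndepFun hind hsub hε
  refine h1.trans (le_of_eq ?_)
  have h2 : (((∑ _i : ι, (‖B * R - -(B * R)‖₊ / 2) ^ 2 : NNReal)) : ℝ) =
      Fintype.card ι * (B * R) ^ 2 := by
    rw [Finset.sum_const, Finset.card_univ, nsmul_eq_mul]
    push_cast
    rw [Real.norm_eq_abs, div_pow, sq_abs]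
    ring
  rw [h2]

lemma rand_four {ι : Type} [Fintype ι] (a : ι → ℝ) (w : ι → ℂ) (c : ℝ)
    (h1 : ∑ P, a P * (w P).re < c / 2) (h2 : ∑ P, a P * (-(w P).re) < c / 2)
    (h3 : ∑ P, a P * (w P).im < c / 2) (h4 : ∑ P, a P * (-(w P).im) < c / 2) :
    ‖∑ P, (a P : ℂ) * w P‖ ≤ c := by
  refine (Complex.norm_le_abs_re_add_abs_im _).trans ?_
  have e1 : (∑ P, (a P : ℂ) * w P).re = ∑ P, a P * (w P).re := by
    rw [Complex.re_sum]
    exact Finset.sum_congr rfl fun P _ => Complex.re_ofReal_mul _ _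
  have e2 : (∑ P, (a P : ℂ) * w P).im = ∑ P, a P * (w P).im := by
    rw [Complex.im_sum]
    exact Finset.sum_congr rfl fun P _ => Complex.im_ofReal_mul _ _
  have e3 : ∑ P, a P * (-(w P).re) = - ∑ P, a P * (w P).re := by
    rw [← Finset.sum_neg_distrib]
    exact Finset.sum_congr rfl fun P _ => by ring
  have e4 : ∑ P, a P * (-(w P).im) = - ∑ P, a P * (w P).im := by
    rw [← Finset.sum_neg_distrib]
    exact Finset.sum_congr rfl fun P _ => by ring
  rw [e3] at h2
  rw [e4] at h4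
  rw [e1, e2]
  have k1 : |∑ P, a P * (w P).re| ≤ c / 2 := abs_le.2 ⟨by linarith, h1.le⟩
  have k2 : |∑ P, a P * (w P).im| ≤ c / 2 := abs_le.2 ⟨by linarith, h3.le⟩
  linarith

/-- Random choice (Hoeffding and the union bound).
Proof. If `Q` is empty all sums are `0`. Otherwise use the product measure `Measure.pi (fun _ : Q => μ)` on `Q → G`
(extend `g` outside of `Q` by any element of `G`, which is nonempty as `μ` is a probability measure). For real weights
`u_P`, `|u_P| ≤ R`, the random variables `h t (g_P) u_P` are independent (`ProbabilityTheory.iIndepFun_pi`), of mean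
zero and in `[-BR, BR]`, so sub-Gaussian with parameter `(BR)^2` (`ProbabilityTheory.hasSubgaussianMGF_of_mem_Icc`), and
`P(∑_P ≥ ε) ≤ exp(-ε^2 / (2 card(Q) (BR)^2))` (`HasSubgaussianMGF.measure_sum_ge_le_of_iIndepFun`). With
`ε = s_m lam / 2`: `ε^2 / (2 card(Q)(BR)^2) ≥ s_m^2 E ≥ s_m E`, by `hEl` and `1 ≤ s_m`. Use this for
`u = Re w, - Re w, Im w, - Im w`: outside of a set of measure at most `4 exp(- E s_m)` one has
`|Re ∑|, |Im ∑| < s_m lam / 2`, so `‖∑‖ ≤ s_m lam`. The union over all `(t, m)`, a countable set, has measure at most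
`∑_t ∑_m 4 exp(- E s_m) ≤ card(T) * 4 / (8 (card(T) + 1)) < 1` (`measure_iUnion_le`, the `ENNReal` sum is the
supremum of its finite partial sums, `ENNReal.tsum_eq_iSup_sum`, which are bounded by `hsum`), so the complement is
nonempty. -/
theorem rand {G 𝓟 M T : Type} [MeasurableSpace G] (μ : Measure G) [IsProbabilityMeasure μ] [Countable M] [Fintype T]
    (Q : Finset 𝓟) (h : T → G → ℝ) (hm : ∀ t, Measurable (h t)) (B : ℝ) (hB1 : 0 < B) (hB : ∀ t g, |h t g| ≤ B)
    (h0 : ∀ t, ∫ g, h t g ∂μ = 0) (w : M → 𝓟 → ℂ) (R : ℝ) (hR : 0 < R) (hw : ∀ m P, ‖w m P‖ ≤ R) (s : M → ℝ)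
    (hs : ∀ m, 1 ≤ s m) (E lam : ℝ) (hE : 0 < E) (hlam : 0 < lam)
    (hEl : 8 * E * Q.card * (B * R) ^ 2 ≤ lam ^ 2)
    (hsum : ∀ F : Finset M, ∑ m ∈ F, Real.exp (-(E * s m)) ≤ 1 / (8 * ((Fintype.card T : ℝ) + 1))) :
    ∃ g : 𝓟 → G, ∀ t m, ‖∑ P ∈ Q, (h t (g P) : ℂ) * w m P‖ ≤ s m * lam := by
  classical
  have hne : Nonempty G := nonempty_of_isProbabilityMeasure μ
  obtain ⟨g₀⟩ := hne
  rcases Q.eq_empty_or_nonempty with hQ | hQ
  · refine ⟨fun _ => g₀, fun t m => ?_⟩
    rw [hQ, Finset.sum_empty, norm_zero]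
    have := hs m
    positivity
  have hcard : 0 < (Q.card : ℝ) := by exact_mod_cast hQ.card_pos
  obtain ⟨ν, hν⟩ : ∃ ν, ν = Measure.pi (fun _ : Q => μ) := ⟨_, rfl⟩
  have hνp : IsProbabilityMeasure ν := by rw [hν]; infer_instance
  -- one tail
  have htail : ∀ t m (u : Q → ℝ), (∀ P, |u P| ≤ R) →
      ν {ω : Q → G | s m * lam / 2 ≤ ∑ P, h t (ω P) * u P} ≤
        ENNReal.ofReal (Real.exp (-(E * s m))) := by
    intro t m u hu
    have hsm := hs m
    have h1 := rand_tail μ (h t) (hm t) B (hB t) (h0 t) u R hu (s m * lam / 2) (by positivity)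
    rw [← hν, Fintype.card_coe] at h1
    have h2 : Real.exp (-(s m * lam / 2) ^ 2 / (2 * (Q.card * (B * R) ^ 2))) ≤
        Real.exp (-(E * s m)) := by
      refine Real.exp_le_exp.2 ?_
      rw [neg_div, neg_le_neg_iff, le_div_iff₀ (by positivity)]
      have h3 : s m ≤ s m ^ 2 := by nlinarith
      have h4 : s m ^ 2 * (8 * E * Q.card * (B * R) ^ 2) ≤ s m ^ 2 * lam ^ 2 :=
        mul_le_mul_of_nonneg_left hEl (by positivity)
      have h5 : E * s m * (2 * (Q.card * (B * R) ^ 2)) ≤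
          E * s m ^ 2 * (2 * (Q.card * (B * R) ^ 2)) := by gcongr
      refine h5.trans ?_
      nlinarith
    rw [← ENNReal.ofReal_toReal (measure_ne_top ν _)]
    exact ENNReal.ofReal_le_ofReal (h1.trans h2)
  -- one bad event
  have hbad : ∀ t m, ν {ω : Q → G | s m * lam < ‖∑ P : Q, (h t (ω P) : ℂ) * w m P‖} ≤
      4 * ENNReal.ofReal (Real.exp (-(E * s m))) := by
    intro t m
    have hre : ∀ P : Q, |(w m P).re| ≤ R := fun P => (Complex.abs_re_le_norm _).trans (hw m P)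
    have him : ∀ P : Q, |(w m P).im| ≤ R := fun P => (Complex.abs_im_le_norm _).trans (hw m P)
    have h1 := htail t m (fun P => (w m P).re) hre
    have h2 := htail t m (fun P => -(w m P).re) (fun P => by rw [abs_neg]; exact hre P)
    have h3 := htail t m (fun P => (w m P).im) him
    have h4 := htail t m (fun P => -(w m P).im) (fun P => by rw [abs_neg]; exact him P)
    have hsub : {ω : Q → G | s m * lam < ‖∑ P : Q, (h t (ω P) : ℂ) * w m P‖} ⊆
        ({ω : Q → G | s m * lam / 2 ≤ ∑ P, h t (ω P) * (w m P).re} ∪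
          {ω : Q → G | s m * lam / 2 ≤ ∑ P, h t (ω P) * (-(w m P).re)}) ∪
        ({ω : Q → G | s m * lam / 2 ≤ ∑ P, h t (ω P) * (w m P).im} ∪
          {ω : Q → G | s m * lam / 2 ≤ ∑ P, h t (ω P) * (-(w m P).im)}) := by
      intro ω hω
      by_contra hc
      simp only [Set.mem_union, Set.mem_ofPred_eq, not_or, not_le] at hc hω
      exact absurd (rand_four (fun P : Q => h t (ω P)) (fun P : Q => w m P) (s m * lam)
        hc.1.1 hc.1.2 hc.2.1 hc.2.2) (not_le.2 hω)
    refine (measure_mono hsub).trans ((measure_union_le _ _).trans ?_)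
    refine (add_le_add ((measure_union_le _ _).trans (add_le_add h1 h2))
      ((measure_union_le _ _).trans (add_le_add h3 h4))).trans (le_of_eq ?_)
    ring
  -- the union
  have hun : ν (⋃ t, ⋃ m, {ω : Q → G | s m * lam < ‖∑ P : Q, (h t (ω P) : ℂ) * w m P‖}) < 1 := by
    have k1 : ∀ t, ν (⋃ m, {ω : Q → G | s m * lam < ‖∑ P : Q, (h t (ω P) : ℂ) * w m P‖}) ≤
        4 * ENNReal.ofReal (1 / (8 * ((Fintype.card T : ℝ) + 1))) := by
      intro t
      refine (measure_iUnion_le _).trans ((ENNReal.tsum_le_tsum (hbad t)).trans ?_)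
      rw [ENNReal.tsum_mul_left]
      gcongr
      rw [ENNReal.tsum_eq_iSup_sum]
      refine iSup_le fun F => ?_
      rw [← ENNReal.ofReal_sum_of_nonneg fun _ _ => (Real.exp_pos _).le]
      exact ENNReal.ofReal_le_ofReal (hsum F)
    refine (measure_iUnion_le _).trans_lt ?_
    rw [tsum_fintype]
    refine (Finset.sum_le_sum fun t _ => k1 t).trans_lt ?_
    rw [Finset.sum_const, Finset.card_univ, nsmul_eq_mul]
    have k2 : ((Fintype.card T : ℕ) : ENNReal) * (4 * ENNReal.ofReal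
        (1 / (8 * ((Fintype.card T : ℝ) + 1)))) = ENNReal.ofReal ((Fintype.card T : ℝ) *
          (4 * (1 / (8 * ((Fintype.card T : ℝ) + 1))))) := by
      rw [ENNReal.ofReal_mul (by positivity), ENNReal.ofReal_mul (by norm_num),
        ENNReal.ofReal_natCast, ENNReal.ofReal_ofNat]
    rw [k2, ← ENNReal.ofReal_one]
    refine (ENNReal.ofReal_lt_ofReal_iff one_pos).2 ?_
    have k3 : 0 ≤ (Fintype.card T : ℝ) := by positivity
    have k4 : (Fintype.card T : ℝ) * (4 * (1 / (8 * ((Fintype.card T : ℝ) + 1)))) =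
        (Fintype.card T : ℝ) / (2 * ((Fintype.card T : ℝ) + 1)) := by
      field_simp
      ring
    rw [k4, div_lt_one (by positivity)]
    linarith
  obtain ⟨ω, hω⟩ : ∃ ω : Q → G, ω ∉ ⋃ t, ⋃ m,
      {ω : Q → G | s m * lam < ‖∑ P : Q, (h t (ω P) : ℂ) * w m P‖} := by
    by_contra hc
    push Not at hc
    have h1 := Set.eq_univ_of_forall hc
    rw [h1, measure_univ] at hun
    exact lt_irrefl _ hun
  refine ⟨fun P => if hP : P ∈ Q then ω ⟨P, hP⟩ else g₀, fun t m => ?_⟩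
  have h1 : ¬ s m * lam < ‖∑ P : Q, (h t (ω P) : ℂ) * w m P‖ := fun h2 =>
    hω (Set.mem_iUnion.2 ⟨t, Set.mem_iUnion.2 ⟨m, h2⟩⟩)
  refine le_trans (le_of_eq ?_) (not_lt.1 h1)
  congr 1
  rw [← Finset.sum_coe_sort Q (fun P => (h t (if hP : P ∈ Q then ω ⟨P, hP⟩ else g₀) : ℂ) * w m P)]
  refine Finset.sum_congr rfl fun P _ => ?_
  rw [dif_pos P.2]

end Pool.Agent.H497.TT
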