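import Pool.Agent.H497.TT.Defs
import Pool.Agent.H497.TT.Rand

set_option autoImplicit false



namespace Pool.Agent.H497.TT

open MeasureTheory


/-- With `y = q^a x ≤ 1/2`: `∑_{χ ∈ F} x^(c χ + 1) ≤ ∑_n #{c ≤ n} x^(n+1) ≤ ∑_n A q^(a(n+1)) x^(n+1) = A ∑_n y^(n+1)
≤ 2 A y` (group `F` by the value of `c`; `n` runs over `range (sup + 1)`). -/
theorem count {𝓟 𝓧 : Type} (S : TSys 𝓟 𝓧) (x : ℝ) (hx : 0 ≤ x) (h : 2 * ((S.q : ℝ) ^ S.a * x) ≤ 1) (F : Finset 𝓧) :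
    ∑ χ ∈ F, x ^ (S.c χ + 1) ≤ 2 * S.A * ((S.q : ℝ) ^ S.a * x) := by
  classical
  set y : ℝ := (S.q : ℝ) ^ S.a * x with hy
  have hy0 : 0 ≤ y := by positivity
  have hy1 : y ≤ 1 / 2 := by linarith
  have hA0 : (0 : ℝ) ≤ S.A := Nat.cast_nonneg _
  have h1 : ∑ χ ∈ F, x ^ (S.c χ + 1) =
      ∑ n ∈ Finset.range (F.sup S.c + 1), ∑ χ ∈ F with S.c χ = n, x ^ (S.c χ + 1) :=
    (Finset.sum_fiberwise_of_maps_to (fun χ hχ => Finset.mem_range.2
      (Nat.lt_succ_of_le (Finset.le_sup (f := S.c) hχ))) _).symm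
  rw [h1]
  have h2 : ∀ n ∈ Finset.range (F.sup S.c + 1), ∑ χ ∈ F with S.c χ = n, x ^ (S.c χ + 1) ≤
      S.A * (y * y ^ n) := by
    intro n _
    have h3 : ∑ χ ∈ F with S.c χ = n, x ^ (S.c χ + 1) =
        ((F.filter fun χ => S.c χ = n).card : ℝ) * x ^ (n + 1) := by
      rw [Finset.sum_congr rfl fun χ hχ => by rw [(Finset.mem_filter.1 hχ).2],
        Finset.sum_const, nsmul_eq_mul]
    rw [h3]
    have h4 : ((F.filter fun χ => S.c χ = n).card : ℝ) ≤ S.A * (S.q : ℝ) ^ (S.a * (n + 1)) := by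
      refine le_trans ?_ (S.fin_card n)
      have h5 : ((F.filter fun χ => S.c χ = n : Finset 𝓧) : Set 𝓧) ⊆ {χ : 𝓧 | S.c χ ≤ n} :=
        fun χ hχ => ((Finset.mem_filter.1 (Finset.mem_coe.1 hχ)).2).le
      have h6 := Set.ncard_le_ncard h5 (S.fin n)
      rw [Set.ncard_coe_finset] at h6
      exact_mod_cast h6
    calc ((F.filter fun χ => S.c χ = n).card : ℝ) * x ^ (n + 1)
        ≤ (S.A * (S.q : ℝ) ^ (S.a * (n + 1))) * x ^ (n + 1) :=
          mul_le_mul_of_nonneg_right h4 (by positivity)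
      _ = S.A * (y * y ^ n) := by
          rw [hy, pow_mul, ← pow_succ', mul_pow]
          ring
  refine (Finset.sum_le_sum h2).trans ?_
  rw [← Finset.mul_sum, ← Finset.mul_sum]
  have h3 : ∑ n ∈ Finset.range (F.sup S.c + 1), y ^ n ≤ 2 := by
    refine le_trans (Finset.sum_le_sum fun n _ => pow_le_pow_left₀ hy0 hy1 n) ?_
    exact sum_geometric_two_le _
  calc (S.A : ℝ) * (y * ∑ n ∈ Finset.range (F.sup S.c + 1), y ^ n) ≤ S.A * (y * 2) := by gcongr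
    _ = 2 * S.A * y := by ring

/-- Use `rand` with the index set `𝓧 ⊕ (𝓧 × 𝓧)` (`𝓧` is countable, being the union of the finite sets `{c ≤ n}`),
weights `lam χ P 1` and `lam χ P 1 * conj (lam χ' P 1)`, of absolute value `≤ (R + 1)^2`, sizes `s = c χ + 2` and
`c χ + c χ' + 2`, and `lam = q^((1/2+η)K)`. The sums `∑ exp(- E s)` are at most `x ∑ x^(c+1)` and `(∑ x^(c+1))^2`, with
`x = exp(-E)`, small for `E` large by `count`; fix such an `E` (it depends on `card T`, `A`, `a`, `q` only). The condition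
`8 E card(Pr K) (B (R+1)^2)^2 ≤ q^((1+2η)K)` holds for all large `K` as `card(Pr K) ≤ (1 + A) q^K` (from `Pr_card`). -/
theorem rand_base {𝓟 𝓧 : Type} (S : TSys 𝓟 𝓧) {G T : Type} [MeasurableSpace G] (μ : Measure G)
    [IsProbabilityMeasure μ] [Fintype T] (h : T → G → ℝ) (hm : ∀ t, Measurable (h t)) (B : ℝ) (hB1 : 0 < B)
    (hB : ∀ t g, |h t g| ≤ B) (h0 : ∀ t, ∫ g, h t g ∂μ = 0) (η : ℝ) (hη : 0 < η) :
    ∃ K0 : ℕ, ∀ K, K0 ≤ K → ∃ g : 𝓟 → G,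
      (∀ t χ, ‖∑ P ∈ S.Pr K, (h t (g P) : ℂ) * S.lam χ P 1‖ ≤
        ((S.c χ : ℝ) + 2) * (S.q : ℝ) ^ ((1 / 2 + η) * K)) ∧
      ∀ t χ χ', ‖∑ P ∈ S.Pr K, (h t (g P) : ℂ) * (S.lam χ P 1 * starRingEnd ℂ (S.lam χ' P 1))‖ ≤
        ((S.c χ : ℝ) + S.c χ' + 2) * (S.q : ℝ) ^ ((1 / 2 + η) * K) := by
  classical
  have hq : (2 : ℝ) ≤ S.q := by exact_mod_cast S.hq
  have hq0 : (0 : ℝ) < S.q := by linarith
  have hA : (1 : ℝ) ≤ S.A := by exact_mod_cast S.hA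
  -- countability
  have hcnt : Countable 𝓧 := by
    rw [← Set.countable_univ_iff]
    have h1 : (Set.univ : Set 𝓧) = ⋃ n : ℕ, {χ : 𝓧 | S.c χ ≤ n} := by
      ext χ
      simp only [Set.mem_univ, Set.mem_iUnion, Set.mem_ofPred_eq, true_iff]
      exact ⟨S.c χ, le_rfl⟩
    rw [h1]
    exact Set.countable_iUnion fun n => (S.fin n).countable
  -- the weights
  set w : 𝓧 ⊕ (𝓧 × 𝓧) → 𝓟 → ℂ := fun m P =>
    Sum.elim (fun χ => S.lam χ P 1) (fun z => S.lam z.1 P 1 * starRingEnd ℂ (S.lam z.2 P 1)) m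
    with hw
  set s : 𝓧 ⊕ (𝓧 × 𝓧) → ℝ := fun m =>
    Sum.elim (fun χ => (S.c χ : ℝ) + 2) (fun z => (S.c z.1 : ℝ) + S.c z.2 + 2) m with hs
  set R : ℝ := ((S.R : ℝ) + 1) ^ 2 with hR
  have hR0 : 0 < R := by positivity
  have hlam : ∀ χ P, ‖S.lam χ P 1‖ ≤ S.R := by
    intro χ P
    unfold TSys.lam
    refine (norm_sum_le _ _).trans ?_
    calc ∑ j, ‖S.par χ P j ^ 1‖ ≤ ∑ _j : Fin S.R, (1 : ℝ) := by
          refine Finset.sum_le_sum fun j _ => ?_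
          rw [pow_one]
          exact S.par_le χ P j
      _ = S.R := by simp
  have hRn : (0 : ℝ) ≤ S.R := Nat.cast_nonneg _
  have hwR : ∀ m P, ‖w m P‖ ≤ R := by
    rintro (χ | ⟨χ, χ'⟩) P
    · show ‖S.lam χ P 1‖ ≤ R
      refine (hlam χ P).trans ?_
      rw [hR]
      nlinarith
    · show ‖S.lam χ P 1 * starRingEnd ℂ (S.lam χ' P 1)‖ ≤ R
      rw [norm_mul, RCLike.norm_conj]
      calc ‖S.lam χ P 1‖ * ‖S.lam χ' P 1‖ ≤ S.R * S.R :=
            mul_le_mul (hlam χ P) (hlam χ' P) (norm_nonneg _) hRn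
        _ ≤ R := by rw [hR]; nlinarith
  have hs1 : ∀ m, 1 ≤ s m := by
    rintro (χ | ⟨χ, χ'⟩)
    · show (1 : ℝ) ≤ (S.c χ : ℝ) + 2
      have := (Nat.cast_nonneg (S.c χ) : (0 : ℝ) ≤ S.c χ)
      linarith
    · show (1 : ℝ) ≤ (S.c χ : ℝ) + S.c χ' + 2
      have := (Nat.cast_nonneg (S.c χ) : (0 : ℝ) ≤ S.c χ)
      have := (Nat.cast_nonneg (S.c χ') : (0 : ℝ) ≤ S.c χ')
      linarith
  -- the choice of `E`
  set δ : ℝ := 1 / (16 * ((Fintype.card T : ℝ) + 1)) with hδ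
  have hT0 : (0 : ℝ) ≤ Fintype.card T := Nat.cast_nonneg _
  have hδ0 : 0 < δ := by positivity
  have hδ1 : δ ≤ 1 / 16 := by
    rw [hδ]
    exact one_div_le_one_div_of_le (by norm_num) (by linarith)
  have hqa : (1 : ℝ) ≤ (S.q : ℝ) ^ S.a := one_le_pow₀ (by linarith)
  set D : ℝ := 2 * S.A * (S.q : ℝ) ^ S.a / δ with hD
  have hD1 : 1 < D := by
    rw [hD, lt_div_iff₀ hδ0]
    nlinarith
  set E : ℝ := Real.log D with hE
  have hE0 : 0 < E := Real.log_pos hD1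
  set x : ℝ := Real.exp (-E) with hx
  have hx0 : 0 < x := Real.exp_pos _
  have hx1 : x ≤ 1 := Real.exp_le_one_iff.2 (by linarith)
  have hxD : x = 1 / D := by rw [hx, Real.exp_neg, hE, Real.exp_log (by linarith), one_div]
  have hAy : 2 * S.A * ((S.q : ℝ) ^ S.a * x) = δ := by
    rw [hxD, hD]
    field_simp
  have hy : 2 * ((S.q : ℝ) ^ S.a * x) ≤ 1 := by
    have h1 : 0 ≤ (S.q : ℝ) ^ S.a * x := by positivity
    nlinarith
  have hexp : ∀ n : ℕ, Real.exp (-(E * ((n : ℝ) + 1))) = x ^ (n + 1) := by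
    intro n
    rw [hx, ← Real.exp_nat_mul]
    congr 1
    push_cast
    ring
  have hsum : ∀ F : Finset (𝓧 ⊕ (𝓧 × 𝓧)),
      ∑ m ∈ F, Real.exp (-(E * s m)) ≤ 1 / (8 * ((Fintype.card T : ℝ) + 1)) := by
    intro F
    rw [← Finset.toLeft_disjSum_toRight (u := F), Finset.sum_disjSum]
    have h1 : ∑ χ ∈ F.toLeft, Real.exp (-(E * s (Sum.inl χ))) ≤ δ := by
      have h2 : ∀ χ ∈ F.toLeft, Real.exp (-(E * s (Sum.inl χ))) ≤ x ^ (S.c χ + 1) := by
        intro χ _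
        rw [← hexp]
        apply Real.exp_le_exp.2
        show -(E * ((S.c χ : ℝ) + 2)) ≤ _
        nlinarith
      exact (Finset.sum_le_sum h2).trans ((count S x hx0.le hy _).trans hAy.le)
    have h2 : ∑ z ∈ F.toRight, Real.exp (-(E * s (Sum.inr z))) ≤ δ := by
      have h3 : ∀ z : 𝓧 × 𝓧, Real.exp (-(E * s (Sum.inr z))) =
          x ^ (S.c z.1 + 1) * x ^ (S.c z.2 + 1) := by
        intro z
        rw [← hexp, ← hexp, ← Real.exp_add]
        congr 1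
        show -(E * ((S.c z.1 : ℝ) + S.c z.2 + 2)) = _
        ring
      simp only [h3]
      calc ∑ z ∈ F.toRight, x ^ (S.c z.1 + 1) * x ^ (S.c z.2 + 1)
          ≤ ∑ z ∈ F.toRight.image Prod.fst ×ˢ F.toRight.image Prod.snd,
              x ^ (S.c z.1 + 1) * x ^ (S.c z.2 + 1) := by
            refine Finset.sum_le_sum_of_subset_of_nonneg Finset.subset_product fun z _ _ => ?_
            positivity
        _ = (∑ χ ∈ F.toRight.image Prod.fst, x ^ (S.c χ + 1)) *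
              ∑ χ ∈ F.toRight.image Prod.snd, x ^ (S.c χ + 1) := by
            rw [Finset.sum_product, Finset.sum_mul_sum]
        _ ≤ δ * δ := by
            refine mul_le_mul ((count S x hx0.le hy _).trans hAy.le)
              ((count S x hx0.le hy _).trans hAy.le) ?_ hδ0.le
            exact Finset.sum_nonneg fun _ _ => by positivity
        _ ≤ δ := by nlinarith
    refine (add_le_add h1 h2).trans (le_of_eq ?_)
    rw [hδ]
    field_simp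
    norm_num
  -- large `K`
  set C : ℝ := 8 * E * (1 + S.A) * (B * R) ^ 2 with hC
  have hρ : 1 < (S.q : ℝ) ^ (2 * η) := Real.one_lt_rpow (by linarith) (by positivity)
  obtain ⟨K0, hK0⟩ := pow_unbounded_of_one_lt C hρ
  refine ⟨K0 + 1, fun K hK => ?_⟩
  have hKpos : K ≠ 0 := by omega
  have hK1 : (1 : ℝ) ≤ K := by exact_mod_cast Nat.one_le_iff_ne_zero.2 hKpos
  have hcard : ((S.Pr K).card : ℝ) ≤ (1 + S.A) * (S.q : ℝ) ^ K := by
    have h1 := (abs_le.1 (S.Pr_card K hKpos)).2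
    have h2 : √(S.q : ℝ) ^ K ≤ (S.q : ℝ) ^ K := by
      refine pow_le_pow_left₀ (Real.sqrt_nonneg _) ?_ K
      rw [Real.sqrt_le_left (by linarith)]
      nlinarith
    have h3 : ((S.Pr K).card : ℝ) ≤ K * (S.Pr K).card :=
      le_mul_of_one_le_left (Nat.cast_nonneg _) hK1
    have h4 : (S.A : ℝ) * √(S.q : ℝ) ^ K ≤ S.A * (S.q : ℝ) ^ K :=
      mul_le_mul_of_nonneg_left h2 (by linarith)
    linarith
  have hEl : 8 * E * (S.Pr K).card * (B * R) ^ 2 ≤ ((S.q : ℝ) ^ ((1 / 2 + η) * K)) ^ 2 := by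
    have h1 : ((S.q : ℝ) ^ ((1 / 2 + η) * K)) ^ 2 = (S.q : ℝ) ^ K * ((S.q : ℝ) ^ (2 * η)) ^ K := by
      rw [← Real.rpow_natCast, ← Real.rpow_mul hq0.le, ← Real.rpow_natCast (S.q : ℝ) K,
        ← Real.rpow_natCast ((S.q : ℝ) ^ (2 * η)) K, ← Real.rpow_mul hq0.le,
        ← Real.rpow_add hq0]
      congr 1
      push_cast
      ring
    have h2 : C ≤ ((S.q : ℝ) ^ (2 * η)) ^ K :=
      hK0.le.trans (pow_le_pow_right₀ hρ.le (by omega))
    rw [h1]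
    calc 8 * E * (S.Pr K).card * (B * R) ^ 2
        ≤ 8 * E * ((1 + S.A) * (S.q : ℝ) ^ K) * (B * R) ^ 2 := by gcongr
      _ = (S.q : ℝ) ^ K * C := by rw [hC]; ring
      _ ≤ _ := by gcongr
  obtain ⟨g, hg⟩ := rand μ (S.Pr K) h hm B hB1 hB h0 w R hR0 hwR s hs1 E
    ((S.q : ℝ) ^ ((1 / 2 + η) * K)) hE0 (Real.rpow_pos_of_pos hq0 _) hEl hsum
  exact ⟨g, fun t χ => hg t (Sum.inl χ), fun t χ χ' => hg t (Sum.inr (χ, χ'))⟩


end Pool.Agent.H497.TT
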