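import Mathlib

set_option autoImplicit false

namespace Pool.Agent.H497.TT

/-- the product of the one-parameter subgroups with generators `X j` -/
noncomputable def eprod {s n : ℕ} (X : Fin s → Matrix (Fin n) (Fin n) ℂ) (t : Fin s → ℝ) : Matrix (Fin n) (Fin n) ℂ :=
  (List.ofFn fun j => NormedSpace.exp (t j • X j)).prod

/-- irreducible unitary matrix representations -/
def Irr {G : Type} [Group G] {n : ℕ} (ρ : G →* Matrix.unitaryGroup (Fin n) ℂ) : Prop :=
  0 < n ∧ ∀ V : Submodule ℂ (Fin n → ℂ),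
    (∀ g, ∀ v ∈ V, (ρ g : Matrix (Fin n) (Fin n) ℂ).mulVec v ∈ V) → V = ⊥ ∨ V = ⊤

/-- equivalence of matrix representations -/
def Equi {G : Type} {n m : ℕ} (A : G → Matrix (Fin n) (Fin n) ℂ) (B : G → Matrix (Fin m) (Fin m) ℂ) : Prop :=
  ∃ T : (Fin n → ℂ) ≃ₗ[ℂ] (Fin m → ℂ), ∀ g v, T ((A g).mulVec v) = (B g).mulVec (T v)

/-- the matrices of a representation -/
def mat {G : Type} [Group G] {n : ℕ} (ρ : G →* Matrix.unitaryGroup (Fin n) ℂ) (g : G) : Matrix (Fin n) (Fin n) ℂ :=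
  (ρ g : Matrix (Fin n) (Fin n) ℂ)

/-- the matrices of the contragredient (complex conjugate) representation -/
def cmat {G : Type} [Group G] {n : ℕ} (ρ : G →* Matrix.unitaryGroup (Fin n) ℂ) (g : G) : Matrix (Fin n) (Fin n) ℂ :=
  (ρ g : Matrix (Fin n) (Fin n) ℂ).map (starRingEnd ℂ)

end Pool.Agent.H497.TT
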