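import Pool.Agent.H497.TT.RDefs

set_option autoImplicit false

namespace Pool.Agent.H497.TT

open MeasureTheory


/-- Schur: a nonzero intertwiner between irreducible representations is an isomorphism: its kernel and range are
invariant subspaces. -/
theorem schur {G : Type} [Group G] {n m : ℕ} (ρ : G →* Matrix.unitaryGroup (Fin n) ℂ)
    (σ : G →* Matrix.unitaryGroup (Fin m) ℂ) (h1 : Irr ρ) (h2 : Irr σ) (h : ¬ Equi (mat ρ) (mat σ))
    (T : Matrix (Fin m) (Fin n) ℂ) (hT : ∀ g, mat σ g * T = T * mat ρ g) : T = 0 := by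
  have hTv : ∀ g (v : Fin n → ℂ), T.mulVec ((mat ρ g).mulVec v) = (mat σ g).mulVec (T.mulVec v) := by
    intro g v
    rw [Matrix.mulVec_mulVec, Matrix.mulVec_mulVec, hT g]
  have hzero : (∀ v : Fin n → ℂ, T.mulVec v = 0) → T = 0 := by
    intro h0
    ext i j
    have := congrFun (h0 (Pi.single j 1)) i
    rw [Matrix.mulVec_single_one] at this
    simpa using this
  rcases h1.2 (LinearMap.ker T.mulVecLin) (by
    intro g v hv
    rw [LinearMap.mem_ker, Matrix.mulVecLin_apply] at hv ⊢
    have := hTv g v
    rw [hv, Matrix.mulVec_zero] at this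
    exact this) with hk | hk
  · rcases h2.2 (LinearMap.range T.mulVecLin) (by
      intro g v hv
      obtain ⟨w, rfl⟩ := LinearMap.mem_range.1 hv
      refine LinearMap.mem_range.2 ⟨(mat ρ g).mulVec w, ?_⟩
      rw [Matrix.mulVecLin_apply, Matrix.mulVecLin_apply, hTv g w]
      rfl) with hr | hr
    · apply hzero
      intro v
      have : T.mulVecLin v ∈ LinearMap.range T.mulVecLin := LinearMap.mem_range_self _ _
      rw [hr] at this
      simpa using this
    · exfalso
      apply h
      refine ⟨LinearEquiv.ofBijective T.mulVecLin ⟨LinearMap.ker_eq_bot.1 hk, LinearMap.range_eq_top.1 hr⟩, ?_⟩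
      intro g v
      exact hTv g v
  · apply hzero
    intro v
    have : v ∈ LinearMap.ker T.mulVecLin := by rw [hk]; trivial
    simpa using this

theorem mat_mul {G : Type} [Group G] {n : ℕ} (ρ : G →* Matrix.unitaryGroup (Fin n) ℂ) (g h : G) (a b : Fin n) :
    mat ρ (g * h) a b = ∑ e, mat ρ g a e * mat ρ h e b := by
  unfold mat
  rw [map_mul, Submonoid.coe_mul, Matrix.mul_apply]

theorem mat_inv {G : Type} [Group G] {n : ℕ} (ρ : G →* Matrix.unitaryGroup (Fin n) ℂ) (g : G) (a b : Fin n) :
    mat ρ g⁻¹ a b = starRingEnd ℂ (mat ρ g b a) := by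
  unfold mat
  rw [map_inv]
  rfl

theorem mat_cont {G : Type} [Group G] [TopologicalSpace G] {n : ℕ} (ρ : G →* Matrix.unitaryGroup (Fin n) ℂ)
    (hρ : Continuous ρ) (a b : Fin n) : Continuous fun g => mat ρ g a b := by
  have h1 : Continuous fun g => (ρ g : Matrix (Fin n) (Fin n) ℂ) := continuous_subtype_val.comp hρ
  exact (continuous_apply b).comp ((continuous_apply a).comp h1)

theorem orth_entry {G : Type} [Group G] [TopologicalSpace G] [IsTopologicalGroup G] [CompactSpace G] [T2Space G]
    [MeasurableSpace G] [BorelSpace G] (μ : Measure G) [μ.IsHaarMeasure] [IsProbabilityMeasure μ] {n m : ℕ}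
    (ρ : G →* Matrix.unitaryGroup (Fin n) ℂ) (σ : G →* Matrix.unitaryGroup (Fin m) ℂ) (hρ : Continuous ρ)
    (hσ : Continuous σ) (h1 : Irr ρ) (h2 : Irr σ) (h : ¬ Equi (mat ρ) (mat σ)) (a : Fin m) (b : Fin n) (c : Fin m)
    (d : Fin n) : ∫ g, mat σ g c a * starRingEnd ℂ (mat ρ g d b) ∂μ = 0 := by
  have hint : ∀ f : G → ℂ, Continuous f → Integrable f μ := fun f hf =>
    hf.integrable_of_hasCompactSupport (HasCompactSupport.of_compactSpace f)
  set T : Matrix (Fin m) (Fin n) ℂ := Matrix.of fun c d => ∫ g, mat σ g c a * starRingEnd ℂ (mat ρ g d b) ∂μ with hTdef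
  have hT : ∀ k, mat σ k * T = T * mat ρ k := by
    intro k
    ext c d
    rw [Matrix.mul_apply, Matrix.mul_apply]
    have e1 : ∑ e, mat σ k c e * T e d = ∫ g, mat σ (k * g) c a * starRingEnd ℂ (mat ρ g d b) ∂μ := by
      have : ∀ e, mat σ k c e * T e d = ∫ g, mat σ k c e * (mat σ g e a * starRingEnd ℂ (mat ρ g d b)) ∂μ := by
        intro e
        rw [hTdef, Matrix.of_apply, integral_const_mul]
      rw [Finset.sum_congr rfl fun e _ => this e, ← integral_finsetSum]
      · apply integral_congr_ae
        refine Filter.Eventually.of_forall fun g => ?_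
        show _ = _
        dsimp only
        rw [mat_mul, Finset.sum_mul]
        exact Finset.sum_congr rfl fun e _ => by ring
      · intro e _
        apply hint
        exact continuous_const.mul ((mat_cont σ hσ _ _).mul
          (Complex.continuous_conj.comp (mat_cont ρ hρ _ _)))
    have e2 : ∑ e, T c e * mat ρ k e d = ∫ g, mat σ g c a * starRingEnd ℂ (mat ρ (k⁻¹ * g) d b) ∂μ := by
      have : ∀ e, T c e * mat ρ k e d = ∫ g, (mat σ g c a * starRingEnd ℂ (mat ρ g e b)) * mat ρ k e d ∂μ := by
        intro e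
        rw [hTdef, Matrix.of_apply, integral_mul_const]
      rw [Finset.sum_congr rfl fun e _ => this e, ← integral_finsetSum]
      · apply integral_congr_ae
        refine Filter.Eventually.of_forall fun g => ?_
        show _ = _
        dsimp only
        rw [mat_mul, map_sum, Finset.mul_sum]
        refine Finset.sum_congr rfl fun e _ => ?_
        rw [mat_inv, map_mul, Complex.conj_conj]
        ring
      · intro e _
        apply hint
        exact ((mat_cont σ hσ _ _).mul
          (Complex.continuous_conj.comp (mat_cont ρ hρ _ _))).mul continuous_const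
    rw [e1, e2, ← integral_mul_left_eq_self (fun g => mat σ g c a * starRingEnd ℂ (mat ρ (k⁻¹ * g) d b)) k]
    apply integral_congr_ae
    refine Filter.Eventually.of_forall fun g => ?_
    dsimp only
    rw [inv_mul_cancel_left]
  have h0 := schur ρ σ h1 h2 h T hT
  have := congrFun (congrFun h0 c) d
  simpa [hTdef] using this

/-- For every `A`, `T = ∫ σ(g) A ρ(g)⁻¹ dμ(g)` (entrywise; `ρ(g)⁻¹ = ρ(g)ᴴ`; all entries are continuous and bounded, so
integrable) satisfies `σ(h) T = T ρ(h)` by invariance of `μ` (`integral_mul_left_eq_self`), so `T = 0` by `schur`. For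
`A = E_{ab}`: `∫ σ(g)_{ca} conj(ρ(g)_{db}) = 0` for all `a, b, c, d`; take `c = a`, `d = b`, sum over `a`, `b`, and conjugate. -/
theorem orth_char {G : Type} [Group G] [TopologicalSpace G] [IsTopologicalGroup G] [CompactSpace G] [T2Space G]
    [MeasurableSpace G] [BorelSpace G] (μ : Measure G) [μ.IsHaarMeasure] [IsProbabilityMeasure μ] {n m : ℕ}
    (ρ : G →* Matrix.unitaryGroup (Fin n) ℂ) (σ : G →* Matrix.unitaryGroup (Fin m) ℂ) (hρ : Continuous ρ)
    (hσ : Continuous σ) (h1 : Irr ρ) (h2 : Irr σ) (h : ¬ Equi (mat ρ) (mat σ)) :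
    ∫ g, (mat ρ g).trace * starRingEnd ℂ (mat σ g).trace ∂μ = 0 := by
  have hint : ∀ f : G → ℂ, Continuous f → Integrable f μ := fun f hf =>
    hf.integrable_of_hasCompactSupport (HasCompactSupport.of_compactSpace f)
  have e1 : ∀ g, (mat ρ g).trace * starRingEnd ℂ (mat σ g).trace =
      ∑ b, ∑ a, starRingEnd ℂ (mat σ g a a * starRingEnd ℂ (mat ρ g b b)) := by
    intro g
    unfold Matrix.trace
    rw [map_sum, Finset.sum_mul_sum]
    refine Finset.sum_congr rfl fun b _ => Finset.sum_congr rfl fun a _ => ?_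
    rw [map_mul, Complex.conj_conj, Matrix.diag_apply, Matrix.diag_apply, mul_comm]
  have hc : ∀ a b, Continuous fun g => starRingEnd ℂ (mat σ g a a * starRingEnd ℂ (mat ρ g b b)) := fun a b =>
    Complex.continuous_conj.comp ((mat_cont σ hσ _ _).mul (Complex.continuous_conj.comp (mat_cont ρ hρ _ _)))
  rw [integral_congr_ae (Filter.Eventually.of_forall e1), integral_finsetSum]
  · refine Finset.sum_eq_zero fun b _ => ?_
    rw [integral_finsetSum]
    · refine Finset.sum_eq_zero fun a _ => ?_
      rw [integral_conj, orth_entry μ ρ σ hρ hσ h1 h2 h, map_zero]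
    · intro a _
      exact hint _ (hc a b)
  · intro b _
    exact hint _ (continuous_finsetSum _ fun a _ => hc a b)


end Pool.Agent.H497.TT
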