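import Pool.Agent.H497.TT.RBase
import Pool.Agent.H497.TT.Core
import Pool.Agent.H497.TT.Outside

set_option autoImplicit false



namespace Pool.Agent.H497.TT

open MeasureTheory


/-- elementary -/
theorem asym (q : ℕ) (hq : 2 ≤ q) (C x y : ℝ) (m : ℕ) (hxy : x < y) :
    ∃ K0 : ℕ, ∀ K : ℕ, K0 ≤ K → C * ((K : ℝ) + 1) ^ m * (q : ℝ) ^ (x * K) ≤ (q : ℝ) ^ (y * K) := by
  have hq1 : (1 : ℝ) < q := by exact_mod_cast (by omega : 1 < q)
  have hq0 : (0 : ℝ) < q := by linarith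
  set r : ℝ := (q : ℝ) ^ (y - x) with hr
  have hr1 : 1 < r := Real.one_lt_rpow hq1 (by linarith)
  have hr0 : 0 < r := by linarith
  have h1 := (tendsto_pow_const_div_const_pow_of_one_lt m hr1)
  have h2 := (h1.comp (Filter.tendsto_add_atTop_nat 1)).const_mul C
  rw [mul_zero] at h2
  have h3 := h2.eventually (gt_mem_nhds (inv_pos.2 hr0))
  obtain ⟨K0, hK0⟩ := Filter.eventually_atTop.1 h3
  refine ⟨K0, fun K hK => ?_⟩
  have h4 := hK0 K hK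
  simp only [Function.comp] at h4
  push_cast at h4
  have h5 : C * ((K : ℝ) + 1) ^ m ≤ r ^ K := by
    have h6 := mul_lt_mul_of_pos_right h4 (pow_pos hr0 (K + 1))
    have e1 : C * (((K : ℝ) + 1) ^ m / r ^ (K + 1)) * r ^ (K + 1) = C * ((K : ℝ) + 1) ^ m := by
      field_simp
    have e2 : r⁻¹ * r ^ (K + 1) = r ^ K := by
      rw [pow_succ]
      field_simp
    rw [e1, e2] at h6
    exact h6.le
  have e3 : (q : ℝ) ^ (y * K) = r ^ K * (q : ℝ) ^ (x * K) := by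
    rw [hr, ← Real.rpow_natCast ((q : ℝ) ^ (y - x)) K, ← Real.rpow_mul hq0.le, ← Real.rpow_add hq0]
    congr 1
    ring
  rw [e3]
  exact mul_le_mul_of_nonneg_right h5 (Real.rpow_nonneg hq0.le _)

/-- `χ ∈ X κ K` has `κ (c χ + 1) ≤ K`, so `c χ ≤ K / κ - 1` (and `X` is empty if `K < κ`); `fin_card` at
`K / κ - 1` gives `A q^(a (K/κ))`, and `a K / κ ≤ η K / 8`. -/
theorem X_card {𝓟 𝓧 : Type} (S : TSys 𝓟 𝓧) (η : ℝ) (hη : 0 < η) (κ : ℕ) (hκ : 1 ≤ κ) (hκη : 8 * (S.a : ℝ) ≤ η * κ)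
    (K : ℕ) : ((S.X κ K).card : ℝ) ≤ S.A * (S.q : ℝ) ^ (η / 8 * K) := by
  have hq1 : (1 : ℝ) ≤ S.q := by exact_mod_cast (by have := S.hq; omega : 1 ≤ S.q)
  have hq0 : (0 : ℝ) < S.q := by linarith
  have hrhs : (0 : ℝ) ≤ S.A * (S.q : ℝ) ^ (η / 8 * K) := by positivity
  rcases Nat.lt_or_ge K κ with hlt | hge
  · have he : S.X κ K = ∅ := by
      rw [Finset.eq_empty_iff_forall_notMem]
      intro χ hχ
      have h1 := ((TSys.mem_X hκ).1 hχ).1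
      nlinarith [Nat.zero_le (S.c χ)]
    rw [he, Finset.card_empty, Nat.cast_zero]
    exact hrhs
  · have hd : 1 ≤ K / κ := (Nat.one_le_div_iff (by omega)).2 hge
    have hsub : ((S.X κ K : Finset 𝓧) : Set 𝓧) ⊆ {χ : 𝓧 | S.c χ ≤ K / κ - 1} := by
      intro χ hχ
      have h1 := ((TSys.mem_X hκ).1 (Finset.mem_coe.1 hχ)).1
      have h2 : S.c χ + 1 ≤ K / κ := by
        rw [Nat.le_div_iff_mul_le (by omega)]
        rw [mul_comm]
        exact h1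
      show S.c χ ≤ K / κ - 1
      omega
    have h3 : (S.X κ K).card ≤ {χ : 𝓧 | S.c χ ≤ K / κ - 1}.ncard := by
      rw [← Set.ncard_coe_finset]
      exact Set.ncard_le_ncard hsub (S.fin _)
    have h4 := S.fin_card (K / κ - 1)
    have h5 : ((S.X κ K).card : ℝ) ≤ S.A * (S.q : ℝ) ^ (S.a * (K / κ - 1 + 1)) :=
      le_trans (by exact_mod_cast h3) h4
    refine h5.trans ?_
    refine mul_le_mul_of_nonneg_left ?_ (by positivity)
    rw [← Real.rpow_natCast]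
    refine Real.rpow_le_rpow_of_exponent_le hq1 ?_
    have e : K / κ - 1 + 1 = K / κ := by omega
    rw [e]
    push_cast
    have hκ0 : (0 : ℝ) < κ := by exact_mod_cast (by omega : 0 < κ)
    have h6 : ((K / κ : ℕ) : ℝ) ≤ (K : ℝ) / κ := Nat.cast_div_le
    have h7 : (S.a : ℝ) * ((K / κ : ℕ) : ℝ) ≤ (S.a : ℝ) * ((K : ℝ) / κ) :=
      mul_le_mul_of_nonneg_left h6 (by positivity)
    refine h7.trans ?_
    rw [← mul_div_assoc, div_le_iff₀ hκ0]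
    have hK0 : (0 : ℝ) ≤ K := by positivity
    nlinarith

theorem lam_one {𝓟 𝓧 : Type} (S : TSys 𝓟 𝓧) (χ : 𝓧) (P : 𝓟) : S.lam χ P 1 = ∑ j, S.par χ P j := by
  unfold TSys.lam
  simp only [pow_one]

theorem lam_le_one {𝓟 𝓧 : Type} (S : TSys 𝓟 𝓧) (χ : 𝓧) (P : 𝓟) : ‖S.lam χ P 1‖ ≤ S.R := by
  rw [lam_one]
  refine (norm_sum_le _ _).trans ?_
  refine (Finset.sum_le_sum (fun j _ => S.par_le χ P j)).trans ?_
  rw [Finset.sum_const, Finset.card_univ, Fintype.card_fin, nsmul_eq_mul, mul_one]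

theorem lam_bar {𝓟 𝓧 : Type} (S : TSys 𝓟 𝓧) (χ : 𝓧) (P : 𝓟) :
    S.lam (S.bar χ) P 1 = starRingEnd ℂ (S.lam χ P 1) := S.bar_par χ P 1

theorem sqrt_pow {q : ℕ} (K : ℕ) : √(q : ℝ) ^ K = (q : ℝ) ^ (1 / 2 * (K : ℝ)) := by
  have h0 : (0 : ℝ) ≤ q := by positivity
  rw [Real.sqrt_eq_rpow, ← Real.rpow_natCast, ← Real.rpow_mul h0]

/-- the test functions -/
noncomputable def tst {G ι : Type} [MeasurableSpace G] {μ : Measure G} [Fintype ι] [DecidableEq ι] {s : ℕ}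
    {f : ι → G → ℝ} (Fm : Fam μ ι s f) : ι ⊕ (ι × ι) → G → ℝ
  | Sum.inl α => f α
  | Sum.inr p => fun g => (∑ i, Fm.d p.1 i g * Fm.e p.2 i g) - (if p.1 = p.2 then 1 else 0)

theorem tst_meas {G ι : Type} [MeasurableSpace G] {μ : Measure G} [Fintype ι] [DecidableEq ι] {s : ℕ}
    {f : ι → G → ℝ} (Fm : Fam μ ι s f) (t : ι ⊕ (ι × ι)) : Measurable (tst Fm t) := by
  rcases t with α | p
  · exact Fm.f_meas α
  · show Measurable (fun g => (∑ i, Fm.d p.1 i g * Fm.e p.2 i g) - (if p.1 = p.2 then 1 else 0))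
    refine Measurable.sub_const ?_ _
    exact Finset.measurable_sum _ (fun i _ => (Fm.d_meas p.1 i).mul (Fm.e_meas p.2 i))

theorem sum_le {G ι : Type} [MeasurableSpace G] {μ : Measure G} [Fintype ι] [DecidableEq ι] {s : ℕ}
    {f : ι → G → ℝ} (Fm : Fam μ ι s f) (α α' : ι) (g : G) :
    |∑ i, Fm.d α i g * Fm.e α' i g| ≤ s * Fm.B ^ 2 := by
  refine (Finset.abs_sum_le_sum_abs _ _).trans ?_
  have h1 : ∀ i ∈ (Finset.univ : Finset (Fin s)), |Fm.d α i g * Fm.e α' i g| ≤ Fm.B ^ 2 := by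
    intro i _
    rw [abs_mul, sq]
    have hB := Fm.B1
    exact mul_le_mul (Fm.d_le _ _ _) (Fm.e_le _ _ _) (abs_nonneg _) (by linarith)
  refine (Finset.sum_le_sum h1).trans ?_
  rw [Finset.sum_const, Finset.card_univ, Fintype.card_fin, nsmul_eq_mul]

theorem tst_le {G ι : Type} [MeasurableSpace G] {μ : Measure G} [Fintype ι] [DecidableEq ι] {s : ℕ}
    {f : ι → G → ℝ} (Fm : Fam μ ι s f) (t : ι ⊕ (ι × ι)) (g : G) :
    |tst Fm t g| ≤ s * Fm.B ^ 2 + 1 + Fm.B := by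
  have hB := Fm.B1
  have hs : (0 : ℝ) ≤ s * Fm.B ^ 2 := by positivity
  rcases t with α | p
  · have h := Fm.f_le α g
    show |f α g| ≤ _
    linarith
  · show |(∑ i, Fm.d p.1 i g * Fm.e p.2 i g) - (if p.1 = p.2 then 1 else 0)| ≤ _
    refine (abs_sub _ _).trans ?_
    have h1 := sum_le Fm p.1 p.2 g
    have h2 : |(if p.1 = p.2 then (1 : ℝ) else 0)| ≤ 1 := by
      split_ifs
      · rw [abs_one]
      · rw [abs_zero]; norm_num
    linarith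

theorem tst_int {G ι : Type} [MeasurableSpace G] {μ : Measure G} [IsProbabilityMeasure μ] [Fintype ι]
    [DecidableEq ι] {s : ℕ} {f : ι → G → ℝ} (Fm : Fam μ ι s f) (t : ι ⊕ (ι × ι)) :
    ∫ g, tst Fm t g ∂μ = 0 := by
  rcases t with α | p
  · exact Fm.f_int α
  · show ∫ g, ((∑ i, Fm.d p.1 i g * Fm.e p.2 i g) - (if p.1 = p.2 then 1 else 0)) ∂μ = 0
    have hm : Measurable (fun g => ∑ i, Fm.d p.1 i g * Fm.e p.2 i g) :=
      Finset.measurable_sum _ (fun i _ => (Fm.d_meas p.1 i).mul (Fm.e_meas p.2 i))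
    have hi : Integrable (fun g => ∑ i, Fm.d p.1 i g * Fm.e p.2 i g) μ := by
      refine Integrable.of_bound hm.aestronglyMeasurable (s * Fm.B ^ 2) ?_
      refine Filter.Eventually.of_forall (fun g => ?_)
      rw [Real.norm_eq_abs]
      exact sum_le Fm p.1 p.2 g
    rw [integral_sub hi (integrable_const _), Fm.frame p.1 p.2, integral_const]
    simp


/-- `q ^ (z K)` -/
noncomputable def E (q K : ℕ) (z : ℝ) : ℝ := (q : ℝ) ^ (z * K)

theorem E_pos {q : ℕ} (hq : 2 ≤ q) (K : ℕ) (z : ℝ) : 0 < E q K z :=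
  Real.rpow_pos_of_pos (by exact_mod_cast (by omega : 0 < q)) _

theorem E_add {q : ℕ} (hq : 2 ≤ q) (K : ℕ) (z w : ℝ) : E q K (z + w) = E q K z * E q K w := by
  have h0 : (0 : ℝ) < q := by exact_mod_cast (by omega : 0 < q)
  unfold E
  rw [add_mul, Real.rpow_add h0]

theorem E_zero (q K : ℕ) : E q K 0 = 1 := by
  unfold E
  rw [zero_mul, Real.rpow_zero]

theorem E_one (q K : ℕ) : E q K 1 = (q : ℝ) ^ K := by
  unfold E
  rw [one_mul, Real.rpow_natCast]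

theorem E_mono {q : ℕ} (hq : 2 ≤ q) (K : ℕ) {z w : ℝ} (h : z ≤ w) : E q K z ≤ E q K w := by
  unfold E
  refine Real.rpow_le_rpow_of_exponent_le (by exact_mod_cast (by omega : 1 ≤ q)) ?_
  exact mul_le_mul_of_nonneg_right h (by positivity)

theorem aux1 {K c e1 A eh : ℝ} (hK : 1 ≤ K) (hc : 0 ≤ c) (h2 : K * c ≤ e1 + A * eh) (h3 : A * eh ≤ A * e1) :
    c ≤ (1 + A) * e1 := by
  nlinarith

theorem aux2 {K c e1 A eh Y : ℝ} (hK : 1 ≤ K) (heh : 0 ≤ eh) (hA : 1 ≤ A) (h5 : c ≤ Y + A * K * eh)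
    (h6 : -(A * eh) ≤ K * c - e1) (b1 : 2 * A * (K + 1) ^ 2 * eh ≤ e1) : e1 ≤ Y * (2 * K) := by
  have h7 : K * c ≤ K * (Y + A * K * eh) := mul_le_mul_of_nonneg_left h5 (by linarith)
  have h8 : 0 ≤ A * eh * K := by positivity
  nlinarith

theorem aux3 {K : ℝ} (hK : 0 ≤ K) : (K + 1) * K ≤ (K + 1) ^ 2 := by nlinarith

theorem aux4 {K : ℝ} (hK : 0 ≤ K) : K * K ≤ (K + 1) ^ 2 := by nlinarith

/-- the real inequality for the last step -/
theorem last {v0 c mι cJ ρ v cQ R B τ A K e8 e5 eη T x : ℝ} (hc : 0 ≤ c) (hm : 0 ≤ mι) (hcJ0 : 0 ≤ cJ)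
    (hcJ : cJ ≤ A * e8) (hA : 1 ≤ A) (hK : 1 ≤ K) (he8 : 0 < e8) (he5 : 0 < e5) (heη : 0 < eη)
    (hR : 0 ≤ R) (hB : 0 ≤ B) (hρ : ρ = 8 * K * e5) (hτ : τ = mι * cJ * B * R * ρ)
    (hv0 : v0 = (c + 2) * eη) (hv : v = A * (c + K + 2) * eη) {e1 : ℝ} (he1 : 0 < e1) (hcQ0 : 0 ≤ cQ)
    (hcQ : cQ ≤ (1 + A) * e1)
    (a6 : 6 * eη ≤ T) (a7 : 96 * mι * A ^ 2 * (K + 1) ^ 2 * (e8 * e5 * eη) ≤ T)
    (a8 : 6 * (1 + A) * R * B * (8 * mι * A * B * R) ^ 2 * (K + 1) ^ 2 * (e1 * (e8 * e5) ^ 2) ≤ T)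
    (hx : x ≤ v0 + mι * cJ * ρ * (2 * v) + cQ * R * B * τ ^ 2) : x ≤ 1 / 2 * ((c + 2) * T) := by
  have hρ0 : 0 < ρ := by rw [hρ]; positivity
  have hv' : v ≤ A * ((K + 1) * (c + 2)) * eη := by
    rw [hv]
    refine mul_le_mul_of_nonneg_right (mul_le_mul_of_nonneg_left ?_ (by linarith)) heη.le
    nlinarith [mul_nonneg (by linarith : (0 : ℝ) ≤ K) hc]
  have hv00 : 0 ≤ v := by
    rw [hv]
    have : 0 ≤ c + K + 2 := by linarith
    positivity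
  have t1 : v0 ≤ (c + 2) * (T / 6) := by
    rw [hv0]
    exact mul_le_mul_of_nonneg_left (by linarith) (by linarith)
  have t2 : mι * cJ * ρ * (2 * v) ≤ (c + 2) * (T / 6) := by
    calc mι * cJ * ρ * (2 * v) ≤ mι * (A * e8) * ρ * (2 * (A * ((K + 1) * (c + 2)) * eη)) := by
          refine mul_le_mul ?_ (by linarith) (by linarith) (by positivity)
          exact mul_le_mul_of_nonneg_right (mul_le_mul_of_nonneg_left hcJ hm) hρ0.le
      _ = (c + 2) * (16 * mι * A ^ 2 * (K * (K + 1)) * (e8 * e5 * eη)) := by rw [hρ]; ring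
      _ ≤ (c + 2) * (16 * mι * A ^ 2 * (K + 1) ^ 2 * (e8 * e5 * eη)) := by
          refine mul_le_mul_of_nonneg_left ?_ (by linarith)
          refine mul_le_mul_of_nonneg_right ?_ (by positivity)
          refine mul_le_mul_of_nonneg_left ?_ (by positivity)
          nlinarith
      _ ≤ (c + 2) * (T / 6) := by
          refine mul_le_mul_of_nonneg_left ?_ (by linarith)
          linarith
  have hτ0 : 0 ≤ τ := by rw [hτ]; positivity
  have hτ' : τ ≤ (8 * mι * A * B * R) * (K + 1) * (e8 * e5) := by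
    calc τ = mι * cJ * B * R * ρ := hτ
      _ ≤ mι * (A * e8) * B * R * ρ := by
          refine mul_le_mul_of_nonneg_right ?_ hρ0.le
          refine mul_le_mul_of_nonneg_right ?_ hR
          refine mul_le_mul_of_nonneg_right ?_ hB
          exact mul_le_mul_of_nonneg_left hcJ hm
      _ = (8 * mι * A * B * R) * K * (e8 * e5) := by rw [hρ]; ring
      _ ≤ (8 * mι * A * B * R) * (K + 1) * (e8 * e5) := by
          refine mul_le_mul_of_nonneg_right ?_ (by positivity)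
          exact mul_le_mul_of_nonneg_left (by linarith) (by positivity)
  have t3 : cQ * R * B * τ ^ 2 ≤ (c + 2) * (T / 6) := by
    have hT : 0 ≤ T := le_trans (by positivity) a6
    calc cQ * R * B * τ ^ 2 ≤ ((1 + A) * e1) * R * B * ((8 * mι * A * B * R) * (K + 1) * (e8 * e5)) ^ 2 := by
          refine mul_le_mul ?_ (pow_le_pow_left₀ hτ0 hτ' 2) (by positivity) (by positivity)
          refine mul_le_mul_of_nonneg_right ?_ hB
          exact mul_le_mul_of_nonneg_right hcQ hR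
      _ = (6 * (1 + A) * R * B * (8 * mι * A * B * R) ^ 2 * (K + 1) ^ 2 * (e1 * (e8 * e5) ^ 2)) / 6 := by ring
      _ ≤ T / 6 := by linarith
      _ ≤ (c + 2) * (T / 6) := by nlinarith
  have : x ≤ (c + 2) * (T / 6) + (c + 2) * (T / 6) + (c + 2) * (T / 6) := by linarith
  linarith

/-- Let `Q = S.Pr K`, `J = ↥(S.X κ K)` (stable under `bar` by `bar_c`, `bar_per`), `ev χ P = S.lam χ P 1` (`bar_par` with
`e = 1`; `‖ev‖ ≤ R`; note `S.lam χ P 1 = ∑ j, S.par χ P j`), `m = card ι`. Take `g0` from `rand_base` for the tests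
`T = ι ⊕ (ι × ι)`, `f_α` and `∑_i d_{α,i} e_{α',i} - δ_{α,α'}` (mean zero by `f_int`, `frame`; bounded by `s B^2 + 1 + B`).
Put `D = q^K / (2K)`, `u = A (2K+2) q^((1/2+η)K)`, `ρ = 8 K q^((-1/2+5η)K)`, so `D ρ / 2 = 2 q^((1/2+5η)K)`,
`c1 = m card(J) B R`. For `K` large (`asym`, `X_card`: `card J ≤ A q^(η/8 K)`; `η ≤ 1/64`):
`hdiag`: `norm` gives `∑ ‖ev‖^2 ≥ card(Pr K) - A K √q^K ≥ q^K/(2K)` (`Pr_card`: `K card ≥ q^K - A √q^K`);
`horth`: `orth` with `c, c' ≤ K`; `hfl`: second part of `rand_base`; `hbase`: `(K+2) q^((1/2+η)K) + q^((1/2+5η)K) ≤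
2 q^((1/2+5η)K)`; `c1 ρ ≤ 1`, `h1`, `h2` (`card(Pr K) ≤ (1+A) q^K`): exponents `η/8 - 1/2 + 5η < 0`, `1/2 + η + η/8 < 1`,
`1 + 2 η/8 - 1/2 + 5η < 1`. `coreSolve` gives `x, t`; put `g P = cp (g0 P) (t P)`. For `χ ∉ X κ K` apply `outside` with
`w = S.lam χ · 1`, `v0 = (c χ + 2) q^((1/2+η)K)`, `v = A (c χ + K + 2) q^((1/2+η)K) ≤ A (K+1)(c χ + 2) q^(..)` (`orth` for
`χ ≠ χ'`, as `χ' ∈ X`), `τ = c1 ρ`: total `≤ (c χ + 2) (q^((1/2+η)K) + 2 m A q^(η/8 K) 8 K A (K+1) q^(6ηK) +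
(1+A) R B (m A B R 8 K)^2 q^((2η/8 + 10 η) K)) ≤ (1/2) (c χ + 2) q^((1/2+2η)K)` for `K` large. -/
theorem solver {𝓟 𝓧 : Type} (S : TSys 𝓟 𝓧) {G ι : Type} [MeasurableSpace G] (μ : Measure G)
    [IsProbabilityMeasure μ] [Fintype ι] [DecidableEq ι] {s : ℕ} {f : ι → G → ℝ} (Fm : Fam μ ι s f) (η : ℝ)
    (hη : 0 < η) (hη2 : η ≤ 1 / 64) (κ : ℕ) (hκ : 1 ≤ κ) (hκη : 8 * (S.a : ℝ) ≤ η * κ) :
    ∃ K0 : ℕ, ∀ K, K0 ≤ K → ∀ b : ι → 𝓧 → ℂ,
      (∀ α, ∀ χ ∈ S.X κ K, ‖b α χ‖ ≤ (S.q : ℝ) ^ ((1 / 2 + 5 * η) * K)) →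
      (∀ α, ∀ χ ∈ S.X κ K, b α (S.bar χ) = starRingEnd ℂ (b α χ)) →
      ∃ g : 𝓟 → G, (∀ α, ∀ χ ∈ S.X κ K, ∑ P ∈ S.Pr K, (f α (g P) : ℂ) * S.lam χ P 1 = b α χ) ∧
        ∀ α χ, χ ∉ S.X κ K → ‖∑ P ∈ S.Pr K, (f α (g P) : ℂ) * S.lam χ P 1‖ ≤
          1 / 2 * (((S.c χ : ℝ) + 2) * (S.q : ℝ) ^ ((1 / 2 + 2 * η) * K)) := by
  classical
  have hq := S.hq
  have hA : (1 : ℝ) ≤ S.A := by exact_mod_cast S.hA
  have hB := Fm.B1
  have hB0 : 0 ≤ Fm.B := by linarith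
  have hR0 : (0 : ℝ) ≤ S.R := by positivity
  have hm0 : (0 : ℝ) ≤ (Fintype.card ι : ℝ) := by positivity
  obtain ⟨K1, hK1⟩ := rand_base S μ (tst Fm) (tst_meas Fm) (s * Fm.B ^ 2 + 1 + Fm.B) (by positivity)
    (tst_le Fm) (tst_int Fm) η hη
  obtain ⟨k1, a1⟩ := asym S.q hq (2 * S.A) (1 / 2) 1 2 (by norm_num)
  obtain ⟨k2, a2⟩ := asym S.q hq 1 (1 / 2 + η) (1 / 2 + 5 * η) 1 (by linarith)
  obtain ⟨k3, a3⟩ := asym S.q hq (8 * Fintype.card ι * S.A * Fm.B * S.R) (η / 8 + (-(1 / 2) + 5 * η)) 0 1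
    (by linarith)
  obtain ⟨k4, a4⟩ := asym S.q hq (32 * S.A ^ 2 * Fintype.card ι) (1 / 2 + η + η / 8) 1 2 (by linarith)
  obtain ⟨k5, a5⟩ := asym S.q hq (64 * (1 + S.A) * S.R * Fm.B * (Fintype.card ι * S.A * Fm.B * S.R) ^ 2)
    (1 + ((η / 8 + η / 8) + (-(1 / 2) + 5 * η))) 1 2 (by linarith)
  obtain ⟨k6, a6⟩ := asym S.q hq 6 (1 / 2 + η) (1 / 2 + 2 * η) 0 (by linarith)
  obtain ⟨k7, a7⟩ := asym S.q hq (96 * Fintype.card ι * S.A ^ 2) (η / 8 + (-(1 / 2) + 5 * η) + (1 / 2 + η))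
    (1 / 2 + 2 * η) 2 (by linarith)
  obtain ⟨k8, a8⟩ := asym S.q hq (6 * (1 + S.A) * S.R * Fm.B * (8 * Fintype.card ι * S.A * Fm.B * S.R) ^ 2)
    (1 + ((η / 8 + (-(1 / 2) + 5 * η)) + (η / 8 + (-(1 / 2) + 5 * η)))) (1 / 2 + 2 * η) 2 (by linarith)
  refine ⟨K1 + k1 + k2 + k3 + k4 + k5 + k6 + k7 + k8 + 1, fun K hK b hb hbs => ?_⟩
  replace a1 := a1 K (by omega)
  replace a2 := a2 K (by omega)
  replace a3 := a3 K (by omega)
  replace a4 := a4 K (by omega)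
  replace a5 := a5 K (by omega)
  replace a6 := a6 K (by omega)
  replace a7 := a7 K (by omega)
  replace a8 := a8 K (by omega)
  obtain ⟨g0, hg1, hg2⟩ := hK1 K (by omega)
  have hK1' : (1 : ℝ) ≤ K := by exact_mod_cast (by omega : 1 ≤ K)
  have hK0 : (0 : ℝ) < K := by linarith
  have hKne : K ≠ 0 := by omega
  -- the exponentials
  obtain ⟨e8, he8⟩ : ∃ x, x = E S.q K (η / 8) := ⟨_, rfl⟩
  obtain ⟨e5, he5⟩ : ∃ x, x = E S.q K (-(1 / 2) + 5 * η) := ⟨_, rfl⟩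
  obtain ⟨eη, heη⟩ : ∃ x, x = E S.q K (1 / 2 + η) := ⟨_, rfl⟩
  obtain ⟨e1, he1⟩ : ∃ x, x = E S.q K 1 := ⟨_, rfl⟩
  obtain ⟨eh, heh⟩ : ∃ x, x = E S.q K (1 / 2) := ⟨_, rfl⟩
  obtain ⟨T, hT⟩ : ∃ x, x = E S.q K (1 / 2 + 2 * η) := ⟨_, rfl⟩
  obtain ⟨e6, he6⟩ : ∃ x, x = E S.q K (1 / 2 + 5 * η) := ⟨_, rfl⟩
  have p8 : 0 < e8 := he8 ▸ E_pos hq K _
  have p5 : 0 < e5 := he5 ▸ E_pos hq K _
  have pη : 0 < eη := heη ▸ E_pos hq K _
  have p1 : 0 < e1 := he1 ▸ E_pos hq K _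
  have ph : 0 < eh := heh ▸ E_pos hq K _
  have p6 : 0 < e6 := he6 ▸ E_pos hq K _
  have f65 : e1 * e5 = e6 := by
    rw [he1, he5, he6, ← E_add hq]
    congr 1
    ring
  have fhη : eh ≤ eη := by
    rw [heh, heη]
    exact E_mono hq K (by linarith)
  have b1 : 2 * S.A * (K + 1) ^ 2 * eh ≤ e1 := by
    rw [heh, he1]
    exact a1
  have b2 : (K + 1) * eη ≤ e6 := by
    rw [heη, he6]
    have h := a2
    rw [one_mul, pow_one] at h
    exact h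
  have b3 : 8 * Fintype.card ι * S.A * Fm.B * S.R * (K + 1) * (e8 * e5) ≤ 1 := by
    rw [he8, he5, ← E_add hq]
    have h := a3
    rw [pow_one, zero_mul, Real.rpow_zero] at h
    exact h
  have b4 : 32 * S.A ^ 2 * Fintype.card ι * (K + 1) ^ 2 * (eη * e8) ≤ e1 := by
    rw [he8, heη, he1, ← E_add hq]
    exact a4
  have b5 : 64 * (1 + S.A) * S.R * Fm.B * (Fintype.card ι * S.A * Fm.B * S.R) ^ 2 * (K + 1) ^ 2 *
      (e1 * ((e8 * e8) * e5)) ≤ e1 := by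
    rw [he8, he5, he1, ← E_add hq, ← E_add hq, ← E_add hq]
    exact a5
  have b6 : 6 * eη ≤ T := by
    rw [heη, hT]
    have h := a6
    rw [pow_zero, mul_one] at h
    exact h
  have b7 : 96 * Fintype.card ι * S.A ^ 2 * (K + 1) ^ 2 * (e8 * e5 * eη) ≤ T := by
    rw [he8, he5, heη, hT, ← E_add hq, ← E_add hq]
    exact a7
  have b8 : 6 * (1 + S.A) * S.R * Fm.B * (8 * Fintype.card ι * S.A * Fm.B * S.R) ^ 2 * (K + 1) ^ 2 *
      (e1 * (e8 * e5) ^ 2) ≤ T := by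
    rw [sq (e8 * e5), he8, he5, he1, hT, ← E_add hq, ← E_add hq, ← E_add hq]
    exact a8
  have gη : (S.q : ℝ) ^ ((1 / 2 + η) * K) = eη := heη.symm
  have g6 : (S.q : ℝ) ^ ((1 / 2 + 5 * η) * K) = e6 := he6.symm
  have gT : (S.q : ℝ) ^ ((1 / 2 + 2 * η) * K) = T := hT.symm
  have gh : √(S.q : ℝ) ^ K = eh := by
    rw [sqrt_pow, heh]
    rfl
  have g1 : (S.q : ℝ) ^ K = e1 := by rw [he1, E_one]
  rw [gη] at hg1 hg2
  rw [gT]
  rw [g6] at hb
  -- the number of the places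
  have hPr := S.Pr_card K hKne
  rw [gh, g1, abs_le] at hPr
  have hcQ : ((S.Pr K).card : ℝ) ≤ (1 + S.A) * e1 := by
    have h1 : eh ≤ e1 := by
      rw [heh, he1]
      exact E_mono hq K (by norm_num)
    have hc0 : (0 : ℝ) ≤ ((S.Pr K).card : ℝ) := Nat.cast_nonneg _
    have h2 : (K : ℝ) * (S.Pr K).card ≤ e1 + S.A * eh := by linarith [hPr.2]
    have h3 : (S.A : ℝ) * eh ≤ S.A * e1 := mul_le_mul_of_nonneg_left h1 (by linarith)
    exact aux1 hK1' hc0 h2 h3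
  -- the twists
  have hX : ∀ χ ∈ S.X κ K, (S.c χ : ℝ) + 1 ≤ K ∧ S.per χ ∣ K := by
    intro χ hχ
    obtain ⟨h1, h2⟩ := (TSys.mem_X hκ).1 hχ
    refine ⟨?_, h2⟩
    have h3 : S.c χ + 1 ≤ K := le_trans (Nat.le_mul_of_pos_left _ (by omega)) h1
    exact_mod_cast h3
  have hXb : ∀ χ ∈ S.X κ K, S.bar χ ∈ S.X κ K := by
    intro χ hχ
    rw [TSys.mem_X hκ, S.bar_c, S.bar_per]
    exact (TSys.mem_X hκ).1 hχ
  have hJ := X_card S η hη κ hκ hκη K
  have g8 : (S.q : ℝ) ^ (η / 8 * K) = e8 := he8.symm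
  rw [g8] at hJ
  obtain ⟨cJ, hcJ⟩ : ∃ x : ℝ, x = (Fintype.card {χ : 𝓧 // χ ∈ S.X κ K} : ℝ) := ⟨_, rfl⟩
  have hcJ' : cJ ≤ S.A * e8 := by
    rw [hcJ, Fintype.card_coe]
    exact hJ
  have hcJ0 : 0 ≤ cJ := by rw [hcJ]; positivity
  -- constants
  obtain ⟨ρ, hρ⟩ : ∃ x : ℝ, x = 8 * K * e5 := ⟨_, rfl⟩
  have hρ0 : 0 < ρ := by rw [hρ]; positivity
  have hD0 : 0 < e1 / (2 * K) := by positivity
  have hDρ : e1 / (2 * K) * ρ / 2 = 2 * e6 := by
    rw [hρ, ← f65]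
    field_simp
    ring
  have hc1ρ : (Fintype.card ι : ℝ) * cJ * Fm.B * S.R * ρ ≤ 1 := by
    calc (Fintype.card ι : ℝ) * cJ * Fm.B * S.R * ρ ≤ (Fintype.card ι : ℝ) * (S.A * e8) * Fm.B * S.R * ρ := by
          refine mul_le_mul_of_nonneg_right ?_ hρ0.le
          refine mul_le_mul_of_nonneg_right ?_ hR0
          refine mul_le_mul_of_nonneg_right ?_ hB0
          exact mul_le_mul_of_nonneg_left hcJ' hm0
      _ = 8 * Fintype.card ι * S.A * Fm.B * S.R * K * (e8 * e5) := by rw [hρ]; ring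
      _ ≤ 8 * Fintype.card ι * S.A * Fm.B * S.R * (K + 1) * (e8 * e5) := by
          refine mul_le_mul_of_nonneg_right ?_ (by positivity)
          exact mul_le_mul_of_nonneg_left (by linarith) (by positivity)
      _ ≤ 1 := b3
  have huη : 0 ≤ S.A * (2 * K + 2) * eη := by positivity
  obtain ⟨x, t, hx, ht, htn, hsol⟩ := coreSolve μ Fm (S.Pr K) g0
    (fun (j : {χ : 𝓧 // χ ∈ S.X κ K}) P => S.lam j.1 P 1)
    (fun j => ⟨S.bar j.1, hXb j.1 j.2⟩)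
    (fun j => Subtype.ext (S.bar_bar j.1))
    (fun j P => lam_bar S j.1 P)
    S.R (e1 / (2 * K)) (S.A * (2 * K + 2) * eη) ρ (Fintype.card ι * cJ * Fm.B * S.R) hR0
    (fun j P => lam_le_one S j.1 P) hD0 huη hρ0.le
    (by
      intro j
      obtain ⟨h1, h2⟩ := hX j.1 j.2
      have h3 := S.norm j.1 K hKne h2
      rw [gh] at h3
      have e : ∑ P ∈ S.Pr K, ‖S.lam j.1 P 1‖ ^ 2 = ∑ P ∈ S.Pr K, ‖∑ i, S.par j.1 P i‖ ^ 2 :=
        Finset.sum_congr rfl (fun P _ => by rw [lam_one])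
      show e1 / (2 * K) ≤ ∑ P ∈ S.Pr K, ‖S.lam j.1 P 1‖ ^ 2
      rw [e]
      obtain ⟨Y, hY⟩ : ∃ Y, Y = ∑ P ∈ S.Pr K, ‖∑ i, S.par j.1 P i‖ ^ 2 := ⟨_, rfl⟩
      rw [← hY] at h3 ⊢
      rw [div_le_iff₀ (by linarith)]
      have h4 : (S.A : ℝ) * ((S.c j.1 : ℝ) + 1) * eh ≤ S.A * K * eh :=
        mul_le_mul_of_nonneg_right (mul_le_mul_of_nonneg_left h1 (by linarith)) ph.le
      have h5 : ((S.Pr K).card : ℝ) ≤ Y + S.A * K * eh := h3.trans (by linarith)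
      exact aux2 hK1' ph.le hA h5 hPr.1 b1)
    (by
      intro j j' hne
      obtain ⟨h1, h2⟩ := hX j.1 j.2
      obtain ⟨h1', h2'⟩ := hX j'.1 j'.2
      have hne' : j.1 ≠ j'.1 := fun h => hne (Subtype.ext h)
      have h3 := S.orth j.1 j'.1 hne' K hKne
      rw [gh] at h3
      have e : ∑ P ∈ S.Pr K, S.lam j.1 P 1 * starRingEnd ℂ (S.lam j'.1 P 1) =
          ∑ P ∈ S.Pr K, (∑ i, S.par j.1 P i) * starRingEnd ℂ (∑ i, S.par j'.1 P i) :=
        Finset.sum_congr rfl (fun P _ => by rw [lam_one, lam_one])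
      show ‖∑ P ∈ S.Pr K, S.lam j.1 P 1 * starRingEnd ℂ (S.lam j'.1 P 1)‖ ≤ _
      rw [e]
      refine h3.trans ?_
      refine mul_le_mul ?_ fhη ph.le (by positivity)
      exact mul_le_mul_of_nonneg_left (by linarith) (by linarith))
    (by
      intro α α' j j'
      obtain ⟨h1, h2⟩ := hX j.1 j.2
      obtain ⟨h1', h2'⟩ := hX j'.1 j'.2
      have h3 := hg2 (Sum.inr (α, α')) j.1 j'.1
      refine h3.trans ?_
      refine mul_le_mul_of_nonneg_right ?_ pη.le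
      have h4 : (S.c j.1 : ℝ) + S.c j'.1 + 2 ≤ 2 * K + 2 := by linarith
      have h5 : (2 * (K : ℝ) + 2) ≤ S.A * (2 * K + 2) := le_mul_of_one_le_left (by linarith) hA
      linarith)
    (fun α j => b α j.1)
    (fun α j => hbs α j.1 j.2)
    (by
      intro α j
      obtain ⟨h1, h2⟩ := hX j.1 j.2
      have h3 := hg1 (Sum.inl α) j.1
      have h4 := hb α j.1 j.2
      rw [hDρ]
      refine (norm_sub_le _ _).trans ?_
      have h5 : ((S.c j.1 : ℝ) + 2) * eη ≤ (K + 1) * eη := mul_le_mul_of_nonneg_right (by linarith) pη.le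
      have h6 : ‖∑ P ∈ S.Pr K, (f α (g0 P) : ℂ) * S.lam j.1 P 1‖ ≤ ((S.c j.1 : ℝ) + 2) * eη := h3
      show ‖∑ P ∈ S.Pr K, (f α (g0 P) : ℂ) * S.lam j.1 P 1‖ + ‖b α j.1‖ ≤ 2 * e6
      linarith)
    (by rw [← hcJ]) hc1ρ
    (by
      rw [← hcJ]
      have h1 : 2 * (S.A * (2 * K + 2) * eη) * ((Fintype.card ι : ℝ) * cJ) ≤
          2 * (S.A * (2 * K + 2) * eη) * ((Fintype.card ι : ℝ) * (S.A * e8)) :=
        mul_le_mul_of_nonneg_left (mul_le_mul_of_nonneg_left hcJ' hm0) (by positivity)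
      refine h1.trans ?_
      rw [div_div, le_div_iff₀ (by positivity)]
      calc 2 * (S.A * (2 * K + 2) * eη) * ((Fintype.card ι : ℝ) * (S.A * e8)) * (2 * K * 4)
          = 32 * S.A ^ 2 * Fintype.card ι * ((K + 1) * K) * (eη * e8) := by ring
        _ ≤ 32 * S.A ^ 2 * Fintype.card ι * (K + 1) ^ 2 * (eη * e8) := by
            refine mul_le_mul_of_nonneg_right ?_ (by positivity)
            refine mul_le_mul_of_nonneg_left ?_ (by positivity)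
            exact aux3 hK0.le
        _ ≤ e1 := b4)
    (by
      have hc1 : (Fintype.card ι : ℝ) * cJ * Fm.B * S.R ≤ (Fintype.card ι * S.A * Fm.B * S.R) * e8 := by
        calc (Fintype.card ι : ℝ) * cJ * Fm.B * S.R ≤ (Fintype.card ι : ℝ) * (S.A * e8) * Fm.B * S.R := by
              refine mul_le_mul_of_nonneg_right ?_ hR0
              refine mul_le_mul_of_nonneg_right ?_ hB0
              exact mul_le_mul_of_nonneg_left hcJ' hm0
          _ = (Fintype.card ι * S.A * Fm.B * S.R) * e8 := by ring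
      have hc10 : 0 ≤ (Fintype.card ι : ℝ) * cJ * Fm.B * S.R := by positivity
      rw [div_div, le_div_iff₀ (by positivity)]
      calc ((S.Pr K).card : ℝ) * S.R * Fm.B * ((Fintype.card ι : ℝ) * cJ * Fm.B * S.R) ^ 2 * ρ * (2 * K * 4)
          ≤ ((1 + S.A) * e1) * S.R * Fm.B * ((Fintype.card ι * S.A * Fm.B * S.R) * e8) ^ 2 * ρ * (2 * K * 4) := by
            refine mul_le_mul_of_nonneg_right ?_ (by positivity)
            refine mul_le_mul_of_nonneg_right ?_ hρ0.le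
            refine mul_le_mul ?_ (pow_le_pow_left₀ hc10 hc1 2) (by positivity) (by positivity)
            refine mul_le_mul_of_nonneg_right ?_ hB0
            exact mul_le_mul_of_nonneg_right hcQ hR0
        _ = 64 * (1 + S.A) * S.R * Fm.B * (Fintype.card ι * S.A * Fm.B * S.R) ^ 2 * (K * K) *
            (e1 * ((e8 * e8) * e5)) := by rw [hρ]; ring
        _ ≤ 64 * (1 + S.A) * S.R * Fm.B * (Fintype.card ι * S.A * Fm.B * S.R) ^ 2 * (K + 1) ^ 2 *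
            (e1 * ((e8 * e8) * e5)) := by
            refine mul_le_mul_of_nonneg_right ?_ (by positivity)
            refine mul_le_mul_of_nonneg_left ?_ (by positivity)
            exact aux4 hK0.le
        _ ≤ e1 := b5)
  refine ⟨fun P => Fm.cp (g0 P) (t P), ?_, ?_⟩
  · intro α χ hχ
    exact hsol α ⟨χ, hχ⟩
  · intro α χ hχ
    have hcχ : (0 : ℝ) ≤ S.c χ := by positivity
    have hout := outside μ Fm (S.Pr K) g0 (fun (j : {χ : 𝓧 // χ ∈ S.X κ K}) P => S.lam j.1 P 1)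
      (fun P => S.lam χ P 1) S.R ρ (Fintype.card ι * cJ * Fm.B * S.R * ρ) (S.A * (S.c χ + K + 2) * eη)
      ((S.c χ + 2) * eη) hR0 (fun P => lam_le_one S χ P) hρ0.le (by positivity) x t hx ht htn hc1ρ
      (by
        intro j
        obtain ⟨h1, h2⟩ := hX j.1 j.2
        have hne' : χ ≠ j.1 := fun h => hχ (h ▸ j.2)
        have h3 := S.orth χ j.1 hne' K hKne
        rw [gh] at h3
        have e : ∑ P ∈ S.Pr K, S.lam χ P 1 * starRingEnd ℂ (S.lam j.1 P 1) =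
            ∑ P ∈ S.Pr K, (∑ i, S.par χ P i) * starRingEnd ℂ (∑ i, S.par j.1 P i) :=
          Finset.sum_congr rfl (fun P _ => by rw [lam_one, lam_one])
        show ‖∑ P ∈ S.Pr K, S.lam χ P 1 * starRingEnd ℂ (S.lam j.1 P 1)‖ ≤ _
        rw [e]
        refine h3.trans ?_
        refine mul_le_mul ?_ fhη ph.le (by positivity)
        exact mul_le_mul_of_nonneg_left (by linarith) (by linarith))
      (by
        intro α α' j
        obtain ⟨h1, h2⟩ := hX j.1 j.2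
        have h3 := hg2 (Sum.inr (α, α')) χ j.1
        refine h3.trans ?_
        refine mul_le_mul_of_nonneg_right ?_ pη.le
        have h4 : (S.c χ : ℝ) + S.c j.1 + 2 ≤ S.c χ + K + 2 := by linarith
        have h5 : ((S.c χ : ℝ) + K + 2) ≤ S.A * (S.c χ + K + 2) := le_mul_of_one_le_left (by linarith) hA
        linarith)
      (fun α => hg1 (Sum.inl α) χ) α
    rw [← hcJ] at hout
    exact last hcχ hm0 hcJ0 hcJ' hA hK1' p8 p5 pη hR0 hB0 hρ rfl rfl rfl p1 (by positivity) hcQ b6 b7 b8 hout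


end Pool.Agent.H497.TT
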