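import Pool.Agent.H497.TT.Est

set_option autoImplicit false



namespace Pool.Agent.H497.TT

open MeasureTheory


/-- If `K ≤ d0` take `g' = g`: then `K < M i` for all `i`, so there is nothing to prove (`low`: `k ≤ K < M i`; `eqn`: `k ≤ K`
and `k ≥ kb i ≥ M i > K`). Otherwise let `m` be as in `hM` and call `(i, χ)` active if `κ (c χ + 1) + kb i ≤ K`; then
`M i ≤ kb i ≤ K`, so `i < m`. Let `b i χ = (ldc(LL ...) K - pp) / K` for the active pairs and `0` otherwise. Bound: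
`‖b‖ ≤ q^((1/2+4η)K) + 2 n R (1+A) q^(K/2) ≤ (1 + H) q^((1/2+4η)K) ≤ q^((1/2+5η)K)` by `ldc_big` (with `k = K`), `pp_le` and
`NumT.kbH` (`kb i ≤ K`; `K ≥ 1`). For `sd i`: `b i (bar χ) = conj (b i χ)` by `TS_conj`, `pp_conj`, `FF.ldc_conj`, `hsd`,
`bar_c` (`bar χ` is active iff `χ` is). Let `g1` be the solution from `Solv`, and `g' P = if deg P = K then g1 P else g P`.
`TS ... k` for `k < K` and `pp ... K` are the same for `g` and `g'` (`TS_congr`, `pp_congr`), so is `LL` for active pairs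
(`FF.LL_congr`, `k0 ≤ K`). `low` at `k = K` (`M i ≤ K` so `i < m`, `(i,χ)` not active): if `χ ∈ X κ K` the sum is
`b i χ = 0`, otherwise it is the second part of `Solv`. `eqn` at `k = K`: if `per χ ∣ K` then `χ ∈ X κ K` and
`TS = K b + pp = ldc`; if `per χ ∤ K` both sides are `0` (`TS_per`, `LL_per`, using `TS_per` for all `j`). -/
theorem step {𝓟 𝓧 G : Type} {S : TSys 𝓟 𝓧} {D : RD G} {η : ℝ} {κ ν d0 : ℕ} {kb M N0 : ℕ → ℕ} {N : ℕ → 𝓧 → ℕ}
    {W : ℕ → 𝓧 → ℂ} {g : 𝓟 → G} {K : ℕ} (hη : 0 < η) (hκ : 1 ≤ κ) (hd0 : ∀ i, d0 < M i) (hMkb : ∀ i, M i ≤ kb i)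
    (hNum : ∀ i, NumT S.q η κ ν (2 + 2 * D.n i * S.R * (1 + S.A) * (S.q : ℝ) ^ M i) (kb i) (N0 i))
    (hN : ∀ i χ, ν * (S.c χ + 1) + N0 i ≤ N i χ) (hNp : ∀ i χ, S.per χ ∣ N i χ) (hW : ∀ i χ, ‖W i χ‖ = 1)
    (hsd : ∀ i, D.sd i → ∀ χ, N i (S.bar χ) = N i χ ∧ W i (S.bar χ) = starRingEnd ℂ (W i χ))
    (hM : ∃ m, (∀ i, M i ≤ K → i < m) ∧ Solv S D η κ m K)
    (hG : GoodT S D η κ kb M N W g K) :
    ∃ g' : 𝓟 → G, (∀ P, S.deg P ≠ K → g' P = g P) ∧ (K ≤ d0 → g' = g) ∧ GoodT S D η κ kb M N W g' (K + 1) := by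
  by_cases hKd : K ≤ d0
  · refine ⟨g, fun _ _ => rfl, fun _ => rfl, ⟨?_, ?_⟩⟩
    · intro i χ k h1 h2 h3
      have := hd0 i
      omega
    · intro i χ k h1 h2
      have h3 := hd0 i
      have h4 := hMkb i
      have h5 : kb i ≤ κ * (S.c χ + 1) + kb i := Nat.le_add_left _ _
      omega
  have hKd' : d0 < K := not_le.1 hKd
  have hK0 : K ≠ 0 := by omega
  have hKR : (K : ℂ) ≠ 0 := by exact_mod_cast hK0
  have hKr : (1 : ℝ) ≤ (K : ℝ) := by exact_mod_cast Nat.one_le_iff_ne_zero.2 hK0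
  have hq1 : (1 : ℝ) ≤ (S.q : ℝ) := by
    have := S.hq
    exact_mod_cast (by omega : 1 ≤ S.q)
  have hq0 : (0 : ℝ) < (S.q : ℝ) := lt_of_lt_of_le zero_lt_one hq1
  obtain ⟨m, hm, hsolv⟩ := hM
  set L : ℕ → 𝓧 → ℂ := fun i χ => FF.ldc (FF.LL S.q (S.TS (fun P => D.pw i (g P)) χ)
    (κ * (S.c χ + 1) + kb i) (N i χ) (W i χ)) K with hL
  set b : ℕ → 𝓧 → ℂ := fun i χ => if κ * (S.c χ + 1) + kb i ≤ K then
    (L i χ - S.pp (fun P => D.pw i (g P)) χ K) / K else 0 with hb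
  have hbd : ∀ i < m, ∀ χ ∈ S.X κ K, ‖b i χ‖ ≤ (S.q : ℝ) ^ ((1 / 2 + 5 * η) * K) := by
    intro i _ χ _
    by_cases hact : κ * (S.c χ + 1) + kb i ≤ K
    · have h1 := ldc_big hη hG i χ (hNum i) (hN i χ) (hW i χ) hact le_rfl
      have h2 := pp_le S (fun P => D.pw i (g P)) (D.n i) (fun P e => D.bd i (g P) e) χ hK0
      have h3 : ‖b i χ‖ ≤ (‖L i χ‖ + ‖S.pp (fun P => D.pw i (g P)) χ K‖) / K := by
        simp only [hb]
        rw [if_pos hact, norm_div, Complex.norm_natCast]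
        exact div_le_div_of_nonneg_right (norm_sub_le _ _) (by positivity)
      set x : ℝ := (S.q : ℝ) ^ ((1 / 2 + 4 * η) * K) with hx
      have hx0 : 0 < x := Real.rpow_pos_of_pos hq0 _
      set c0 : ℝ := 2 * D.n i * S.R * (1 + S.A) with hc0
      have hc00 : 0 ≤ c0 := by positivity
      have h4 : (S.q : ℝ) ^ ((1 / 2 : ℝ) * K) ≤ x := by
        apply Real.rpow_le_rpow_of_exponent_le hq1
        have : (0 : ℝ) ≤ 4 * η * K := by positivity
        linarith
      have h5 : (‖L i χ‖ + ‖S.pp (fun P => D.pw i (g P)) χ K‖) / K ≤ (1 + c0) * x := by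
        rw [div_le_iff₀ (by linarith)]
        have h6 : c0 * (S.q : ℝ) ^ ((1 / 2 : ℝ) * K) ≤ c0 * x := mul_le_mul_of_nonneg_left h4 hc00
        have h7 : c0 * x ≤ c0 * x * K := le_mul_of_one_le_right (by positivity) hKr
        have h8 : ‖L i χ‖ ≤ K * x := h1
        linarith
      have h6 : 1 + c0 ≤ (S.q : ℝ) ^ (η * K) := by
        have h7 := (hNum i).kbH
        have h8 : (1 : ℝ) ≤ (S.q : ℝ) ^ M i := one_le_pow₀ hq1
        have h9 : c0 ≤ c0 * (S.q : ℝ) ^ M i := le_mul_of_one_le_right hc00 h8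
        have h10 : (S.q : ℝ) ^ (η * kb i) ≤ (S.q : ℝ) ^ (η * K) := by
          apply Real.rpow_le_rpow_of_exponent_le hq1
          apply mul_le_mul_of_nonneg_left _ hη.le
          have : kb i ≤ K := le_trans (Nat.le_add_left _ _) hact
          exact_mod_cast this
        linarith
      calc ‖b i χ‖ ≤ (1 + c0) * x := h3.trans h5
        _ ≤ (S.q : ℝ) ^ (η * K) * x := mul_le_mul_of_nonneg_right h6 hx0.le
        _ = (S.q : ℝ) ^ ((1 / 2 + 5 * η) * K) := by
          rw [hx, ← Real.rpow_add hq0]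
          congr 1
          ring
    · simp only [hb]
      rw [if_neg hact, norm_zero]
      positivity
  have hbs : ∀ i < m, D.sd i → ∀ χ ∈ S.X κ K, b i (S.bar χ) = starRingEnd ℂ (b i χ) := by
    intro i _ hi χ _
    simp only [hb]
    rw [S.bar_c]
    by_cases hact : κ * (S.c χ + 1) + kb i ≤ K
    · rw [if_pos hact, if_pos hact, map_div₀, map_sub, Complex.conj_natCast,
        pp_conj S (fun P => D.pw i (g P)) (fun P e => D.real i hi (g P) e) χ K]
      have h1 : L i (S.bar χ) = starRingEnd ℂ (L i χ) := by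
        simp only [hL]
        rw [S.bar_c, (hsd i hi χ).1, (hsd i hi χ).2]
        exact FF.ldc_conj S.q (S.TS (fun P => D.pw i (g P)) χ) (S.TS (fun P => D.pw i (g P)) (S.bar χ)) _ _ _
          (fun j _ _ => TS_conj S (fun P => D.pw i (g P)) (fun P e => D.real i hi (g P) e) χ j) K
      rw [h1]
    · rw [if_neg hact, if_neg hact, map_zero]
  obtain ⟨g1, hg1, hg2⟩ := hsolv b hbd hbs
  classical
  refine ⟨fun P => if S.deg P = K then g1 P else g P, fun P hP => if_neg hP,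
    fun h => absurd h hKd, ?_⟩
  have hTS : ∀ i χ k, k < K → S.TS (fun P => D.pw i (if S.deg P = K then g1 P else g P)) χ k =
      S.TS (fun P => D.pw i (g P)) χ k := by
    intro i χ k hk
    apply TS_congr
    intro P hP
    rw [if_neg (by omega)]
  have hpp : ∀ i χ, S.pp (fun P => D.pw i (if S.deg P = K then g1 P else g P)) χ K =
      S.pp (fun P => D.pw i (g P)) χ K := by
    intro i χ
    apply pp_congr
    intro P hP
    rw [if_neg (by omega)]
  have hs1 : ∀ i χ k, k < K → ∑ P ∈ S.Pr k, D.pw i (if S.deg P = K then g1 P else g P) 1 * S.lam χ P 1 =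
      ∑ P ∈ S.Pr k, D.pw i (g P) 1 * S.lam χ P 1 := by
    intro i χ k hk
    refine Finset.sum_congr rfl fun P hP => ?_
    have := (S.mem_Pr k P).1 hP
    rw [if_neg (by omega)]
  have hs2 : ∀ i χ, ∑ P ∈ S.Pr K, D.pw i (if S.deg P = K then g1 P else g P) 1 * S.lam χ P 1 =
      ∑ P ∈ S.Pr K, D.pw i (g1 P) 1 * S.lam χ P 1 := by
    intro i χ
    refine Finset.sum_congr rfl fun P hP => ?_
    rw [if_pos ((S.mem_Pr K P).1 hP)]
  have hLL : ∀ i χ, κ * (S.c χ + 1) + kb i ≤ K →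
      FF.LL S.q (S.TS (fun P => D.pw i (if S.deg P = K then g1 P else g P)) χ)
        (κ * (S.c χ + 1) + kb i) (N i χ) (W i χ) =
      FF.LL S.q (S.TS (fun P => D.pw i (g P)) χ) (κ * (S.c χ + 1) + kb i) (N i χ) (W i χ) := by
    intro i χ h
    exact FF.LL_congr _ _ _ _ _ _ fun j _ hj => hTS i χ j (by omega)
  constructor
  · intro i χ k h1 h2 h3
    rcases Nat.lt_succ_iff_lt_or_eq.1 h2 with h4 | rfl
    · rw [hs1 i χ k h4]
      exact hG.low i χ k h1 h4 h3
    · rw [hs2 i χ]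
      have him := hm i h1
      by_cases hχ : χ ∈ S.X κ k
      · rw [hg1 i him χ hχ]
        simp only [hb]
        rw [if_neg (by omega), norm_zero]
        positivity
      · exact hg2 i him χ hχ
  · intro i χ k h1 h2
    rcases Nat.lt_succ_iff_lt_or_eq.1 h2 with h4 | rfl
    · rw [hTS i χ k h4, hLL i χ (by omega)]
      exact hG.eqn i χ k h1 h4
    · rw [hLL i χ h1]
      by_cases hp : S.per χ ∣ k
      · have hχ : χ ∈ S.X κ k := (TSys.mem_X hκ).2 ⟨le_trans (Nat.le_add_right _ _) h1, hp⟩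
        have him : i < m := hm i ((hMkb i).trans (le_trans (Nat.le_add_left _ _) h1))
        rw [TS_split S _ χ hK0, hs2 i χ, hg1 i him χ hχ, hpp i χ]
        simp only [hb]
        rw [if_pos h1, mul_div_cancel₀ _ hKR, sub_add_cancel]
      · rw [TS_per S _ χ hp]
        exact (LL_per S.q _ _ _ _ (S.per χ) (fun j hj => TS_per S _ χ hj) (hNp i χ) k hp).symm


end Pool.Agent.H497.TT
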